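import Pool.Agent.P.MP_0c5457_lc.Fix

set_option autoImplicit false

/-! Exact stationary equilibria of two-player absorbing games with nonnegative absorbing rewards.
`p i j` is the absorption probability and `G i j` the expected absorbing reward. -/

namespace Pool.Agent.P.MP_0c5457_lc

open Finset Filter Topology

variable {I J : Type} [Fintype I] [Fintype J]

/-- one-shot gain of row `i` against `y` when the continuation value is `w` -/
def gain (p G : I → J → ℝ) (y : J → ℝ) (w : ℝ) (i : I) : ℝ := ∑ j, y j * (G i j - w * p i j)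

/-- the compact set of solutions of player 1's conditions -/
def Sol (p G : I → J → ℝ) (I0 : Finset I) (j0 : J) (d : ℝ) : Set ((J → ℝ) × ℝ) :=
  {z | z.1 ∈ stdSimplex ℝ J ∧ z.2 ∈ Set.Icc (0 : ℝ) 1 ∧ d ≤ z.1 j0 ∧
    (∀ i, gain p G z.1 z.2 i ≤ 0) ∧ ∀ i ∈ I0, gain p G z.1 z.2 i = 0}

omit [Fintype I] in
lemma isCompact_Sol (p G : I → J → ℝ) (I0 : Finset I) (j0 : J) (d : ℝ) :
    IsCompact (Sol p G I0 j0 d) := by
  have hc : ∀ i, Continuous fun z : (J → ℝ) × ℝ => gain p G z.1 z.2 i := fun i => by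
    unfold gain; fun_prop
  refine ((isCompact_stdSimplex ℝ J).prod (isCompact_Icc (a := (0 : ℝ)) (b := 1))).of_isClosed_subset
    ?_ fun z hz => ⟨hz.1, hz.2.1⟩
  refine ((isClosed_stdSimplex ℝ J).preimage continuous_fst).inter
    ((isClosed_Icc.preimage continuous_snd).inter
      ((isClosed_le continuous_const ((continuous_apply j0).comp continuous_fst)).inter
        (IsClosed.inter ?_ ?_)))
  · show IsClosed {z : (J → ℝ) × ℝ | ∀ i, gain p G z.1 z.2 i ≤ 0}
    simp only [Set.ofPred_forall]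
    exact isClosed_iInter fun i => isClosed_le (hc i) continuous_const
  · show IsClosed {z : (J → ℝ) × ℝ | ∀ i ∈ I0, gain p G z.1 z.2 i = 0}
    simp only [Set.ofPred_forall]
    exact isClosed_iInter fun i => isClosed_iInter fun _ => isClosed_eq (hc i) continuous_const

lemma exists_mu (p G : I → J → ℝ) (d : ℝ) : ∃ μ : ℝ, 0 < μ ∧ ∀ (I0 : Finset I) (E : Finset J)
    (j0 : J), (∃ z ∈ Sol p G I0 j0 d, ∑ j ∈ E, z.1 j < μ) →
      ∃ z ∈ Sol p G I0 j0 d, ∀ j ∈ E, z.1 j = 0 := by
  have h : ∀ t : Finset I × Finset J × J, ∀ᶠ μ in 𝓝[>] (0 : ℝ),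
      (∃ z ∈ Sol p G t.1 t.2.2 d, ∑ j ∈ t.2.1, z.1 j < μ) →
      ∃ z ∈ Sol p G t.1 t.2.2 d, ∀ j ∈ t.2.1, z.1 j = 0 := by
    rintro ⟨I0, E, j0⟩
    rcases (Sol p G I0 j0 d).eq_empty_or_nonempty with he | hne
    · exact Eventually.of_forall fun μ ⟨z, hz, _⟩ => by simp [he] at hz
    obtain ⟨z, hz, hmin⟩ := (isCompact_Sol p G I0 j0 d).exists_isMinOn hne
      (f := fun z => ∑ j ∈ E, z.1 j) (by fun_prop)
    rcases (Finset.sum_nonneg fun j (_ : j ∈ E) => hz.1.1 j).eq_or_lt with h0 | h0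
    · exact Eventually.of_forall fun μ _ => ⟨z, hz,
        (Finset.sum_eq_zero_iff_of_nonneg fun j _ => hz.1.1 j).mp h0.symm⟩
    · filter_upwards [Ioo_mem_nhdsGT h0] with μ hμ ⟨z', hz', hlt⟩
      exact absurd (hmin hz') (not_le.mpr (lt_trans hlt hμ.2))
  obtain ⟨μ, h1, h2⟩ := ((eventually_all.mpr h).and self_mem_nhdsWithin).exists
  exact ⟨μ, h2, fun I0 E j0 => h1 (I0, E, j0)⟩

/-- clamp to the unit interval -/
def cl (t : ℝ) : ℝ := max 0 (min t 1)

lemma cl_nonneg (t : ℝ) : 0 ≤ cl t := le_max_left _ _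
lemma cl_le (t : ℝ) : cl t ≤ 1 := max_le zero_le_one (min_le_right _ _)
lemma cl_mono {s t : ℝ} (h : s ≤ t) : cl s ≤ cl t := max_le_max le_rfl (min_le_min h le_rfl)
lemma cl_one {t : ℝ} (h : 1 ≤ t) : cl t = 1 := by
  rw [cl, min_eq_right h, max_eq_right zero_le_one]
lemma cl_zero {t : ℝ} (h : t ≤ 0) : cl t = 0 := max_eq_left (le_trans (min_le_left _ _) h)
@[fun_prop] lemma continuous_cl : Continuous cl := by unfold cl; fun_prop

/-- A continuous, fully mixed reply to scores `r` that puts much less weight on worse actions. -/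
lemma exists_proper [Nonempty J] (b : ℕ → ℝ) (hb0 : b 0 = 1) (hbpos : ∀ k, 0 < b k)
    (hanti : Antitone b) (t : ℝ) (ht : 0 < t) :
    ∃ Y : (J → ℝ) → J → ℝ, Continuous Y ∧ (∀ r, Y r ∈ stdSimplex ℝ J) ∧ (∀ r j, 0 < Y r j) ∧
      ∀ r j0, ∃ k, b k / (Fintype.card J * (2 * Fintype.card J + 1)) ≤ Y r j0 ∧
        ∀ j, r j + t ≤ r j0 → Y r j ≤ (2 * Fintype.card J + 1) * b (k + 1) := by
  classical
  set n := Fintype.card J with hn
  have hnpos : (0 : ℝ) < n := by exact_mod_cast Fintype.card_pos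
  set R : (J → ℝ) → J → ℝ := fun r j => ∑ l, cl ((r l - r j) / t) with hR
  set a : ℝ → ℝ := fun s => ∑ k ∈ range (2 * n + 1), b k * cl (k + 1 - 2 * s) with ha
  have hR0 : ∀ r j, 0 ≤ R r j := fun r j => Finset.sum_nonneg fun l _ => cl_nonneg _
  have hRn : ∀ r j, R r j ≤ n := fun r j => by
    have := Finset.sum_le_sum fun l (_ : l ∈ Finset.univ) => cl_le ((r l - r j) / t)
    simpa using this
  have ha1 : ∀ (s : ℝ) (k : ℕ), k ≤ 2 * n → 2 * s ≤ k → b k ≤ a s := fun s k hk hs => by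
    have := Finset.single_le_sum (f := fun k : ℕ => b k * cl (k + 1 - 2 * s))
      (fun k _ => mul_nonneg (hbpos k).le (cl_nonneg _)) (Finset.mem_range.mpr (Nat.lt_succ_of_le hk))
    rwa [cl_one (by linarith), mul_one] at this
  have ha2 : ∀ (s : ℝ) (k : ℕ), (k : ℝ) ≤ 2 * s → a s ≤ (2 * n + 1) * b k := fun s k hs => by
    have : a s ≤ ∑ _m ∈ range (2 * n + 1), b k := by
      refine Finset.sum_le_sum fun m _ => ?_
      rcases lt_or_ge m k with h | h
      · have h' : (m : ℝ) + 1 ≤ k := by exact_mod_cast h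
        rw [cl_zero (by linarith), mul_zero]; exact (hbpos k).le
      · exact le_trans (mul_le_of_le_one_right (hbpos m).le (cl_le _)) (hanti h)
    simpa using this
  have hapos : ∀ r j, 0 < a (R r j) := fun r j =>
    lt_of_lt_of_le (hbpos _) (ha1 _ (2 * n) le_rfl (by push_cast; linarith [hRn r j]))
  have hS1 : ∀ r, 1 ≤ ∑ l, a (R r l) := fun r => by
    obtain ⟨j, -, hj⟩ := Finset.exists_max_image Finset.univ r Finset.univ_nonempty
    have h0 : R r j = 0 := Finset.sum_eq_zero fun l hl =>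
      cl_zero (div_nonpos_of_nonpos_of_nonneg (sub_nonpos.mpr (hj l hl)) ht.le)
    have h1 := ha1 (R r j) 0 (Nat.zero_le _) (by simp [h0])
    rw [hb0] at h1
    exact le_trans h1 (Finset.single_le_sum (fun l _ => (hapos r l).le) (Finset.mem_univ j))
  have hS2 : ∀ r, ∑ l, a (R r l) ≤ n * (2 * n + 1) := fun r => by
    have := Finset.sum_le_sum fun l (_ : l ∈ Finset.univ) =>
      ha2 (R r l) 0 (by push_cast; linarith [hR0 r l])
    rwa [hb0, mul_one, Finset.sum_const, Finset.card_univ, nsmul_eq_mul] at this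
  have hac : Continuous a := by rw [ha]; fun_prop
  have hRc : ∀ j, Continuous fun r => R r j := fun j => by simp only [hR]; fun_prop
  refine ⟨fun r j => a (R r j) / ∑ l, a (R r l), ?_, fun r => ⟨fun j => ?_, ?_⟩, fun r j => ?_,
    fun r j0 => ?_⟩
  · exact continuous_pi fun j => (hac.comp (hRc j)).div
      (continuous_finsetSum _ fun l _ => hac.comp (hRc l)) fun r => by linarith [hS1 r]
  · exact div_nonneg (hapos r j).le (by linarith [hS1 r])
  · rw [← Finset.sum_div, div_self (by linarith [hS1 r])]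
  · exact div_pos (hapos r j) (by linarith [hS1 r])
  · refine ⟨⌈2 * R r j0⌉₊, ?_, fun j hj => ?_⟩
    · refine div_le_div₀ (hapos r j0).le (ha1 _ _ ?_ (Nat.le_ceil _)) (by linarith [hS1 r]) (hS2 r)
      exact Nat.ceil_le.mpr (by push_cast; linarith [hRn r j0])
    · have h1 : R r j0 + 1 ≤ R r j := by
        have h2 : ∑ l, (cl ((r l - r j0) / t) + if l = j0 then 1 else 0) ≤ R r j := by
          refine Finset.sum_le_sum fun l _ => ?_
          split_ifs with h
          · rw [h, sub_self, zero_div, cl_zero le_rfl, cl_one, zero_add]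
            rw [le_div_iff₀ ht]; linarith
          · rw [add_zero]
            exact cl_mono (div_le_div_of_nonneg_right (by linarith) ht.le)
        simpa [Finset.sum_add_distrib] using h2
      have h3 := Nat.ceil_lt_add_one (by linarith [hR0 r j0] : 0 ≤ 2 * R r j0)
      refine le_trans (div_le_self (hapos r j).le (hS1 r)) (ha2 _ _ ?_)
      push_cast; linarith

theorem absorb [Nonempty I] [Nonempty J] (p G H : I → J → ℝ)
    (hG : ∀ i j, 0 ≤ G i j ∧ G i j ≤ p i j) (hH : ∀ i j, 0 ≤ H i j ∧ H i j ≤ p i j) :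
    ∃ x ∈ stdSimplex ℝ I, ∃ y ∈ stdSimplex ℝ J, ∃ v ∈ Set.Icc (0 : ℝ) 1, ∃ w ∈ Set.Icc (0 : ℝ) 1,
      (∀ i, ∑ j, y j * (G i j - v * p i j) ≤ 0) ∧ (∀ j, ∑ i, x i * (H i j - w * p i j) ≤ 0) ∧
      ∑ i, x i * ∑ j, y j * (G i j - v * p i j) = 0 ∧
      ∑ i, x i * ∑ j, y j * (H i j - w * p i j) = 0 ∧
      (0 < ∑ i, x i * ∑ j, y j * p i j ∨ (v = 0 ∧ w = 0)) := by
  classical
  have hp : ∀ i j, 0 ≤ p i j := fun i j => (hG i j).1.trans (hG i j).2
  set C : ℝ := Fintype.card J * (2 * Fintype.card J + 1) with hC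
  have hnpos : (0 : ℝ) < Fintype.card J := by exact_mod_cast Fintype.card_pos
  have hCpos : 0 < C := by positivity
  choose μ hμ hμs using exists_mu p G
  set b : ℕ → ℝ := fun k => Nat.rec 1 (fun _ c => min c (μ (c / C) / (2 * C))) k with hb
  have hbs : ∀ k, b (k + 1) = min (b k) (μ (b k / C) / (2 * C)) := fun k => rfl
  have hbpos : ∀ k, 0 < b k := fun k => by
    induction k with
    | zero => exact one_pos
    | succ k ih => rw [hbs]; exact lt_min ih (div_pos (hμ _) (by positivity))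
  have hanti : Antitone b := antitone_nat_of_succ_le fun k => by rw [hbs]; exact min_le_left _ _
  set t : ℕ → ℝ := fun n => 1 / ((n : ℝ) + 1) with ht
  have htpos : ∀ n, 0 < t n := fun n => by simp only [ht]; positivity
  choose Y hYc hYm hYpos hYr using fun n => exists_proper (J := J) b rfl hbpos hanti (t n) (htpos n)
  set r : ℕ → (I → ℝ) → J → ℝ := fun n x j => (∑ i, x i * H i j) / (t n + ∑ i, x i * p i j)
    with hr
  have hrc : ∀ n, ContinuousOn (r n) (stdSimplex ℝ I) := fun n =>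
    continuousOn_pi.mpr fun j => ContinuousOn.div (by fun_prop) (by fun_prop) fun x hx => by
      have := Finset.sum_nonneg fun i (_ : i ∈ Finset.univ) => mul_nonneg (hx.1 i) (hp i j)
      linarith [htpos n]
  set u : (J → ℝ) → I → ℝ := fun y i => (∑ j, y j * G i j) / ∑ j, y j * p i j with hu
  have hden : ∀ (y : J → ℝ) (i : I), (∀ j, 0 < y j) → (∀ j, p i j = 0) ∨ 0 < ∑ j, y j * p i j := by
    intro y i hy
    by_cases h : ∀ j, p i j = 0
    · exact Or.inl h
    · push Not at h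
      obtain ⟨j, hj⟩ := h
      exact Or.inr (lt_of_lt_of_le (mul_pos (hy j) ((hp i j).lt_of_ne' hj))
        (Finset.single_le_sum (fun j _ => mul_nonneg (hy j).le (hp i j)) (Finset.mem_univ j)))
  have huc : ∀ n, ContinuousOn (fun x => u (Y n (r n x))) (stdSimplex ℝ I) := fun n => by
    refine continuousOn_pi.mpr fun i => ?_
    have h1 : ∀ j, ContinuousOn (fun x => Y n (r n x) j) (stdSimplex ℝ I) := fun j =>
      ((continuous_apply j).comp (hYc n)).comp_continuousOn (hrc n)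
    by_cases h : ∀ j, p i j = 0
    · simp only [hu, h, mul_zero, Finset.sum_const_zero, div_zero]
      exact continuousOn_const
    · refine ContinuousOn.div (continuousOn_finsetSum _ fun j _ => (h1 j).mul continuousOn_const)
        (continuousOn_finsetSum _ fun j _ => (h1 j).mul continuousOn_const) fun x _ => ?_
      exact ((hden _ i (hYpos n _)).resolve_left h).ne'
  choose x hxm hxs using fun n => exists_argmax _ (huc n)
  -- the perturbed profiles satisfy player 1's conditions exactly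
  have hgain : ∀ (y : J → ℝ) (i : I) (w : ℝ), (∀ j, 0 < y j) →
      gain p G y w i = (u y i - w) * ∑ j, y j * p i j := by
    intro y i w hy
    have h1 : gain p G y w i = ∑ j, y j * G i j - w * ∑ j, y j * p i j := by
      simp only [gain, Finset.mul_sum, ← Finset.sum_sub_distrib]
      exact Finset.sum_congr rfl fun j _ => by ring
    rcases hden y i hy with h | h
    · have h2 : ∀ j, G i j = 0 := fun j => le_antisymm (h j ▸ (hG i j).2) (hG i j).1
      simp [h1, h, h2]
    · rw [h1, sub_mul, hu]; simp only []; rw [div_mul_cancel₀ _ h.ne']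
  have hu01 : ∀ (y : J → ℝ) (i : I), (∀ j, 0 < y j) → u y i ∈ Set.Icc (0 : ℝ) 1 := by
    intro y i hy
    have h1 := Finset.sum_nonneg fun j (_ : j ∈ Finset.univ) => mul_nonneg (hy j).le (hG i j).1
    have h2 := Finset.sum_le_sum fun j (_ : j ∈ Finset.univ) =>
      mul_le_mul_of_nonneg_left (hG i j).2 (hy j).le
    exact ⟨div_nonneg h1 (h1.trans h2), div_le_one_of_le₀ h2 (h1.trans h2)⟩
  have hsol : ∀ n i0, 0 < x n i0 → (∀ i, gain p G (Y n (r n (x n))) (u (Y n (r n (x n))) i0) i ≤ 0) ∧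
      ∀ i, 0 < x n i → gain p G (Y n (r n (x n))) (u (Y n (r n (x n))) i0) i = 0 := by
    intro n i0 h0
    refine ⟨fun i => ?_, fun i hi => ?_⟩
    · rw [hgain _ _ _ (hYpos n _)]
      exact mul_nonpos_of_nonpos_of_nonneg (sub_nonpos.mpr (hxs n i0 i h0))
        (Finset.sum_nonneg fun j _ => mul_nonneg (hYpos n _ j).le (hp i j))
    · rw [hgain _ _ _ (hYpos n _), le_antisymm (hxs n i0 i h0) (hxs n i i0 hi), sub_self, zero_mul]
  obtain ⟨z, hz, φ, hφ, hlim⟩ := (isCompact_stdSimplex ℝ I).tendsto_subseq hxm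
  have hli : ∀ i, Tendsto (fun n => x (φ n) i) atTop (𝓝 (z i)) := fun i =>
    ((continuous_apply i).tendsto z).comp hlim
  have hsupp : ∀ᶠ n in atTop, ∀ i, 0 < z i → 0 < x (φ n) i := by
    refine eventually_all.mpr fun i => ?_
    by_cases h : 0 < z i
    · filter_upwards [(hli i).eventually (lt_mem_nhds h)] with n hn _ using hn
    · exact Eventually.of_forall fun n h' => absurd h' h
  obtain ⟨i0, hi0⟩ : ∃ i, 0 < z i := by
    by_contra hc
    push Not at hc
    have := Finset.sum_nonpos fun k (_ : k ∈ Finset.univ) => hc k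
    rw [hz.2] at this; linarith
  have hP0 : ∀ j, 0 ≤ ∑ i, z i * p i j := fun j =>
    Finset.sum_nonneg fun i _ => mul_nonneg (hz.1 i) (hp i j)
  have hH0 : ∀ j, 0 ≤ ∑ i, z i * H i j := fun j =>
    Finset.sum_nonneg fun i _ => mul_nonneg (hz.1 i) (hH i j).1
  have hHP : ∀ j, ∑ i, z i * H i j ≤ ∑ i, z i * p i j := fun j =>
    Finset.sum_le_sum fun i _ => mul_le_mul_of_nonneg_left (hH i j).2 (hz.1 i)
  have hsplit : ∀ w j, ∑ i, z i * (H i j - w * p i j) = ∑ i, z i * H i j - w * ∑ i, z i * p i j := by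
    intro w j
    simp only [Finset.mul_sum, ← Finset.sum_sub_distrib]
    exact Finset.sum_congr rfl fun i _ => by ring
  have hswap : ∀ (y : J → ℝ) (F : I → J → ℝ),
      ∑ i, z i * ∑ j, y j * F i j = ∑ j, y j * ∑ i, z i * F i j := by
    intro y F
    simp only [Finset.mul_sum]
    rw [Finset.sum_comm]
    exact Finset.sum_congr rfl fun j _ => Finset.sum_congr rfl fun i _ => by ring
  have hfin : ∀ (y : J → ℝ) (v : ℝ), (∀ i, 0 < z i → gain p G y v i = 0) →
      ∑ i, z i * ∑ j, y j * (G i j - v * p i j) = 0 := by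
    intro y v h
    refine Finset.sum_eq_zero fun i _ => ?_
    rcases (hz.1 i).eq_or_lt with h0 | h0
    · rw [← h0, zero_mul]
    · exact mul_eq_zero_of_right _ (h i h0)
  by_cases hE : ∀ j, ∑ i, z i * p i j = 0
  · obtain ⟨n, hn⟩ := hsupp.exists
    have hrow : ∀ j, p i0 j = 0 := fun j => by
      have := (Finset.sum_eq_zero_iff_of_nonneg fun i _ => mul_nonneg (hz.1 i) (hp i j)).mp (hE j)
        i0 (Finset.mem_univ _)
      exact (mul_eq_zero.mp this).resolve_left hi0.ne'
    obtain ⟨h1, h2⟩ := hsol (φ n) i0 (hn i0 hi0)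
    have h3 : u (Y (φ n) (r (φ n) (x (φ n)))) i0 = 0 := by simp [hu, hrow]
    rw [h3] at h1 h2
    have h4 : ∀ j, ∑ i, z i * (H i j - 0 * p i j) = 0 := fun j => by
      rw [hsplit]; linarith [hH0 j, hHP j, hE j]
    refine ⟨z, hz, _, hYm (φ n) (r (φ n) (x (φ n))), 0, ⟨le_rfl, zero_le_one⟩, 0,
      ⟨le_rfl, zero_le_one⟩, h1, fun j => (h4 j).le, hfin _ _ fun i hi => h2 i (hn i hi), ?_,
      Or.inr ⟨rfl, rfl⟩⟩
    rw [hswap]
    exact Finset.sum_eq_zero fun j _ => mul_eq_zero_of_right _ (h4 j)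
  push Not at hE
  obtain ⟨j1, hj1⟩ := hE
  obtain ⟨j0, hj0, hmax⟩ := Finset.exists_max_image
    (Finset.univ.filter fun j => 0 < ∑ i, z i * p i j)
    (fun j => (∑ i, z i * H i j) / ∑ i, z i * p i j) ⟨j1, by simpa using (hP0 j1).lt_of_ne' hj1⟩
  have hj0' : 0 < ∑ i, z i * p i j0 := by simpa using hj0
  set w := (∑ i, z i * H i j0) / ∑ i, z i * p i j0 with hw
  have hle : ∀ j, ∑ i, z i * (H i j - w * p i j) ≤ 0 := fun j => by
    rw [hsplit]
    rcases (hP0 j).eq_or_lt with h0 | h0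
    · rw [← h0]; linarith [hHP j]
    · have := hmax j (by simpa using h0)
      rw [div_le_iff₀ h0] at this; linarith
  set E := Finset.univ.filter fun j => ∑ i, z i * (H i j - w * p i j) < 0 with hEdef
  have ht0 : Tendsto (fun n => t (φ n)) atTop (𝓝 0) :=
    tendsto_one_div_add_atTop_nhds_zero_nat.comp hφ.tendsto_atTop
  have hrl : ∀ j, 0 < ∑ i, z i * p i j → Tendsto (fun n => r (φ n) (x (φ n)) j) atTop
      (𝓝 ((∑ i, z i * H i j) / ∑ i, z i * p i j)) := fun j hj => by
    have h1 : Tendsto (fun n => t (φ n) + ∑ i, x (φ n) i * p i j) atTop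
        (𝓝 (0 + ∑ i, z i * p i j)) :=
      ht0.add (tendsto_finsetSum _ fun i _ => (hli i).mul_const _)
    rw [zero_add] at h1
    exact (tendsto_finsetSum _ fun i _ => (hli i).mul_const _).div h1 hj.ne'
  have hrank : ∀ᶠ n in atTop, ∀ j ∈ E, r (φ n) (x (φ n)) j + t (φ n) ≤ r (φ n) (x (φ n)) j0 := by
    refine (eventually_all_finset E).mpr fun j hj => ?_
    have h1 : ∑ i, z i * (H i j - w * p i j) < 0 := by simpa [hEdef] using hj
    rw [hsplit] at h1
    have h2 : 0 < ∑ i, z i * p i j := by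
      refine (hP0 j).lt_of_ne' fun h0 => ?_
      rw [h0] at h1; linarith [hH0 j]
    have h3 : (∑ i, z i * H i j) / ∑ i, z i * p i j + 0 < w := by
      rw [add_zero, div_lt_iff₀ h2]; linarith
    exact (((hrl j h2).add ht0).eventually_lt (hrl j0 hj0') h3).mono fun n hn => hn.le
  obtain ⟨n, hn1, hn2⟩ := (hsupp.and hrank).exists
  obtain ⟨k, hk1, hk2⟩ := hYr (φ n) (r (φ n) (x (φ n))) j0
  obtain ⟨h1, h2⟩ := hsol (φ n) i0 (hn1 i0 hi0)
  obtain ⟨⟨y, v⟩, ⟨hy, hv, hyj, hy1, hy2⟩, hyE⟩ := hμs (b k / C)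
    (Finset.univ.filter fun i => 0 < z i) E j0
    ⟨(Y (φ n) (r (φ n) (x (φ n))), u (Y (φ n) (r (φ n) (x (φ n)))) i0),
      ⟨hYm _ _, hu01 _ _ (hYpos _ _), hk1, h1, fun i hi => h2 i (hn1 i (by simpa using hi))⟩, by
      have h3 := Finset.sum_le_sum fun j (hj : j ∈ E) => hk2 j (hn2 j hj)
      rw [Finset.sum_const, nsmul_eq_mul] at h3
      have h4 : (E.card : ℝ) ≤ Fintype.card J := by exact_mod_cast Finset.card_le_univ E
      have h5 : b (k + 1) ≤ μ (b k / C) / (2 * C) := by rw [hbs]; exact min_le_right _ _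
      rw [le_div_iff₀ (by positivity)] at h5
      have h6 : (E.card : ℝ) * ((2 * Fintype.card J + 1) * b (k + 1)) ≤ C * b (k + 1) := by
        rw [hC, mul_assoc]
        exact mul_le_mul_of_nonneg_right h4 (by have := hbpos (k + 1); positivity)
      have h7 := mul_pos hCpos (hbpos (k + 1))
      simp only []
      linarith⟩
  refine ⟨z, hz, y, hy, v, hv, w, ⟨div_nonneg (hH0 j0) (hP0 j0),
    div_le_one_of_le₀ (hHP j0) (hP0 j0)⟩, hy1, hle,
    hfin _ _ fun i hi => hy2 i (by simpa using hi), ?_, Or.inl ?_⟩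
  · rw [hswap]
    refine Finset.sum_eq_zero fun j _ => ?_
    rcases (hle j).eq_or_lt with h0 | h0
    · exact mul_eq_zero_of_right _ h0
    · exact mul_eq_zero_of_left (hyE j (by simpa [hEdef] using h0)) _
  · rw [hswap]
    have h3 : 0 < y j0 := lt_of_lt_of_le (div_pos (hbpos k) hCpos) hyj
    exact lt_of_lt_of_le (mul_pos h3 hj0') (Finset.single_le_sum
      (f := fun j => y j * ∑ i, z i * p i j) (fun j _ => mul_nonneg (hy.1 j) (hP0 j))
      (Finset.mem_univ j0))

end Pool.Agent.P.MP_0c5457_lc
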