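import Mathlib

set_option autoImplicit false

/-! Distances, sinks and end components of the second player. -/

namespace Pool.Agent.P.MP_0c5457_lc

open Relation Classical

variable {S : Type}

lemma exists_dist (r : S → S → Prop) (Z : Set S) : ∃ d : S → ℕ, ∀ u,
    (∃ z ∈ Z, ReflTransGen r u z) → u ∉ Z →
      ∃ v, r u v ∧ (∃ z ∈ Z, ReflTransGen r v z) ∧ d v < d u := by
  obtain ⟨P, h0, hP⟩ : ∃ P : ℕ → S → Prop, (∀ s, P 0 s ↔ s ∈ Z) ∧
      ∀ n s, P (n + 1) s ↔ ∃ v, r s v ∧ P n v :=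
    ⟨fun n => Nat.rec (fun s => s ∈ Z) (fun _ p s => ∃ v, r s v ∧ p v) n,
      fun _ => Iff.rfl, fun _ _ => Iff.rfl⟩
  have a : ∀ u z, z ∈ Z → ReflTransGen r u z → ∃ n, P n u := fun u z hz h => by
    induction h using ReflTransGen.head_induction_on with
    | refl => exact ⟨0, (h0 _).2 hz⟩
    | head k _ ih =>
      obtain ⟨n, hn⟩ := ih
      exact ⟨n + 1, (hP _ _).2 ⟨_, k, hn⟩⟩
  have b : ∀ n u, P n u → ∃ z ∈ Z, ReflTransGen r u z := fun n => by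
    induction n with
    | zero => exact fun u h => ⟨u, (h0 _).1 h, .refl⟩
    | succ n ih =>
      intro u h
      obtain ⟨v, k, hv⟩ := (hP _ _).1 h
      obtain ⟨z, hz, k'⟩ := ih v hv
      exact ⟨z, hz, k'.head k⟩
  refine ⟨fun u => if h : ∃ n, P n u then Nat.find h else 0, fun u ⟨z, hz, h⟩ hu => ?_⟩
  have e := a u z hz h
  have k := Nat.find_spec e
  simp only [dif_pos e]
  generalize Nat.find e = n at k
  cases n with
  | zero => exact absurd ((h0 _).1 k) hu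
  | succ n =>
    obtain ⟨v, k1, k2⟩ := (hP _ _).1 k
    refine ⟨v, k1, b n v k2, ?_⟩
    rw [dif_pos ⟨n, k2⟩]
    exact Nat.lt_succ_of_le (Nat.find_le k2)

lemma exists_sink [Finite S] (r : S → S → Prop) {R : Set S} (hR : R.Nonempty)
    (hc : ∀ u ∈ R, ∀ v, r u v → v ∈ R) : ∃ K ⊆ R, K.Nonempty ∧ (∀ u ∈ K, ∀ v, r u v → v ∈ K) ∧
      ∀ u ∈ K, ∀ v ∈ K, ReflTransGen r u v := by
  obtain ⟨u0, h0, hm⟩ := Set.exists_min_image R (fun u => {v | ReflTransGen r u v}.ncard)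
    (Set.toFinite _) hR
  have hK : {v | ReflTransGen r u0 v} ⊆ R := fun v hv => by
    induction hv with
    | refl => exact h0
    | tail _ k ih => exact hc _ ih _ k
  refine ⟨_, hK, ⟨u0, .refl⟩, fun u hu v k => ReflTransGen.tail hu k, fun u hu v hv => ?_⟩
  have : {v | ReflTransGen r u v} = {v | ReflTransGen r u0 v} :=
    Set.eq_of_subset_of_ncard_le (fun w hw => ReflTransGen.trans hu hw) (hm u (hK hu))
  exact (this ▸ hv : v ∈ {v | ReflTransGen r u v})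

variable {A B : S → Type} (δ : ∀ s, A s → B s → S)

/-- the action `b` keeps the play in `D` -/
def Stay (D : Set S) (u : S) (b : B u) : Prop := ∀ a, δ u a b ∈ D

def ed (D : Set S) (u v : S) : Prop := ∃ b, Stay δ D u b ∧ ∃ a, δ u a b = v

/-- end components of the second player inside `U` -/
def EC (U D : Set S) : Prop :=
  D ⊆ U ∧ ∀ u ∈ D, (∃ b, Stay δ D u b) ∧ ∀ v ∈ D, ReflTransGen (ed δ D) u v

/-- the maximal end component of a state -/
def cls (U : Set S) (s : S) : Set S := ⋃₀ {D | EC δ U D ∧ s ∈ D}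

variable {δ} {U D : Set S}

lemma EC.sub (h : EC δ U D) {s : S} (hs : s ∈ D) : D ⊆ cls δ U s :=
  Set.subset_sUnion_of_mem ⟨h, hs⟩

lemma ec_cls (s : S) : EC δ U (cls δ U s) := by
  have m : ∀ D, EC δ U D → s ∈ D → ∀ u v, ReflTransGen (ed δ D) u v →
      ReflTransGen (ed δ (cls δ U s)) u v := fun D h hs u v k =>
    ReflTransGen.mono (r := ed δ D) (p := ed δ (cls δ U s))
      (fun _ _ ⟨b, k1, k2⟩ => ⟨b, fun a => h.sub hs (k1 a), k2⟩) u v k
  refine ⟨fun u ⟨D, h, hu⟩ => h.1.1 hu, fun u ⟨D, h, hu⟩ => ⟨?_, fun v ⟨D', h', hv⟩ => ?_⟩⟩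
  · obtain ⟨b, hb⟩ := (h.1.2 u hu).1
    exact ⟨b, fun a => h.1.sub h.2 (hb a)⟩
  · exact (m D h.1 h.2 _ _ ((h.1.2 u hu).2 s h.2)).trans
      (m D' h'.1 h'.2 _ _ ((h'.1.2 s h'.2).2 v hv))

lemma cls_eq {s u : S} (h : u ∈ cls δ U s) : cls δ U u = cls δ U s := by
  have k := (ec_cls (δ := δ) (U := U) s).sub h
  obtain ⟨D, h1, h2⟩ := h
  exact ((ec_cls u).sub (k (h1.1.sub h1.2 h1.2))).antisymm k

/-- staying actions that lead to a given state of an end component -/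
lemma EC.path [∀ s, Nonempty (B s)] (h : EC δ U D) {z : S} (hz : z ∈ D) : ∃ j : ∀ s, B s,
    (∀ s ∈ D, Stay δ D s (j s)) ∧ ∀ R : Set S,
      (∀ s ∈ R, s ∈ D → s ≠ z → ∀ a, δ s a (j s) ∈ R) → ∀ u ∈ R, u ∈ D → z ∈ R := by
  obtain ⟨d, hd⟩ := exists_dist (ed δ D) {z}
  have : ∀ s, ∃ b : B s, s ∈ D → Stay δ D s b ∧ (s ≠ z → ∃ a, d (δ s a b) < d s) := by
    intro s
    by_cases hs : s ∈ D
    · by_cases e : s = z
      · obtain ⟨b, hb⟩ := (h.2 s hs).1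
        exact ⟨b, fun _ => ⟨hb, fun k => absurd e k⟩⟩
      · obtain ⟨_, ⟨b, k1, a, rfl⟩, -, k2⟩ := hd s ⟨z, rfl, (h.2 s hs).2 z hz⟩ e
        exact ⟨b, fun _ => ⟨k1, fun _ => ⟨a, k2⟩⟩⟩
    · exact ⟨Classical.arbitrary _, fun k => absurd k hs⟩
  choose j hj using this
  refine ⟨j, fun s hs => (hj s hs).1, fun R hR u hu hD => ?_⟩
  induction hn : d u using Nat.strong_induction_on generalizing u with
  | _ n ih =>
  by_cases e : u = z
  · exact e ▸ hu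
  · obtain ⟨a, ha⟩ := (hj u hD).2 e
    exact ih _ (hn ▸ ha) _ (hR u hu hD e a) ((hj u hD).1 a) rfl

lemma ec_of_sink {K : Set S} (hU : K ⊆ U) {p : ∀ s, B s → Prop} (hp : ∀ s, ∃ b, p s b)
    (hc : ∀ u ∈ K, ∀ v, (∃ a b, p u b ∧ δ u a b = v) → v ∈ K)
    (hr : ∀ u ∈ K, ∀ v ∈ K, ReflTransGen (fun u v => ∃ a b, p u b ∧ δ u a b = v) u v) :
    EC δ U K := by
  refine ⟨hU, fun u hu => ⟨?_, fun v hv => ?_⟩⟩
  · obtain ⟨b, hb⟩ := hp u
    exact ⟨b, fun a => hc u hu _ ⟨a, b, hb, rfl⟩⟩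
  · have : ∀ v, ReflTransGen (fun u v => ∃ a b, p u b ∧ δ u a b = v) u v →
        v ∈ K ∧ ReflTransGen (ed δ K) u v := fun v k => by
      induction k with
      | refl => exact ⟨hu, .refl⟩
      | tail _ k ih =>
        obtain ⟨a, b, k1, k2⟩ := k
        exact ⟨hc _ ih.1 _ ⟨a, b, k1, k2⟩,
          ih.2.tail ⟨b, fun a' => hc _ ih.1 _ ⟨a', b, k1, rfl⟩, a, k2⟩⟩
    exact (this v (hr u hu v hv)).2

end Pool.Agent.P.MP_0c5457_lc
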