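import Pool.Agent.P.MP_0c5457_lc.Memory
import Pool.Agent.P.MP_0c5457_lc.Ec

set_option autoImplicit false

/-! Equilibria from labelled saddle points, from dead states and from paths through both targets. -/

namespace Pool.Agent.P.MP_0c5457_lc

open Finset Classical Relation

variable {S : Type} {A B : S → Type}

/-- `T` can be reached from `s` -/
def Rch (δ : ∀ s, A s → B s → S) (T : Set S) (s : S) : Prop :=
  ∃ t ∈ T, ReflTransGen (fun u v => ∃ a b, δ u a b = v) s t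

variable {δ : ∀ s, A s → B s → S} {T T₁ T₂ U : Set S}

lemma Rch.of_mem {s : S} (h : s ∈ T) : Rch δ T s := ⟨s, h, .refl⟩

lemma Rch.head {s : S} {a : A s} {b : B s} (h : Rch δ T (δ s a b)) : Rch δ T s :=
  let ⟨t, k, k'⟩ := h
  ⟨t, k, k'.head ⟨a, b, rfl⟩⟩

lemma exists_goto [∀ s, Nonempty (A s)] [∀ s, Nonempty (B s)] (δ : ∀ s, A s → B s → S)
    (Z : Set S) : ∃ (α : ∀ s, A s) (β : ∀ s, B s), ∀ P : S → Prop, (∀ z ∈ Z, P z) →
      (∀ u, u ∉ Z → P (δ u (α u) (β u)) → P u) → ∀ u, Rch δ Z u → P u := by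
  obtain ⟨d, hd⟩ := exists_dist (fun u v => ∃ a b, δ u a b = v) Z
  have : ∀ u, ∃ a b, Rch δ Z u → u ∉ Z → Rch δ Z (δ u a b) ∧ d (δ u a b) < d u := fun u => by
    by_cases h : Rch δ Z u ∧ u ∉ Z
    · obtain ⟨_, ⟨a, b, rfl⟩, k⟩ := hd u h.1 h.2
      exact ⟨a, b, fun _ _ => k⟩
    · exact ⟨Classical.arbitrary _, Classical.arbitrary _, fun k k' => absurd ⟨k, k'⟩ h⟩
  choose α β h using this
  refine ⟨α, β, fun P h0 h1 u hu => ?_⟩
  induction hn : d u using Nat.strong_induction_on generalizing u with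
  | _ n ih =>
  by_cases e : u ∈ Z
  · exact h0 u e
  · exact h1 u e (ih _ (hn ▸ (h u hu e).2) _ (h u hu e).1 rfl)

variable [∀ s, Fintype (A s)] [∀ s, Fintype (B s)]

lemma pay_tar {M : Type} {up : M → ∀ s, A s → B s → M} {σ : M → ∀ s, A s → ℝ}
    {τ : M → ∀ s, B s → ℝ} (hσ : Dist σ) (hτ : Dist τ) (m : M) {s : S} (h : s ∈ T) :
    1 ≤ pay up δ T σ τ m s :=
  le_trans (by simp [val, h]) (val_le_pay hσ hτ 0 m s)

omit [∀ s, Fintype (A s)] in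
lemma sup_lab {M : Type} {up : M → ∀ s, A s → B s → M} {τ : M → ∀ s, B s → ℝ} (hτ : Dist τ)
    {act : M → S → Prop} [∀ m s, Decidable (act m s)] {L W : M → S → ℝ} {r : S → Prop} (r0 : ∀ s ∈ T, r s)
    (r1 : ∀ s a b, r (δ s a b) → r s)
    (hW : ∀ m s, W m s = if act m s then L m s else if r s then 1 else 0)
    (h1 : ∀ m s, act m s → s ∉ T ∧ 0 ≤ L m s ∧
      ∀ a, ∑ b, τ m s b * W (up m s a b) (δ s a b) ≤ L m s)
    (h2 : ∀ m s a b, ¬act m s → ¬act (up m s a b) (δ s a b)) : Sup up δ T τ W := by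
  intro m s
  rw [hW m s]
  by_cases h : act m s
  · rw [if_pos h]
    exact ⟨(h1 m s h).2.1, fun k => absurd k (h1 m s h).1, fun _ => (h1 m s h).2.2⟩
  rw [if_neg h]
  refine ⟨by split_ifs <;> simp, fun k => by rw [if_pos (r0 s k)],
    fun _ a => avg1_le (hτ m s) fun b => ?_⟩
  rw [hW, if_neg (h2 m s a b h)]
  by_cases k : r (δ s a b)
  · rw [if_pos k, if_pos (r1 s a b k)]
  · rw [if_neg k]
    split_ifs <;> simp

theorem cert_of_labels (hU : ∀ s ∈ U, s ∉ T₁ ∧ s ∉ T₂) {Λ : S → Set ℝ} {X : ℝ → ∀ s, A s → ℝ}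
    {Y : ℝ → ∀ s, B s → ℝ} {n : ℝ → ∀ s, A s → B s → ℝ} (hX : Dist X) (hY : Dist Y)
    (hΛ : ∀ s ∈ U, Λ s ⊆ Set.Icc 0 1)
    (hn : ∀ s ∈ U, ∀ t ∈ Λ s, (∀ a b, (δ s a b ∈ U ∧ n t s a b ∈ Λ (δ s a b)) ∨
      (δ s a b ∈ T₁ ∧ ¬Rch δ T₂ (δ s a b) ∧ n t s a b = 1) ∨
      (δ s a b ∈ T₂ ∧ ¬Rch δ T₁ (δ s a b) ∧ n t s a b = 0)) ∧
      (∀ a, ∑ b, Y t s b * n t s a b ≤ t) ∧ ∀ b, t ≤ ∑ a, X t s a * n t s a b)
    {s₀ : S} {t₀ : ℝ} (h₀ : s₀ ∈ U) (ht₀ : t₀ ∈ Λ s₀)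
    (hq : ∀ q : ℝ → S → ℝ, (∀ t s, q t s ≤ 1) → (∀ t s, s ∈ T₁ ∨ s ∈ T₂ → q t s ≤ 0) →
      (∀ s ∈ U, ∀ t ∈ Λ s, q t s ≤ ∑ a, ∑ b, X t s a * Y t s b * q (n t s a b) (δ s a b)) →
      q t₀ s₀ ≤ 0) : Cert δ T₁ T₂ s₀ := by
  obtain ⟨up, hup⟩ : ∃ up : ℝ → ∀ s, A s → B s → ℝ, ∀ t s a b,
      up t s a b = if s ∈ U ∧ t ∈ Λ s then n t s a b else 2 := ⟨_, fun _ _ _ _ => rfl⟩
  obtain ⟨W₁, w1⟩ : ∃ W : ℝ → S → ℝ, ∀ t s, W t s = if s ∈ U ∧ t ∈ Λ s then t else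
      if Rch δ T₁ s then 1 else 0 := ⟨_, fun _ _ => rfl⟩
  obtain ⟨W₂, w2⟩ : ∃ W : ℝ → S → ℝ, ∀ t s, W t s = if s ∈ U ∧ t ∈ Λ s then 1 - t else
      if Rch δ T₂ s then 1 else 0 := ⟨_, fun _ _ => rfl⟩
  have na : ∀ t s a b, ¬(s ∈ U ∧ t ∈ Λ s) → ¬(δ s a b ∈ U ∧ up t s a b ∈ Λ (δ s a b)) :=
    fun t s a b h k => by
      rw [hup, if_neg h] at k
      linarith [(hΛ _ k.1 k.2).2]
  have ac : ∀ s ∈ U, ∀ t ∈ Λ s, ∀ a b, W₁ (up t s a b) (δ s a b) = n t s a b ∧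
      W₂ (up t s a b) (δ s a b) = 1 - n t s a b := fun s hs t ht a b => by
    rw [hup, if_pos ⟨hs, ht⟩, w1, w2]
    rcases (hn s hs t ht).1 a b with k | k | k
    · rw [if_pos k, if_pos k]
      exact ⟨rfl, rfl⟩
    · have : ¬(δ s a b ∈ U ∧ n t s a b ∈ Λ (δ s a b)) := fun h => (hU _ h.1).1 k.1
      rw [if_neg this, if_neg this, if_pos (Rch.of_mem k.1), if_neg k.2.1, k.2.2]
      simp
    · have : ¬(δ s a b ∈ U ∧ n t s a b ∈ Λ (δ s a b)) := fun h => (hU _ h.1).2 k.1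
      rw [if_neg this, if_neg this, if_pos (Rch.of_mem k.1), if_neg k.2.1, k.2.2]
      simp
  have s1 : Sup up δ T₁ Y W₁ := sup_lab hY (fun _ => Rch.of_mem) (fun _ _ _ => Rch.head) w1
    (fun t s h => ⟨(hU s h.1).1, (hΛ s h.1 h.2).1, fun a => by
      simp only [(ac s h.1 t h.2 a _).1]
      exact (hn s h.1 t h.2).2.1 a⟩) na
  have s2 : Sup (fun m s b a => up m s a b) (fun s b a => δ s a b) T₂ X W₂ :=
    sup_lab hX (fun _ => Rch.of_mem) (fun _ _ _ => Rch.head) w2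
      (fun t s h => ⟨(hU s h.1).2, sub_nonneg.2 (hΛ s h.1 h.2).2, fun b => by
        simp only [(ac s h.1 t h.2 _ b).2, mul_sub, Finset.sum_sub_distrib, mul_one, (hX t s).2]
        exact sub_le_sub_left ((hn s h.1 t h.2).2.2 b) _⟩) fun t s b a => na t s a b
  have p1 : pay up δ T₁ X Y t₀ s₀ ≤ W₁ t₀ s₀ :=
    ciSup_le fun k => val_le_sup (up' := up) id (fun _ _ _ _ => rfl) s1 hY hX k t₀ s₀
  have p2 : pay up δ T₂ X Y t₀ s₀ ≤ W₂ t₀ s₀ := ciSup_le fun k => by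
    rw [val_swap]
    exact val_le_sup (up' := fun m s b a => up m s a b) id (fun _ _ _ _ => rfl) s2 hX hY k t₀ s₀
  have := hq (fun t s => 1 - pay up δ T₁ X Y t s - pay up δ T₂ X Y t s) (fun t s => by
    linarith [pay_nonneg (up := up) (δ := δ) (T := T₁) hX hY t s,
      pay_nonneg (up := up) (δ := δ) (T := T₂) hX hY t s]) (fun t s h => ?_) fun s hs t ht => ?_
  · refine ⟨ℝ, up, t₀, X, Y, W₁, W₂, hX, hY, s1, s2, ?_, ?_⟩ <;>
      rw [w1, if_pos ⟨h₀, ht₀⟩] at p1 <;> rw [w2, if_pos ⟨h₀, ht₀⟩] at p2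
    · rw [w1, if_pos ⟨h₀, ht₀⟩]
      linarith
    · rw [w2, if_pos ⟨h₀, ht₀⟩]
      linarith
  · rcases h with h | h <;> linarith [pay_tar (up := up) (δ := δ) hX hY t h,
      pay_nonneg (up := up) (δ := δ) (T := T₁) hX hY t s,
      pay_nonneg (up := up) (δ := δ) (T := T₂) hX hY t s]
  · have k1 := pay_step (up := up) (δ := δ) hX hY t (hU s hs).1
    have k2 := pay_step (up := up) (δ := δ) hX hY t (hU s hs).2
    simp only [hup, if_pos (And.intro hs ht)] at k1 k2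
    simp only [mul_sub, Finset.sum_sub_distrib, avg_const (hX t s) (hY t s)]
    linarith

variable [∀ s, Nonempty (A s)] [∀ s, Nonempty (B s)]

theorem cert_dead {s : S} (h1 : ¬Rch δ T₁ s) (h2 : ¬Rch δ T₂ s) : Cert δ T₁ T₂ s := by
  have hσ : Dist (M := Unit) fun _ s a => if Classical.arbitrary (A s) = a then (1 : ℝ) else 0 :=
    fun _ s => pure_mem _
  have hτ : Dist (M := Unit) fun _ s b => if Classical.arbitrary (B s) = b then (1 : ℝ) else 0 :=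
    fun _ s => pure_mem _
  refine ⟨Unit, fun _ _ _ _ => (), (), _, _, fun _ s => if Rch δ T₁ s then 1 else 0,
    fun _ s => if Rch δ T₂ s then 1 else 0, hσ, hτ,
    sup_lab hτ (act := fun _ _ => False) (L := 0) (fun _ => Rch.of_mem) (fun _ _ _ => Rch.head)
      (by simp) (by simp) (by simp),
    sup_lab hσ (act := fun _ _ => False) (L := 0) (r := Rch δ T₂) (fun _ => Rch.of_mem)
      (fun _ _ _ => Rch.head) (by simp) (by simp) (by simp), ?_, ?_⟩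
  · simp only [if_neg h1]
    exact pay_nonneg hσ hτ _ _
  · simp only [if_neg h2]
    exact pay_nonneg hσ hτ _ _

theorem cert_one {s : S} (h : Rch δ {z | z ∈ T₁ ∧ Rch δ T₂ z} s) : Cert δ T₁ T₂ s := by
  generalize hZ : {z | z ∈ T₁ ∧ Rch δ T₂ z} = Z at h
  obtain ⟨α₁, β₁, g1⟩ := exists_goto δ Z
  obtain ⟨α₂, β₂, g2⟩ := exists_goto δ T₂
  obtain ⟨α, hα⟩ : ∃ α : Prop → ∀ s, A s, ∀ m s, α m s = if m ∨ s ∈ Z then α₂ s else α₁ s :=
    ⟨_, fun _ _ => rfl⟩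
  obtain ⟨β, hβ⟩ : ∃ β : Prop → ∀ s, B s, ∀ m s, β m s = if m ∨ s ∈ Z then β₂ s else β₁ s :=
    ⟨_, fun _ _ => rfl⟩
  have hσ : Dist fun m s a => if α m s = a then (1 : ℝ) else 0 := fun _ s => pure_mem _
  have hτ : Dist fun m s b => if β m s = b then (1 : ℝ) else 0 := fun _ s => pure_mem _
  obtain ⟨p, hp⟩ : ∃ p : Set S → Prop → S → ℝ, ∀ T, p T = pay (fun m s _ _ => m ∨ s ∈ Z) δ T
    (fun m s a => if α m s = a then (1 : ℝ) else 0) fun m s b => if β m s = b then 1 else 0 :=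
    ⟨_, fun _ => rfl⟩
  have st : ∀ T m u, 1 ≤ p T (m ∨ u ∈ Z) (δ u (α m u) (β m u)) → 1 ≤ p T m u := fun T m u k => by
    rw [hp] at k ⊢
    by_cases e : u ∈ T
    · exact pay_tar hσ hτ m e
    · refine k.trans (le_trans (le_of_eq ?_) (pay_step hσ hτ m e))
      simp [ite_mul, mul_ite]
  have c1 := g2 (fun u => ∀ m, m ∨ u ∈ Z → 1 ≤ p T₂ m u)
    (fun z hz m _ => hp T₂ ▸ pay_tar hσ hτ m hz) fun u _ ih m k => st _ _ _ (by
      rw [hα, hβ, if_pos k, if_pos k]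
      exact ih _ (Or.inl k))
  have c2 := g1 (fun u => ∀ m, ¬m → 1 ≤ p T₁ m u ∧ 1 ≤ p T₂ m u) (fun z hz m _ => by
      have k : z ∈ T₁ ∧ Rch δ T₂ z := by rwa [← hZ] at hz
      exact ⟨hp T₁ ▸ pay_tar hσ hτ m k.1, c1 z k.2 m (Or.inr hz)⟩)
    (fun u hu ih m k => by
      have e : ¬(m ∨ u ∈ Z) := not_or.2 ⟨k, hu⟩
      constructor <;> apply st <;> rw [hα, hβ, if_neg e, if_neg e]
      exacts [(ih _ e).1, (ih _ e).2]) s h False id
  simp only [hp] at c2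
  exact ⟨Prop, _, False, _, _, fun _ _ => 1, fun _ _ => 1, hσ, hτ,
    fun m s => ⟨zero_le_one, fun _ => le_rfl, fun _ _ => avg1_le (hτ m s) fun _ => le_rfl⟩,
    fun m s => ⟨zero_le_one, fun _ => le_rfl, fun _ _ => avg1_le (hσ m s) fun _ => le_rfl⟩,
    c2.1, c2.2⟩

end Pool.Agent.P.MP_0c5457_lc
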