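import Pool.Agent.P.MP_0c5457_lc.Mec
import Pool.Agent.P.MP_0c5457_lc.Label

set_option autoImplicit false

/-! Equilibria of games without dead ends. -/

namespace Pool.Agent.P.MP_0c5457_lc

open Finset Classical Filter Topology

variable {S : Type} {A B : S → Type} [∀ s, Fintype (A s)] [∀ s, Fintype (B s)]
  [∀ s, Nonempty (A s)] [∀ s, Nonempty (B s)] {δ : ∀ s, A s → B s → S} {T₁ T₂ U : Set S}

/-- the operator whose least fixed point gives the basic labels -/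
noncomputable def op (δ : ∀ s, A s → B s → S) (U T₁ : Set S) (g : S → ℝ) (s : S) : ℝ :=
  if s ∈ U then (if s ∈ cls δ U s then Tv δ g (cls δ U s) else vl fun a b => g (δ s a b))
  else if s ∈ T₁ then 1 else 0

theorem cert_live [Finite S] (hU : ∀ s ∈ U, s ∉ T₁ ∧ s ∉ T₂)
    (hcl : ∀ s ∈ U, ∀ a b, δ s a b ∈ U ∨ (δ s a b ∈ T₁ ∧ ¬Rch δ T₂ (δ s a b)) ∨
      (δ s a b ∈ T₂ ∧ ¬Rch δ T₁ (δ s a b)))
    (hx : ∀ D ⊆ U, D.Nonempty → ∃ s ∈ D, ∃ a b, δ s a b ∉ D) {s₀ : S} (h₀ : s₀ ∈ U) :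
    Cert δ T₁ T₂ s₀ := by
  have mono : Monotone (op δ U T₁) := fun g g' h s => by
    unfold op
    split_ifs
    exacts [Tv_mono h, vl_mono fun a b => h _, le_rfl, le_rfl]
  obtain ⟨g, fix, g0, g1, lst⟩ := exists_lfp (op δ U T₁) mono (fun s => by
    unfold op
    split_ifs
    exacts [Tv_nonneg le_rfl, (vl_const 0).ge, zero_le_one, le_rfl]) fun s => by
      unfold op
      split_ifs with h1 h2
      · obtain ⟨u, hu, a, b, k⟩ := hx _ (ec_cls s).1 ⟨s, h2⟩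
        exact Tv_le hu ⟨a, k⟩ fun _ _ => le_rfl
      exacts [(vl_const 1).le, le_rfl, zero_le_one]
  have me : ∀ {s u}, s ∈ cls δ U u → s ∈ cls δ U s := fun h => cls_eq h ▸ h
  have gM : ∀ u, ∀ s ∈ cls δ U u, g s = Tv δ g (cls δ U u) := fun u s hs => by
    rw [← congrFun fix s, op, if_pos ((ec_cls u).1 hs), if_pos (me hs), cls_eq hs]
  have gN : ∀ s ∈ U, s ∉ cls δ U s → g s = vl fun a b => g (δ s a b) := fun s hs k => by
    rw [← congrFun fix s, op, if_pos hs, if_neg k]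
  have : ∀ D, ∃ Λ z j, EC δ U D → D.Nonempty → Md δ g D Λ z j ∧ ∀ s ∈ D, ∃ X Y n,
      (∀ t, X t ∈ stdSimplex ℝ (A s) ∧ Y t ∈ stdSimplex ℝ (B s)) ∧ Lc δ g D Λ z j s X Y n := by
    intro D
    by_cases h : EC δ U D ∧ D.Nonempty
    · obtain ⟨Λ, z, j, k⟩ := exists_md h.1 (hx D h.1.1 h.2) g0 g1
      exact ⟨Λ, z, j, fun _ _ => k⟩
    · exact ⟨∅, s₀, fun _ => Classical.arbitrary _, fun k k' => absurd ⟨k, k'⟩ h⟩
  choose L z j hm using this
  have : ∀ s, ∃ (X : ℝ → A s → ℝ) (Y : ℝ → B s → ℝ) (n : ℝ → A s → B s → ℝ),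
      (∀ t, X t ∈ stdSimplex ℝ (A s) ∧ Y t ∈ stdSimplex ℝ (B s)) ∧ (s ∈ cls δ U s →
        Lc δ g (cls δ U s) (L (cls δ U s)) (z (cls δ U s)) (j (cls δ U s)) s X Y n) ∧
      (s ∈ U → s ∉ cls δ U s → ∀ t, (∀ a b, n t a b = g (δ s a b)) ∧
        (∀ a, ∑ b, Y t b * g (δ s a b) ≤ g s) ∧ (∀ b, g s ≤ ∑ a, X t a * g (δ s a b)) ∧
        ∀ a, 0 < X t a ∨ ∑ b, Y t b * g (δ s a b) < g s) := fun s => by
    by_cases h : s ∈ cls δ U s
    · obtain ⟨X, Y, n, k1, k2⟩ := (hm _ (ec_cls s) ⟨s, h⟩).2 s h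
      exact ⟨X, Y, n, k1, fun _ => k2, fun _ k => absurd h k⟩
    · obtain ⟨x, hx, y, hy, k⟩ := exists_saddle fun a b => g (δ s a b)
      exact ⟨fun _ => x, fun _ => y, fun _ a b => g (δ s a b), fun _ => ⟨hx, hy⟩,
        fun k => absurd k h, fun hs _ _ => ⟨fun _ _ => rfl, (gN s hs h).symm ▸ k⟩⟩
  choose X Y n hs hL hN using this
  have hX : Dist fun t s => X s t := fun t s => (hs s t).1
  have hY : Dist fun t s => Y s t := fun t s => (hs s t).2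
  have hM : ∀ {u}, u ∈ cls δ U u → Md δ g (cls δ U u) (L (cls δ U u)) (z (cls δ U u))
    (j (cls δ U u)) := fun h => (hm _ (ec_cls _) ⟨_, h⟩).1
  have hL' : ∀ u, ∀ s ∈ cls δ U u, Lc δ g (cls δ U u) (L (cls δ U u)) (z (cls δ U u))
    (j (cls δ U u)) s (X s) (Y s) (n s) := fun u s h => cls_eq h ▸ hL s (me h)
  obtain ⟨Λ, l1, l2⟩ : ∃ Λ : S → Set ℝ, (∀ u, ∀ s ∈ cls δ U u, Λ s = L (cls δ U u)) ∧
      ∀ s, s ∉ cls δ U s → Λ s = {g s} :=
    ⟨fun s => if s ∈ cls δ U s then L (cls δ U s) else {g s},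
      fun u s h => (if_pos (me h)).trans (by rw [cls_eq h]), fun s h => if_neg h⟩
  have gΛ : ∀ s, g s ∈ Λ s := fun s => by
    by_cases h : s ∈ cls δ U s
    · rw [l1 s s h, gM s s h]
      exact (hM h).2.1
    · rw [l2 s h]
      rfl
  have ex : ∀ s ∈ U, ∀ a b, ∀ x, x = g (δ s a b) → (δ s a b ∈ U ∧ x ∈ Λ (δ s a b)) ∨
      (δ s a b ∈ T₁ ∧ ¬Rch δ T₂ (δ s a b) ∧ x = 1) ∨
      (δ s a b ∈ T₂ ∧ ¬Rch δ T₁ (δ s a b) ∧ x = 0) := by
    rintro s hs a b _ rfl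
    refine (hcl s hs a b).imp (fun h => ⟨h, gΛ _⟩) (Or.imp (fun h => ⟨h.1, h.2, ?_⟩)
      fun h => ⟨h.1, h.2, ?_⟩)
    · rw [← congrFun fix _, op, if_neg fun k => (hU _ k).1 h.1, if_pos h.1]
    · rw [← congrFun fix _, op, if_neg fun k => (hU _ k).2 h.1, if_neg fun k => h.2 (.of_mem k)]
  have hn : ∀ s ∈ U, ∀ t ∈ Λ s, (∀ a b, (δ s a b ∈ U ∧ n s t a b ∈ Λ (δ s a b)) ∨
      (δ s a b ∈ T₁ ∧ ¬Rch δ T₂ (δ s a b) ∧ n s t a b = 1) ∨
      (δ s a b ∈ T₂ ∧ ¬Rch δ T₁ (δ s a b) ∧ n s t a b = 0)) ∧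
      (∀ a, ∑ b, Y s t b * n s t a b ≤ t) ∧ ∀ b, t ≤ ∑ a, X s t a * n s t a b := by
    intro s hs t ht
    by_cases h : s ∈ cls δ U s
    · have k := (hL s h).1 t (l1 s s h ▸ ht)
      refine ⟨fun a b => ?_, k.2.2⟩
      by_cases e : δ s a b ∈ cls δ U s
      · exact Or.inl ⟨(ec_cls s).1 e, l1 s _ e ▸ (k.2.1 a b).1 (not_not.2 e)⟩
      · exact ex s hs a b _ ((k.2.1 a b).2 e)
    · obtain rfl : t = g s := by rwa [l2 s h] at ht
      have k := hN s hs h (g s)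
      simp only [k.1]
      exact ⟨fun a b => ex s hs a b _ rfl, k.2.1, k.2.2.1⟩
  refine cert_of_labels hU (n := fun t s => n s t) hX hY (fun s _ t ht => ?_) hn h₀ (gΛ s₀)
    fun q q1 q2 q3 => not_lt.1 fun hq => ?_
  · by_cases h : s ∈ cls δ U s
    · exact (hM h).1 (l1 s s h ▸ ht)
    · obtain rfl : t = g s := by rwa [l2 s h] at ht
      exact ⟨g0 s, g1 s⟩
  obtain ⟨u0, hu0, hmax⟩ := Set.exists_max_image U (fun s => q (g s) s) (Set.toFinite _) ⟨s₀, h₀⟩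
  have M0 := hq.trans_le (hmax s₀ h₀)
  obtain ⟨M, hM0⟩ : ∃ M, M = q (g u0) u0 := ⟨_, rfl⟩
  simp only [← hM0] at hmax M0
  have B1 : ∀ s ∈ U, ∀ t ∈ Λ s, q t s ≤ M := fun s hs t ht => by
    by_cases h : s ∈ cls δ U s
    · refine md_kill (n := fun t s => n s t) (hM h) (hL' s) hX hY M0.le q1 (fun u hu a b _ => ?_)
        (fun u hu t ht => q3 u ((ec_cls s).1 hu) t (l1 s u hu ▸ ht)) s h t (l1 s s h ▸ ht)
      rcases hcl u ((ec_cls s).1 hu) a b with k | k | k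
      exacts [hmax _ k, (q2 _ _ (.inl k.1)).trans M0.le, (q2 _ _ (.inr k.1)).trans M0.le]
    · obtain rfl : t = g s := by rwa [l2 s h] at ht
      exact hmax s hs
  obtain ⟨R, hR⟩ : ∃ R : Set S, ∀ s, s ∈ R ↔ s ∈ U ∧ q (g s) s = M := ⟨_, fun _ => Iff.rfl⟩
  have cl : ∀ s ∈ R, ∀ a b, 0 < X s (g s) a → 0 < Y s (g s) b → n s (g s) a b = g (δ s a b) →
      δ s a b ∈ R := fun s hs a b ha hb e => by
    obtain ⟨k1, k2⟩ := (hR s).1 hs
    have := eq_of_avg (hX (g s) s) (hY (g s) s) (fun a b _ _ => ?_)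
      (k2.ge.trans (q3 s k1 _ (gΛ s))) ha hb
    · refine (hR _).2 ⟨not_not.1 fun k => ?_, e ▸ this⟩
      exact M0.not_ge (this.ge.trans (q2 _ _ (((hcl s k1 a b).resolve_left k).imp (·.1) (·.1))))
    · rcases (hn s k1 _ (gΛ s)).1 a b with k | k | k
      exacts [B1 _ k.1 _ k.2, (q2 _ _ (.inl k.1)).trans M0.le, (q2 _ _ (.inr k.1)).trans M0.le]
  obtain ⟨c0, hc0, cmax⟩ := Set.exists_max_image R g (Set.toFinite _) ⟨u0, (hR _).2 ⟨hu0, hM0.symm⟩⟩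
  have F1 : ∀ s ∈ R, g s = g c0 → s ∈ cls δ U s → ∃ u ∈ cls δ U s, ∃ b, (∃ a, δ u a b ∉ cls δ U s) ∧
      ∀ a, δ u a b ∉ cls δ U s → δ u a b ∈ R ∧ g (δ u a b) = g c0 := fun s hs e h => by
    obtain ⟨u, hu, b, k1, k2⟩ := md_exit (X := fun t s => X s t) (Y := fun t s => Y s t)
      (n := fun t s => n s t) (hM h) (hL' s) (gM s) (fun s hs _ => cl s hs) hs h
    have e' := e.symm.trans (gM s s h)
    exact ⟨u, hu, b, k1, fun a ha => ⟨k2 a ha,
      e' ▸ Tv_eq hu (exc0_nonpos fun a ha => e' ▸ cmax _ (k2 a ha)) a ha⟩⟩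
  rcases (g0 c0).eq_or_lt with c1 | c1
  · have z0 : ∀ s ∈ R, g s = g c0 := fun s hs => le_antisymm (cmax s hs) (c1.ge.trans (g0 s))
    obtain ⟨K, K1, ⟨u, hu⟩, K2, K3⟩ := exists_sink
      (fun u v => ∃ a b, 0 < Y u (g u) b ∧ δ u a b = v) ⟨c0, hc0⟩ (by
        rintro u hu _ ⟨a, b, hb, rfl⟩
        by_cases h : u ∈ cls δ U u
        · obtain ⟨v, hv, b', k1, k2⟩ := F1 u hu (z0 u hu) h
          have d := (hM h).2.2.1 ⟨v, hv, b', k1, fun a ha =>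
            (k2 a ha).2.trans ((z0 u hu).symm.trans (gM u u h))⟩
          have k := (hL u h).1 _ (l1 u u h ▸ gΛ u)
          refine cl u hu a b (k.1 a) hb ?_
          by_cases e : δ u a b ∈ cls δ U u
          · exact (d ((k.2.1 a b).1 (not_not.2 e))).trans (gM u _ e).symm
          · exact (k.2.1 a b).2 e
        · have k := hN u ((hR u).1 hu).1 h (g u)
          refine cl u hu a b ((k.2.2.2 a).resolve_right (not_lt.2 ?_)) hb (k.1 a b)
          exact ((z0 u hu).trans c1.symm).le.trans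
            (Finset.sum_nonneg fun b _ => mul_nonneg ((hY _ u).1 b) (g0 _)))
    have e := (ec_of_sink (fun s hs => ((hR s).1 (K1 hs)).1) (fun s => by
      by_contra! c
      exact (hY (g s) s).2.not_lt ((Finset.sum_nonpos fun b _ => c b).trans_lt one_pos))
      K2 K3).sub hu
    obtain ⟨v, -, b, ⟨a, ha⟩, k⟩ := md_exit (X := fun t s => X s t) (Y := fun t s => Y s t)
      (n := fun t s => n s t) (hM (e hu)) (hL' u) (gM u)
      (fun s hs _ a b _ hb _ => K2 s hs _ ⟨a, b, hb, rfl⟩) hu (e hu)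
    exact ha (e (k a ha))
  have ev : ∀ᶠ η in 𝓝 (0 : ℝ), ∀ p : Σ s, A s, ∑ b, Y p.1 (g p.1) b * g (δ p.1 p.2 b) < g p.1 →
      η < g p.1 - ∑ b, Y p.1 (g p.1) b * g (δ p.1 p.2 b) := eventually_all.2 fun p =>
    eventually_imp_distrib_left.2 fun h => eventually_lt_nhds (sub_pos.2 h)
  obtain ⟨η, ⟨e1, e2⟩, e3⟩ := (((ev.and (eventually_lt_nhds c1)).filter_mono
    nhdsWithin_le_nhds).and (self_mem_nhdsWithin (s := Set.Ioi 0))).exists
  obtain ⟨g', hg'⟩ : ∃ g' : S → ℝ, ∀ s, g' s = g s - if s ∈ R ∧ g s = g c0 then η else 0 :=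
    ⟨_, fun _ => rfl⟩
  have le : g' ≤ g := fun s => by
    rw [hg']
    split_ifs
    exacts [sub_le_self _ e3.le, (sub_zero _).le]
  have eq : ∀ s ∈ R, g s = g c0 → g' s = g c0 - η := fun s hs e => by rw [hg', if_pos ⟨hs, e⟩, e]
  have := lst g' (fun s => ?_) (fun s => ?_) c0
  · rw [eq c0 hc0 rfl] at this
    linarith [show 0 < η from e3]
  · rw [hg']
    split_ifs with h
    · exact sub_nonneg.2 (h.2 ▸ e2.le)
    · exact (g0 s).trans_eq (sub_zero _).symm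
  by_cases h : s ∈ R ∧ g s = g c0
  swap
  · rw [hg' s, if_neg h, sub_zero]
    exact (mono le s).trans_eq (congrFun fix s)
  have hs := ((hR s).1 h.1).1
  rw [eq s h.1 h.2, op, if_pos hs]
  split_ifs with m
  · obtain ⟨u, hu, b, k1, k2⟩ := F1 s h.1 h.2 m
    exact Tv_le hu k1 fun a ha => (eq _ (k2 a ha).1 (k2 a ha).2).le
  have k := hN s hs m (g s)
  refine vl_le (hY (g s) s) fun a => ?_
  rcases k.2.2.2 a with ha | ha
  · refine (Finset.sum_le_sum (g := fun b => Y s (g s) b * (g c0 - η)) fun b _ => ?_).trans_eq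
      (by rw [← Finset.sum_mul, (hY (g s) s).2, one_mul])
    dsimp only
    rcases ((hY (g s) s).1 b).eq_or_lt with hb | hb
    · rw [show Y s (g s) b = 0 from hb.symm, zero_mul, zero_mul]
    rw [eq _ (cl s h.1 a b ha hb (k.1 a b)) (eq_of_avg (f := fun a b => g (δ s a b)) (hX (g s) s)
      (hY (g s) s) (fun a b ha hb => cmax _ (cl s h.1 a b ha hb (k.1 a b))) ?_ ha hb)]
    rw [Finset.sum_comm, ← h.2]
    simp only [mul_comm (X s _ _), mul_assoc, ← Finset.mul_sum]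
    refine le_trans (by rw [← Finset.sum_mul, (hY (g s) s).2, one_mul])
      (Finset.sum_le_sum (f := fun b => Y s (g s) b * g s) fun b _ =>
        mul_le_mul_of_nonneg_left ?_ ((hY (g s) s).1 b))
    simpa only [mul_comm] using k.2.2.1 b
  · have k1 := e1 ⟨s, a⟩ ha
    have k2 : ∑ b, Y s (g s) b * g' (δ s a b) ≤ ∑ b, Y s (g s) b * g (δ s a b) :=
      Finset.sum_le_sum fun b _ => mul_le_mul_of_nonneg_left (le _) ((hY (g s) s).1 b)
    dsimp only at k1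
    linarith [h.2]

end Pool.Agent.P.MP_0c5457_lc
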