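import Pool.Agent.P.MP_0c5457_lc.Graph
import Pool.Agent.P.MP_0c5457_lc.Live

set_option autoImplicit false

/-! Induction over the strongly connected components from which a dead end can be reached. -/

namespace Pool.Agent.P.MP_0c5457_lc

open Relation Classical

variable {S : Type} {A B : S → Type} [∀ s, Fintype (A s)] [∀ s, Fintype (B s)]
  [Finite S] [∀ s, Nonempty (A s)] [∀ s, Nonempty (B s)]

theorem cert_safe (δ : ∀ s, A s → B s → S) (T₁ T₂ : Set S) (e : S → S → Prop)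
    (he : ∀ u v, e u v ↔ u ∉ T₁ ∪ T₂ ∧ v ∉ T₁ ∪ T₂ ∧ ∃ a b, δ u a b = v) {s : S}
    (h : s ∉ T₁ ∪ T₂ → Rch δ (T₁ ∪ T₂) s → ¬Rch δ {z | z ∈ T₁ ∧ Rch δ T₂ z} s →
      ¬Rch δ {z | z ∈ T₂ ∧ Rch δ T₁ z} s → ∀ d, ReflTransGen e s d → Rch δ (T₁ ∪ T₂) d) :
    Cert δ T₁ T₂ s := by
  by_cases h0 : s ∈ T₁ ∪ T₂
  · rcases h0 with hs | hs
    · exact cert_target δ T₁ T₂ hs
    · exact (cert_target (fun s b a => δ s a b) T₂ T₁ hs).swap
  by_cases h1 : Rch δ (T₁ ∪ T₂) s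
  swap
  · exact cert_dead (fun ⟨t, k, k'⟩ => h1 ⟨t, Or.inl k, k'⟩) fun ⟨t, k, k'⟩ => h1 ⟨t, Or.inr k, k'⟩
  by_cases h2 : Rch δ {z | z ∈ T₁ ∧ Rch δ T₂ z} s
  · exact cert_one h2
  have sw : ∀ T u, Rch δ T u → Rch (fun s b a => δ s a b) T u := fun T u ⟨t, k, k'⟩ =>
    ⟨t, k, ReflTransGen.mono (r := fun u v => ∃ a b, δ u a b = v)
      (fun _ _ ⟨a, b, m⟩ => ⟨b, a, m⟩) u t k'⟩
  by_cases h3 : Rch δ {z | z ∈ T₂ ∧ Rch δ T₁ z} s
  · obtain ⟨t, k, k'⟩ := h3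
    obtain ⟨_, rfl, k''⟩ := sw {t} s ⟨t, rfl, k'⟩
    exact (cert_one (δ := fun s b a => δ s a b) ⟨_, ⟨k.1, sw _ _ k.2⟩, k''⟩).swap
  have hU : ∀ u, ReflTransGen e s u → u ∉ T₁ ∪ T₂ ∧
      ReflTransGen (fun u v => ∃ a b, δ u a b = v) s u := fun u k => by
    induction k with
    | refl => exact ⟨h0, .refl⟩
    | tail _ k ih => exact ⟨((he _ _).1 k).2.1, ih.2.tail ((he _ _).1 k).2.2⟩
  refine cert_live (U := {u | ReflTransGen e s u}) (fun u hu => not_or.1 (hU u hu).1)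
    (fun u hu a b => ?_) (fun D hD ⟨u, hu⟩ => ?_) .refl
  · have k := (hU u hu).2.tail ⟨a, b, rfl⟩
    by_cases m : δ u a b ∈ T₁ ∪ T₂
    · exact Or.inr (m.imp (fun m => ⟨m, fun m' => h2 ⟨_, ⟨m, m'⟩, k⟩⟩)
        fun m => ⟨m, fun m' => h3 ⟨_, ⟨m, m'⟩, k⟩⟩)
    · exact Or.inl (ReflTransGen.tail hu ((he _ _).2 ⟨(hU u hu).1, m, a, b, rfl⟩))
  · obtain ⟨t, k, k'⟩ := h h0 h1 h2 h3 u (hD hu)
    by_contra! c
    refine (hU t (hD ?_)).1 k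
    clear k
    induction k' with
    | refl => exact hu
    | tail _ m ih =>
      obtain ⟨a, b, rfl⟩ := m
      exact c _ ih a b

theorem cert_all' (δ : ∀ s, A s → B s → S) (T₁ T₂ F : Set S) (e : S → S → Prop)
    (he : ∀ u v, e u v ↔ u ∉ T₁ ∪ T₂ ∧ v ∉ T₁ ∪ T₂ ∧ ∃ a b, δ u a b = v) (K : S → Prop)
    (hK : ∀ s, ¬K s → Cert δ T₁ T₂ s) (hT : ∀ s, K s → s ∉ T₁ ∪ T₂)
    (h₁ : ∀ s, K s → ¬TransGen (fun u v => (e u v ∧ K u ∧ K v) ∧ u ∉ F ∧ v ∉ F) s s)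
    (h₂ : ∀ f ∈ F, ∀ g ∈ F, TransGen (fun u v => e u v ∧ K u ∧ K v) f g →
      TransGen (fun u v => e u v ∧ K u ∧ K v) g f → f = g) (s₀ : S) :
    Cert δ T₁ T₂ s₀ := by
  obtain ⟨e', he'⟩ : ∃ e' : S → S → Prop, e' = fun u v => e u v ∧ K u ∧ K v := ⟨_, rfl⟩
  have ed : ∀ s a b, K s → K (δ s a b) → e' s (δ s a b) := fun s a b h h' =>
    he' ▸ ⟨(he _ _).2 ⟨hT _ h, hT _ h', a, b, rfl⟩, h, h'⟩
  replace h₁ : ∀ s, K s → ¬TransGen (fun u v => e' u v ∧ u ∉ F ∧ v ∉ F) s s := he' ▸ h₁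
  rw [← he'] at h₂
  set r : S → S → Prop := fun u v => e' u v ∧ u ∉ F ∧ v ∉ F with hr
  set rk : S → ℕ := fun s => if s ∈ F then Nat.card S + 1 else {u | ReflTransGen r s u}.ncard
    with hrk
  have hrk1 : ∀ s t, K s → e' s t → t ∉ F → rk t < rk s := by
    intro s t hk hst ht
    simp only [hrk, if_neg ht]
    split_ifs with hs
    · exact Nat.lt_succ_of_le (Set.ncard_le_card _)
    · exact ncard_lt_of_edge (TransGen.single ⟨hst, hs, ht⟩) fun h =>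
        h₁ s hk (TransGen.head' ⟨hst, hs, ht⟩ h)
  induction hn : {u | ReflTransGen e' s₀ u}.ncard using Nat.strong_induction_on
    generalizing s₀ with
  | _ n ih =>
  by_cases hs₀ : K s₀
  swap
  · exact hK _ hs₀
  set C : Set S := {u | K u ∧ ReflTransGen e' s₀ u ∧ ReflTransGen e' u s₀} with hC
  have hout : ∀ s ∈ C, ∀ a b, δ s a b ∉ C → Cert δ T₁ T₂ (δ s a b) := by
    intro s hs a b hn'
    by_cases ht : K (δ s a b)
    swap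
    · exact hK _ ht
    have hed := ed s a b hs.1 ht
    exact ih _ (hn ▸ ncard_lt_of_edge (TransGen.tail' hs.2.1 hed) fun h =>
      hn' ⟨ht, hs.2.1.tail hed, h⟩) _ rfl
  have huniq : ∀ f ∈ C, ∀ g ∈ C, f ∈ F → g ∈ F → f = g := by
    intro f hf g hg hfF hgF
    rcases (reflTransGen_iff_eq_or_transGen.mp (hf.2.2.trans hg.2.1)) with h | h
    · exact h.symm
    rcases (reflTransGen_iff_eq_or_transGen.mp (hg.2.2.trans hf.2.1)) with h' | h'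
    · exact h'
    exact h₂ f hfF g hgF h h'
  have hF : ∀ f ∈ C, f ∈ F → Cert δ T₁ T₂ f := by
    intro f hf hfF
    refine cert_hub (D := {d | d ∉ C ∧ Cert δ T₁ T₂ d}) (U := C) (rk := rk)
      (fun s hs h => hT _ hs.1 (Or.inl h)) (fun s hs h => hT _ hs.1 (Or.inr h)) hf
      (fun s hs a b => ?_) fun d => d.2.2
    by_cases h : δ s a b ∈ C
    · by_cases h' : δ s a b ∈ F
      · exact Or.inr (Or.inl (huniq _ h _ hf h' hfF))
      · exact Or.inr (Or.inr ⟨h, hrk1 _ _ hs.1 (ed s a b hs.1 h.1) h'⟩)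
    · exact Or.inl ⟨h, hout s hs a b h⟩
  refine cert_hub (D := {d | Cert δ T₁ T₂ d}) (U := C) (rk := rk)
    (fun s hs h => hT _ hs.1 (Or.inl h)) (fun s hs h => hT _ hs.1 (Or.inr h))
    ⟨hs₀, ReflTransGen.refl, ReflTransGen.refl⟩ (fun s hs a b => ?_) fun d => d.2
  by_cases h : δ s a b ∈ C
  · by_cases h' : δ s a b ∈ F
    · exact Or.inl (hF _ h h')
    · exact Or.inr (Or.inr ⟨h, hrk1 _ _ hs.1 (ed s a b hs.1 h.1) h'⟩)
  · exact Or.inl (hout s hs a b h)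

end Pool.Agent.P.MP_0c5457_lc
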