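import Mathlib
import Pool.Agent.P.MP_f7c28d_an.Brouwer

set_option autoImplicit false

/-! Fixed points on the standard simplex. -/

namespace Pool.Agent.P.MP_0c5457_lc

open Finset

variable {I : Type} [Fintype I] [Nonempty I]

lemma brouwer_simplex (f : (I → ℝ) → I → ℝ) (hf : ContinuousOn f (stdSimplex ℝ I))
    (hm : ∀ x ∈ stdSimplex ℝ I, f x ∈ stdSimplex ℝ I) : ∃ x ∈ stdSimplex ℝ I, f x = x := by
  classical
  have hn : (0 : ℝ) < Fintype.card I := by exact_mod_cast Fintype.card_pos
  set r : (I → ℝ) → I → ℝ := fun z i =>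
    (max (z i) 0 + max (1 - ∑ k, max (z k) 0) 0 / Fintype.card I) / max 1 (∑ k, max (z k) 0)
    with hr
  have hpos : ∀ z : I → ℝ, 0 < max 1 (∑ k, max (z k) 0) := fun z =>
    lt_of_lt_of_le one_pos (le_max_left _ _)
  have hrc : Continuous r := by
    refine continuous_pi fun i => Continuous.div (by fun_prop) (by fun_prop) fun z => (hpos z).ne'
  have hrm : ∀ z, r z ∈ stdSimplex ℝ I := by
    intro z
    refine ⟨fun i => div_nonneg (by positivity) (hpos z).le, ?_⟩
    simp only [hr]
    rw [← Finset.sum_div, Finset.sum_add_distrib, Finset.sum_const, Finset.card_univ,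
      nsmul_eq_mul, mul_div_cancel₀ _ hn.ne', div_eq_one_iff_eq (hpos z).ne']
    rcases le_total 1 (∑ k, max (z k) 0) with h | h
    · rw [max_eq_right (by linarith : 1 - ∑ k, max (z k) 0 ≤ 0), max_eq_right h, add_zero]
    · rw [max_eq_left (by linarith : 0 ≤ 1 - ∑ k, max (z k) 0), max_eq_left h]; ring
  have hrid : ∀ z ∈ stdSimplex ℝ I, r z = z := by
    intro z hz
    have h1 : ∑ k, max (z k) 0 = 1 := by
      rw [← hz.2]; exact Finset.sum_congr rfl fun k _ => max_eq_left (hz.1 k)
    funext i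
    simp only [hr, h1, max_eq_left (hz.1 i)]
    simp
  set G : EuclideanSpace ℝ I → EuclideanSpace ℝ I := fun z =>
    z - WithLp.toLp 2 (f (r z.ofLp)) with hG
  have hGc : Continuous G := by
    refine continuous_id.sub ((PiLp.continuous_toLp 2 _).comp ?_)
    exact hf.comp_continuous (hrc.comp (PiLp.continuous_ofLp 2 _)) fun z => hrm _
  obtain ⟨z, -, hz⟩ := Pool.Agent.P.MP_f7c28d_an.exists_zero 2 two_pos G hGc.continuousOn (by
    intro z hz
    have hmem := hm _ (hrm z.ofLp)
    have hnorm : ‖(WithLp.toLp 2 (f (r z.ofLp)) : EuclideanSpace ℝ I)‖ ≤ 1 := by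
      rw [EuclideanSpace.norm_eq, Real.sqrt_le_one, ← hmem.2]
      refine Finset.sum_le_sum fun i _ => ?_
      have h0 := hmem.1 i
      have h1 : f (r z.ofLp) i ≤ 1 := by
        rw [← hmem.2]; exact Finset.single_le_sum (fun k _ => hmem.1 k) (Finset.mem_univ i)
      simp only [Real.norm_eq_abs, sq_abs]
      nlinarith
    have h2 := real_inner_le_norm (WithLp.toLp 2 (f (r z.ofLp)) : EuclideanSpace ℝ I) z
    simp only [hG, inner_sub_left, real_inner_self_eq_norm_sq]
    rw [hz] at h2 ⊢
    nlinarith)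
  have hz' : z.ofLp = f (r z.ofLp) := by
    have := congrArg WithLp.ofLp (sub_eq_zero.mp hz)
    simpa using this
  have hzm : z.ofLp ∈ stdSimplex ℝ I := hz' ▸ hm _ (hrm _)
  refine ⟨z.ofLp, hzm, ?_⟩
  rw [hrid _ hzm] at hz'
  exact hz'.symm

lemma exists_argmax (u : (I → ℝ) → I → ℝ) (hu : ContinuousOn u (stdSimplex ℝ I)) :
    ∃ x ∈ stdSimplex ℝ I, ∀ i k, 0 < x i → u x k ≤ u x i := by
  classical
  set g : (I → ℝ) → I → ℝ := fun x i => max (u x i - ∑ k, x k * u x k) 0 with hg
  have hg0 : ∀ x i, 0 ≤ g x i := fun x i => le_max_right _ _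
  have hpos : ∀ x, 0 < 1 + ∑ k, g x k := fun x => by
    have := Finset.sum_nonneg fun k (_ : k ∈ Finset.univ) => hg0 x k
    linarith
  have hui : ∀ i, ContinuousOn (fun x => u x i) (stdSimplex ℝ I) := fun i =>
    (continuous_apply i).comp_continuousOn hu
  have hgc : ∀ i, ContinuousOn (fun x => g x i) (stdSimplex ℝ I) := fun i => by
    refine ContinuousOn.sup ((hui i).sub (continuousOn_finsetSum _ fun k _ => ?_))
      continuousOn_const
    exact (continuous_apply k).continuousOn.mul (hui k)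
  obtain ⟨x, hx, hfx⟩ := brouwer_simplex (fun x i => (x i + g x i) / (1 + ∑ k, g x k)) (by
    refine continuousOn_pi.mpr fun i => ContinuousOn.div
      ((continuous_apply i).continuousOn.add (hgc i))
      (continuousOn_const.add (continuousOn_finsetSum _ fun k _ => hgc k))
      fun x _ => (hpos x).ne') (by
    intro x hx
    refine ⟨fun i => div_nonneg (add_nonneg (hx.1 i) (hg0 x i)) (hpos x).le, ?_⟩
    rw [← Finset.sum_div, Finset.sum_add_distrib, hx.2, div_self (hpos x).ne'])
  set m := ∑ k, x k * u x k with hm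
  have hex : ∃ i, 0 < x i ∧ u x i ≤ m := by
    by_contra hcon
    push Not at hcon
    have h1 : ∑ k, x k * m < ∑ k, x k * u x k := by
      refine Finset.sum_lt_sum (fun k _ => ?_) ?_
      · rcases (hx.1 k).eq_or_lt with h | h
        · rw [← h]; simp
        · exact mul_le_mul_of_nonneg_left (hcon k h).le h.le
      · have : ∃ k, 0 < x k := by
          by_contra hc
          push Not at hc
          have := Finset.sum_nonpos fun k (_ : k ∈ Finset.univ) => hc k
          rw [hx.2] at this; linarith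
        obtain ⟨k, hk⟩ := this
        exact ⟨k, Finset.mem_univ _, mul_lt_mul_of_pos_left (hcon k hk) hk⟩
    rw [← Finset.sum_mul, hx.2, one_mul] at h1
    exact lt_irrefl _ h1
  obtain ⟨i, hi, hui'⟩ := hex
  have hgi : g x i = 0 := max_eq_right (by linarith)
  have h1 := congrFun hfx i
  simp only [hgi, add_zero] at h1
  rw [div_eq_iff (hpos x).ne'] at h1
  have hs : ∑ k, g x k = 0 := by nlinarith
  have hk : ∀ k, u x k ≤ m := fun k => by
    have h2 : g x k = 0 := (Finset.sum_eq_zero_iff_of_nonneg fun k _ => hg0 x k).mp hs k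
      (Finset.mem_univ _)
    have h3 : u x k - m ≤ g x k := le_max_left _ _
    linarith
  refine ⟨x, hx, fun j k hj => ?_⟩
  have h4 : ∑ k, x k * (m - u x k) = 0 := by
    simp only [mul_sub, Finset.sum_sub_distrib, ← Finset.sum_mul, hx.2, one_mul]
    exact sub_self _
  have h5 := (Finset.sum_eq_zero_iff_of_nonneg fun k _ =>
    mul_nonneg (hx.1 k) (sub_nonneg.mpr (hk k))).mp h4 j (Finset.mem_univ _)
  rcases mul_eq_zero.mp h5 with h | h
  · exact absurd h hj.ne'
  · linarith [hk k]

end Pool.Agent.P.MP_0c5457_lc
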