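import Pool.Agent.P.MP_0c5457_lc.Hub

set_option autoImplicit false

/-! Induction over the strongly connected components of the game graph. -/

namespace Pool.Agent.P.MP_0c5457_lc

open Relation Classical

variable {S : Type} {A B : S → Type} [∀ s, Fintype (A s)] [∀ s, Fintype (B s)]

lemma ncard_lt_of_edge [Finite S] {r : S → S → Prop} {s t : S} (hst : TransGen r s t)
    (hts : ¬ ReflTransGen r t s) :
    {u | ReflTransGen r t u}.ncard < {u | ReflTransGen r s u}.ncard :=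
  Set.ncard_lt_ncard ⟨fun _ hu => hst.to_reflTransGen.trans hu,
    fun h => hts (h ReflTransGen.refl)⟩

theorem cert_all [Finite S] [∀ s, Nonempty (A s)] [∀ s, Nonempty (B s)]
    (δ : ∀ s, A s → B s → S) (T₁ T₂ F : Set S) (e : S → S → Prop)
    (he : ∀ u v, e u v ↔ u ∉ T₁ ∪ T₂ ∧ v ∉ T₁ ∪ T₂ ∧ ∃ a b, δ u a b = v)
    (h₁ : ∀ s, ¬ TransGen (fun u v => e u v ∧ u ∉ F ∧ v ∉ F) s s)
    (h₂ : ∀ f ∈ F, ∀ g ∈ F, TransGen e f g → TransGen e g f → f = g) (s₀ : S) :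
    Cert δ T₁ T₂ s₀ := by
  have htar : ∀ s ∈ T₁ ∪ T₂, Cert δ T₁ T₂ s := by
    rintro s (hs | hs)
    · exact cert_target δ T₁ T₂ hs
    · exact (cert_target (fun s b a => δ s a b) T₂ T₁ hs).swap
  set r : S → S → Prop := fun u v => e u v ∧ u ∉ F ∧ v ∉ F with hr
  set rk : S → ℕ := fun s => if s ∈ F then Nat.card S + 1 else {u | ReflTransGen r s u}.ncard
    with hrk
  have hrk1 : ∀ s t, e s t → t ∉ F → rk t < rk s := by
    intro s t hst ht
    simp only [hrk, if_neg ht]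
    split_ifs with hs
    · exact Nat.lt_succ_of_le (Set.ncard_le_card _)
    · exact ncard_lt_of_edge (TransGen.single ⟨hst, hs, ht⟩) fun h =>
        h₁ s (TransGen.head' ⟨hst, hs, ht⟩ h)
  induction hn : {u | ReflTransGen e s₀ u}.ncard using Nat.strong_induction_on
    generalizing s₀ with
  | _ n ih =>
  by_cases hs₀ : s₀ ∈ T₁ ∪ T₂
  · exact htar _ hs₀
  set C : Set S := {u | u ∉ T₁ ∪ T₂ ∧ ReflTransGen e s₀ u ∧ ReflTransGen e u s₀} with hC
  have hout : ∀ s ∈ C, ∀ a b, δ s a b ∉ C → Cert δ T₁ T₂ (δ s a b) := by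
    intro s hs a b hn'
    by_cases ht : δ s a b ∈ T₁ ∪ T₂
    · exact htar _ ht
    have hed : e s (δ s a b) := (he _ _).mpr ⟨hs.1, ht, a, b, rfl⟩
    exact ih _ (hn ▸ ncard_lt_of_edge (TransGen.tail' hs.2.1 hed) fun h =>
      hn' ⟨ht, hs.2.1.tail hed, h⟩) _ rfl
  have huniq : ∀ f ∈ C, ∀ g ∈ C, f ∈ F → g ∈ F → f = g := by
    intro f hf g hg hfF hgF
    rcases (reflTransGen_iff_eq_or_transGen.mp (hf.2.2.trans hg.2.1)) with h | h
    · exact h.symm
    rcases (reflTransGen_iff_eq_or_transGen.mp (hg.2.2.trans hf.2.1)) with h' | h'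
    · exact h'
    exact h₂ f hfF g hgF h h'
  have hF : ∀ f ∈ C, f ∈ F → Cert δ T₁ T₂ f := by
    intro f hf hfF
    refine cert_hub (D := {d | d ∉ C ∧ Cert δ T₁ T₂ d}) (U := C) (rk := rk)
      (fun s hs h => hs.1 (Or.inl h)) (fun s hs h => hs.1 (Or.inr h)) hf (fun s hs a b => ?_)
      fun d => d.2.2
    by_cases h : δ s a b ∈ C
    · by_cases h' : δ s a b ∈ F
      · exact Or.inr (Or.inl (huniq _ h _ hf h' hfF))
      · exact Or.inr (Or.inr ⟨h, hrk1 _ _ ((he _ _).mpr ⟨hs.1, h.1, a, b, rfl⟩) h'⟩)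
    · exact Or.inl ⟨h, hout s hs a b h⟩
  refine cert_hub (D := {d | Cert δ T₁ T₂ d}) (U := C) (rk := rk)
    (fun s hs h => hs.1 (Or.inl h)) (fun s hs h => hs.1 (Or.inr h))
    ⟨hs₀, ReflTransGen.refl, ReflTransGen.refl⟩ (fun s hs a b => ?_) fun d => d.2
  by_cases h : δ s a b ∈ C
  · by_cases h' : δ s a b ∈ F
    · exact Or.inl (hF _ h h')
    · exact Or.inr (Or.inr ⟨h, hrk1 _ _ ((he _ _).mpr ⟨hs.1, h.1, a, b, rfl⟩) h'⟩)
  · exact Or.inl (hout s hs a b h)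

end Pool.Agent.P.MP_0c5457_lc
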