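import Pool.Agent.P.MP_0c5457_lc.Kuhn
import Pool.Agent.P.MP_0c5457_lc.Absorb

set_option autoImplicit false

/-! The hub step: an equilibrium from a state through which all unsolved cycles pass. -/

namespace Pool.Agent.P.MP_0c5457_lc

open Finset Classical

variable {S : Type} {A B : S → Type} [∀ s, Fintype (A s)] [∀ s, Fintype (B s)] {E : Type}

noncomputable def glue (mk : ∀ s, A s → B s → E) (δ : ∀ s, A s → B s → S) (D : Set S) (s₀ : S)
    {M : D → Type} (up : ∀ d, M d → ∀ s, A s → B s → M d) (m₀ : ∀ d, M d) :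
    List E ⊕ (Σ d, M d) → ∀ s, A s → B s → List E ⊕ (Σ d, M d)
  | Sum.inl h, s, a, b => if hd : δ s a b ∈ D then Sum.inr ⟨⟨_, hd⟩, m₀ _⟩ else
      if δ s a b = s₀ then Sum.inl [] else Sum.inl (mk s a b :: h)
  | Sum.inr x, s, a, b => Sum.inr ⟨x.1, up x.1 x.2 s a b⟩

def gs {D : Set S} {M : D → Type} (σ : List E → ∀ s, A s → ℝ) (ρ : ∀ d, M d → ∀ s, A s → ℝ) :
    List E ⊕ (Σ d, M d) → ∀ s, A s → ℝ
  | Sum.inl h => σ h
  | Sum.inr x => ρ x.1 x.2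

noncomputable def cf {D : Set S} (c : D → ℝ) (w : ℝ) (s : S) : ℝ :=
  if h : s ∈ D then c ⟨s, h⟩ else w

lemma gs_dist {D : Set S} {M : D → Type} {σ : List E → ∀ s, A s → ℝ}
    {ρ : ∀ d, M d → ∀ s, A s → ℝ} (hσ : Dist σ) (hρ : ∀ d, Dist (ρ d)) : Dist (gs σ ρ)
  | Sum.inl h, s => hσ h s
  | Sum.inr x, s => hρ x.1 x.2 s

lemma cf_mem {D : Set S} {c : D → ℝ} {w : ℝ} (hc : ∀ d, 0 ≤ c d ∧ c d ≤ 1)
    (hw : w ∈ Set.Icc (0 : ℝ) 1) (s : S) : 0 ≤ cf c w s ∧ cf c w s ≤ 1 := by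
  unfold cf
  split_ifs
  exacts [hc _, hw]

section
variable {mk : ∀ s, A s → B s → E} {δ : ∀ s, A s → B s → S} {D U T : Set S} {s₀ : S}
  {rk : S → ℕ} {M : D → Type} {up : ∀ d, M d → ∀ s, A s → B s → M d} {m₀ : ∀ d, M d}

omit [∀ s, Fintype (A s)] [∀ s, Fintype (B s)] in
lemma glue_swap : (fun m s b a => glue mk δ D s₀ up m₀ m s a b) =
    glue (fun s b a => mk s a b) (fun s b a => δ s a b) D s₀ (fun d m s b a => up d m s a b) m₀ := by
  funext m s b a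
  cases m <;> rfl

lemma glue_sup [∀ s, Nonempty (A s)] (hU : ∀ s ∈ U, s ∉ T) (h₀ : s₀ ∈ U)
    (hstep : ∀ s ∈ U, ∀ a b, δ s a b ∈ D ∨ δ s a b = s₀ ∨ (δ s a b ∈ U ∧ rk (δ s a b) < rk s))
    {τ : List E → ∀ s, B s → ℝ} {ρ : ∀ d, M d → ∀ s, B s → ℝ} (hτ : Dist τ)
    {W : ∀ d, M d → S → ℝ} (hW : ∀ d, Sup (up d) δ T (ρ d) (W d)) (hW1 : ∀ d, W d (m₀ d) d ≤ 1)
    {w : ℝ} (hw : w ∈ Set.Icc (0 : ℝ) 1)
    (hb : best mk δ (fun s => s ∈ D ∨ s = s₀) (cf (fun d => W d (m₀ d) d) w) τ (rk s₀ + 1) [] s₀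
      ≤ w) :
    ∃ V, Sup (glue mk δ D s₀ up m₀) δ T (gs τ ρ) V ∧ V (Sum.inl []) s₀ = w := by
  have hc := cf_mem (c := fun d => W d (m₀ d) d) (fun d => ⟨(hW d _ _).1, hW1 d⟩) hw
  set c := cf (fun d => W d (m₀ d) d) w with hcdef
  set V : List E ⊕ (Σ d, M d) → S → ℝ := Sum.elim (fun h s => if h = [] ∧ s = s₀ then w else
    if s ∈ U ∧ rk s + h.length ≤ rk s₀ then
      best mk δ (fun s => s ∈ D ∨ s = s₀) c τ (rk s₀ - h.length + 1) h s else 1)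
    fun x => W x.1 x.2 with hV
  have hV01 : ∀ h s, 0 ≤ V (Sum.inl h) s ∧ V (Sum.inl h) s ≤ 1 := fun h s => by
    simp only [hV, Sum.elim_inl]
    split_ifs
    exacts [hw, best_mem hτ hc _ _ _, ⟨zero_le_one, le_rfl⟩]
  have hnext : ∀ h s a b, V (glue mk δ D s₀ up m₀ (Sum.inl h) s a b) (δ s a b) ≤ 1 := by
    intro h s a b
    simp only [glue]
    split_ifs
    exacts [hW1 _, (hV01 _ _).2, (hV01 _ _).2]
  have hmain : ∀ h s a, s ∈ U → rk s + h.length ≤ rk s₀ →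
      ∑ b, τ h s b * V (glue mk δ D s₀ up m₀ (Sum.inl h) s a b) (δ s a b) ≤
        best mk δ (fun s => s ∈ D ∨ s = s₀) c τ (rk s₀ - h.length + 1) h s := by
    intro h s a hs hk
    rw [best]
    refine Finset.le_sup'_of_le _ (Finset.mem_univ a)
      (le_of_eq (Finset.sum_congr rfl fun b _ => ?_))
    congr 1
    by_cases h1 : δ s a b ∈ D
    · simp [glue, h1, hV, hcdef, cf]
    by_cases h2 : δ s a b = s₀
    · have h3 : s₀ ∉ D := h2 ▸ h1
      simp [glue, h2, h3, hV, hcdef, cf]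
    obtain ⟨h3, h4⟩ := ((hstep s hs a b).resolve_left h1).resolve_left h2
    have h5 : rk (δ s a b) + (h.length + 1) ≤ rk s₀ := by omega
    have h6 : rk s₀ - (h.length + 1) + 1 = rk s₀ - h.length := by omega
    simp [glue, h1, h2, h3, h5, h6, hV]
  refine ⟨V, ?_, by simp [hV]⟩
  rintro (h | x) s
  · refine ⟨(hV01 h s).1, fun hs => ?_, fun _ a => ?_⟩
    · have h1 : s ∉ U := fun h => hU s h hs
      have h2 : s ≠ s₀ := fun h => h1 (h ▸ h₀)
      simp [hV, h1, h2]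
    · by_cases h1 : h = [] ∧ s = s₀
      · obtain ⟨rfl, rfl⟩ := h1
        refine (hmain [] s a h₀ (by simp)).trans ?_
        simpa [hV] using hb
      by_cases h2 : s ∈ U ∧ rk s + h.length ≤ rk s₀
      · refine (hmain h s a h2.1 h2.2).trans (le_of_eq ?_)
        simp only [hV, Sum.elim_inl, if_neg h1, if_pos h2]
      · refine (avg1_le (hτ h s) fun b => hnext h s a b).trans (le_of_eq ?_)
        simp only [hV, Sum.elim_inl, if_neg h1, if_neg h2]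
  · exact hW x.1 x.2 s

lemma glue_pay (hU : ∀ s ∈ U, s ∉ T)
    (hstep : ∀ s ∈ U, ∀ a b, δ s a b ∈ D ∨ δ s a b = s₀ ∨ (δ s a b ∈ U ∧ rk (δ s a b) < rk s))
    {σ : List E → ∀ s, A s → ℝ} {τ : List E → ∀ s, B s → ℝ} {π : ∀ d, M d → ∀ s, A s → ℝ}
    {ρ : ∀ d, M d → ∀ s, B s → ℝ} (hσ : Dist σ) (hτ : Dist τ) (hπ : ∀ d, Dist (π d))
    (hρ : ∀ d, Dist (ρ d)) {c : D → ℝ} (hc : ∀ d, c d ≤ pay (up d) δ T (π d) (ρ d) (m₀ d) d)
    (k : ℕ) (h : List E) (s : S) (hs : s ∈ U) :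
    exc mk δ (fun s => s ∈ D ∨ s = s₀)
      (cf c (pay (glue mk δ D s₀ up m₀) δ T (gs σ π) (gs τ ρ) (Sum.inl []) s₀)) σ τ k h s ≤
      pay (glue mk δ D s₀ up m₀) δ T (gs σ π) (gs τ ρ) (Sum.inl h) s := by
  induction k generalizing h s with
  | zero => exact pay_nonneg (gs_dist hσ hπ) (gs_dist hτ hρ) _ _
  | succ k ih =>
    refine le_trans ?_ (pay_step (gs_dist hσ hπ) (gs_dist hτ hρ) _ (hU s hs))
    rw [exc]
    refine avg_le (hσ h s) (hτ h s) fun a b => ?_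
    by_cases h1 : δ s a b ∈ D
    · simp only [glue, h1, true_or, if_true, dif_pos, cf]
      refine (hc _).trans (le_of_eq (iSup_congr fun n => ?_))
      exact val_sim (up := glue mk δ D s₀ up m₀) (σ := gs σ π) (τ := gs τ ρ)
        (fun m => Sum.inr ⟨⟨_, h1⟩, m⟩) (fun _ _ _ _ => rfl) n _ _
    by_cases h2 : δ s a b = s₀
    · have h3 : s₀ ∉ D := h2 ▸ h1
      simp [glue, h2, h3, cf]
    simp only [glue, h1, h2, or_self, if_false, dif_neg, not_false_eq_true]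
    exact ih _ _ (((hstep s hs a b).resolve_left h1).resolve_left h2).1

end

theorem cert_hub [Finite S] [∀ s, Nonempty (A s)] [∀ s, Nonempty (B s)]
    {δ : ∀ s, A s → B s → S} {T₁ T₂ D U : Set S} {s₀ : S} {rk : S → ℕ}
    (hU₁ : ∀ s ∈ U, s ∉ T₁) (hU₂ : ∀ s ∈ U, s ∉ T₂) (h₀ : s₀ ∈ U)
    (hstep : ∀ s ∈ U, ∀ a b, δ s a b ∈ D ∨ δ s a b = s₀ ∨ (δ s a b ∈ U ∧ rk (δ s a b) < rk s))
    (hD : ∀ d : D, Cert δ T₁ T₂ d) : Cert δ T₁ T₂ s₀ := by
  choose M up m₀ π ρ W₁ W₂ hπ hρ hW₁ hW₂ hp₁ hp₂ using hD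
  set K := rk s₀ + 1 with hK
  set mk : ∀ s, A s → B s → (Σ s, A s × B s) := fun s a b => ⟨s, a, b⟩ with hmk
  set stop : S → Prop := fun s => s ∈ D ∨ s = s₀ with hstop
  have : Finite {l : List (Σ s, A s × B s) // l.length ≤ K} := List.finite_length_le _ K
  let _ : Fintype ({l : List (Σ s, A s × B s) // l.length ≤ K} → ∀ s, A s) := Fintype.ofFinite _
  let _ : Fintype ({l : List (Σ s, A s × B s) // l.length ≤ K} → ∀ s, B s) := Fintype.ofFinite _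
  set X : (S → ℝ) → ({l : List (Σ s, A s × B s) // l.length ≤ K} → ∀ s, A s) →
      ({l : List (Σ s, A s × B s) // l.length ≤ K} → ∀ s, B s) → ℝ :=
    fun c i j => exc mk δ stop c (pur (ext K i)) (pur (ext K j)) K [] s₀ with hX
  have hcf : ∀ (c : D → ℝ) (w : ℝ), cf c w = fun s => cf c 0 s + w * cf (D := D) (fun _ => 0) 1 s := by
    intro c w
    funext s
    unfold cf
    split_ifs <;> simp
  have hlin : ∀ (c : D → ℝ) (w : ℝ) i j,
      X (cf c w) i j = X (cf c 0) i j + w * X (cf (D := D) (fun _ => 0) 1) i j := by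
    intro c w i j
    simp only [hX]
    rw [hcf c w, exc_lin]
  have hG : ∀ c : D → ℝ, (∀ d, 0 ≤ c d ∧ c d ≤ 1) → ∀ i j, 0 ≤ X (cf c 0) i j ∧
      X (cf c 0) i j ≤ 1 - X (cf (D := D) (fun _ => 0) 1) i j := by
    intro c hc i j
    refine ⟨(exc_mem (pur_dist _) (pur_dist _) (cf_mem hc ⟨le_rfl, zero_le_one⟩) _ _ _).1, ?_⟩
    have h1 : X (cf c 1) i j ≤ 1 :=
      (exc_mem (pur_dist _) (pur_dist _) (cf_mem hc ⟨zero_le_one, le_rfl⟩) _ _ _).2
    rw [hlin] at h1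
    linarith
  have hc₁ : ∀ d, W₁ d (m₀ d) d ≤ 1 := fun d => (hp₁ d).trans (pay_le_one (hπ d) (hρ d) _ _)
  have hc₂ : ∀ d, W₂ d (m₀ d) d ≤ 1 := fun d => (hp₂ d).trans (pay_le_one (hπ d) (hρ d) _ _)
  obtain ⟨x, hx, y, hy, v, hv, w, hw, h1, h2, h3, h4, h5⟩ :=
    absorb (fun i j => 1 - X (cf (D := D) (fun _ => 0) 1) i j)
      (X (cf (fun d => W₁ d (m₀ d) d) 0)) (X (cf (fun d => W₂ d (m₀ d) d) 0))
      (hG _ fun d => ⟨(hW₁ d _ _).1, hc₁ d⟩) (hG _ fun d => ⟨(hW₂ d _ _).1, hc₂ d⟩)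
  obtain ⟨τ, hτ, hkτ⟩ := kuhn (mk := mk) (δ := δ) (stop := stop)
    (fun e => ⟨e.1, e.2.2⟩) (fun _ _ _ => rfl) (fun j => ext K j) hy
  obtain ⟨σ, hσ, hkσ⟩ := kuhn (mk := fun s b a => mk s a b) (δ := fun s b a => δ s a b)
    (stop := stop) (fun e => ⟨e.1, e.2.1⟩) (fun _ _ _ => rfl) (fun i => ext K i) hx
  have hboth : ∀ c, exc mk δ stop c σ τ K [] s₀ = ∑ i, x i * ∑ j, y j * X c i j := by
    intro c
    rw [exc_swap, hkσ]
    refine Finset.sum_congr rfl fun i _ => ?_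
    rw [← exc_swap, hkτ]
  have hshift : ∀ {J : Type} [Fintype J] {y : J → ℝ}, y ∈ stdSimplex ℝ J → ∀ (f : J → ℝ) (w : ℝ),
      ∑ j, y j * (f j + w) = ∑ j, y j * f j + w := by
    intro J _ y hy f w
    simp only [mul_add, Finset.sum_add_distrib, ← Finset.sum_mul, hy.2, one_mul]
  obtain ⟨V₁, hV₁, hv₁⟩ := glue_sup (mk := mk) (m₀ := m₀) hU₁ h₀ hstep hτ hW₁ hc₁ hv (by
    obtain ⟨i, hi⟩ := exists_best (mk := mk) (δ := δ) (stop := stop)
      (c := cf (fun d => W₁ d (m₀ d) d) v) (τ := τ) K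
    rw [hi K [] s₀ (by simp), hkτ]
    have h6 := hshift hy (fun j => X (cf (fun d => W₁ d (m₀ d) d) 0) i j -
      v * (1 - X (cf (D := D) (fun _ => 0) 1) i j)) v
    refine le_trans (le_of_eq ((Finset.sum_congr rfl fun j _ => ?_).trans h6)) (by linarith [h1 i])
    rw [show exc mk δ stop _ _ _ K [] s₀ = _ from hlin _ v i j]
    ring)
  obtain ⟨V₂, hV₂, hv₂⟩ := glue_sup (mk := fun s b a => mk s a b) (δ := fun s b a => δ s a b)
    (up := fun d m s b a => up d m s a b) (m₀ := m₀) hU₂ h₀ (fun s hs b a => hstep s hs a b)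
    hσ hW₂ hc₂ hw (by
    obtain ⟨j, hj⟩ := exists_best (mk := fun s b a => mk s a b) (δ := fun s b a => δ s a b)
      (stop := stop) (c := cf (fun d => W₂ d (m₀ d) d) w) (τ := σ) K
    rw [hj K [] s₀ (by simp), hkσ]
    have h6 := hshift hx (fun i => X (cf (fun d => W₂ d (m₀ d) d) 0) i j -
      w * (1 - X (cf (D := D) (fun _ => 0) 1) i j)) w
    refine le_trans (le_of_eq ((Finset.sum_congr rfl fun i _ => ?_).trans h6)) (by linarith [h2 j])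
    rw [exc_swap, show exc mk δ stop _ _ _ K [] s₀ = _ from hlin _ w i j]
    ring)
  have hpay : ∀ (T : Set S) (c : D → ℝ) (w : ℝ), (∀ s ∈ U, s ∉ T) →
      (∀ d, c d ≤ pay (up d) δ T (π d) (ρ d) (m₀ d) d) →
      ∑ i, x i * ∑ j, y j * (X (cf c 0) i j - w * (1 - X (cf (D := D) (fun _ => 0) 1) i j)) = 0 →
      (0 < ∑ i, x i * ∑ j, y j * (1 - X (cf (D := D) (fun _ => 0) 1) i j) ∨ w = 0) →
      w ≤ pay (glue mk δ D s₀ up m₀) δ T (gs σ π) (gs τ ρ) (Sum.inl []) s₀ := by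
    intro T c w hU hc he hp
    rcases hp with hp | hp
    · have h6 := glue_pay (mk := mk) (m₀ := m₀) hU hstep hσ hτ hπ hρ hc K [] s₀ h₀
      rw [hboth] at h6
      set u := pay (glue mk δ D s₀ up m₀) δ T (gs σ π) (gs τ ρ) (Sum.inl []) s₀
      have h7 : ∑ i, x i * ∑ j, y j * X (cf c u) i j =
          ∑ i, x i * ∑ j, y j * (X (cf c 0) i j - w * (1 - X (cf (D := D) (fun _ => 0) 1) i j)) +
          (w - u) * ∑ i, x i * ∑ j, y j * (1 - X (cf (D := D) (fun _ => 0) 1) i j) + u := by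
        rw [Finset.mul_sum, ← Finset.sum_add_distrib]
        simp only [mul_left_comm (w - u), ← mul_add]
        rw [← hshift hx]
        refine Finset.sum_congr rfl fun i _ => ?_
        congr 1
        rw [Finset.mul_sum, ← Finset.sum_add_distrib]
        simp only [mul_left_comm (w - u), ← mul_add]
        rw [← hshift hy]
        refine Finset.sum_congr rfl fun j _ => ?_
        rw [hlin]
        ring
      rw [h7, he] at h6
      by_contra hlt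
      have := mul_pos (sub_pos.mpr (not_le.mp hlt)) hp
      linarith
    · exact hp ▸ pay_nonneg (gs_dist hσ hπ) (gs_dist hτ hρ) _ _
  refine ⟨_, glue mk δ D s₀ up m₀, Sum.inl [], gs σ π, gs τ ρ, V₁, V₂, gs_dist hσ hπ,
    gs_dist hτ hρ, hV₁, ?_, ?_, ?_⟩
  · rw [glue_swap]; exact hV₂
  · rw [hv₁]; exact hpay T₁ _ v hU₁ hp₁ h3 (h5.imp id fun h => h.1)
  · rw [hv₂]; exact hpay T₂ _ w hU₂ hp₂ h4 (h5.imp id fun h => h.2)

end Pool.Agent.P.MP_0c5457_lc
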