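import Pool.Agent.P.MP_0c5457_lc.Memory

set_option autoImplicit false

/-! Excursions of bounded length: mixed versus behavioural strategies, best replies. -/

namespace Pool.Agent.P.MP_0c5457_lc

open Finset Classical

variable {S : Type} {A B : S → Type} [∀ s, Fintype (A s)] [∀ s, Fintype (B s)] {E : Type}

/-- expected terminal reward `c` of an excursion that ends at the first state in `stop` -/
noncomputable def exc (mk : ∀ s, A s → B s → E) (δ : ∀ s, A s → B s → S) (stop : S → Prop)
    (c : S → ℝ) (σ : List E → ∀ s, A s → ℝ) (τ : List E → ∀ s, B s → ℝ) : ℕ → List E → S → ℝ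
  | 0, _, _ => 0
  | k + 1, h, s => ∑ a, ∑ b, σ h s a * τ h s b *
      (if stop (δ s a b) then c (δ s a b) else exc mk δ stop c σ τ k (mk s a b :: h) (δ s a b))

/-- best-reply value of the first player -/
noncomputable def best [∀ s, Nonempty (A s)] (mk : ∀ s, A s → B s → E) (δ : ∀ s, A s → B s → S)
    (stop : S → Prop) (c : S → ℝ) (τ : List E → ∀ s, B s → ℝ) : ℕ → List E → S → ℝ
  | 0, _, _ => 0
  | k + 1, h, s => Finset.univ.sup' Finset.univ_nonempty fun a => ∑ b, τ h s b *
      (if stop (δ s a b) then c (δ s a b) else best mk δ stop c τ k (mk s a b :: h) (δ s a b))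

noncomputable def pur (f : List E → ∀ s, A s) : List E → ∀ s, A s → ℝ :=
  fun h s a => if f h s = a then 1 else 0

lemma pur_dist (f : List E → ∀ s, A s) : Dist (pur f) := fun _ _ => pure_mem _

/-- extension of a strategy defined on short histories -/
noncomputable def ext [∀ s, Nonempty (A s)] (K : ℕ)
    (i : {l : List E // l.length ≤ K} → ∀ s, A s) : List E → ∀ s, A s :=
  fun h s => if hl : h.length ≤ K then i ⟨h, hl⟩ s else Classical.arbitrary _

variable {mk : ∀ s, A s → B s → E} {δ : ∀ s, A s → B s → S} {stop : S → Prop}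
  {c : S → ℝ} {σ : List E → ∀ s, A s → ℝ} {τ : List E → ∀ s, B s → ℝ}

lemma exc_swap (k : ℕ) (h : List E) (s : S) : exc mk δ stop c σ τ k h s =
    exc (fun s b a => mk s a b) (fun s b a => δ s a b) stop c τ σ k h s := by
  induction k generalizing h s with
  | zero => rfl
  | succ k ih =>
    simp only [exc]
    rw [Finset.sum_comm]
    exact Finset.sum_congr rfl fun b _ => Finset.sum_congr rfl fun a _ => by rw [ih]; ring

lemma exc_lin (c₁ c₂ : S → ℝ) (w : ℝ) (k : ℕ) (h : List E) (s : S) :
    exc mk δ stop (fun s => c₁ s + w * c₂ s) σ τ k h s =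
      exc mk δ stop c₁ σ τ k h s + w * exc mk δ stop c₂ σ τ k h s := by
  induction k generalizing h s with
  | zero => simp [exc]
  | succ k ih =>
    simp only [exc, Finset.mul_sum, ← Finset.sum_add_distrib]
    refine Finset.sum_congr rfl fun a _ => Finset.sum_congr rfl fun b _ => ?_
    split_ifs
    · ring
    · rw [ih]; ring

lemma exc_mem (hσ : Dist σ) (hτ : Dist τ) (hc : ∀ s, 0 ≤ c s ∧ c s ≤ 1) (k : ℕ) (h : List E)
    (s : S) : 0 ≤ exc mk δ stop c σ τ k h s ∧ exc mk δ stop c σ τ k h s ≤ 1 := by
  induction k generalizing h s with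
  | zero => simp [exc]
  | succ k ih =>
    simp only [exc]
    refine ⟨(avg_const (hσ h s) (hτ h s) 0).symm.le.trans
        (avg_le (hσ h s) (hτ h s) fun a b => ?_),
        (avg_le (hσ h s) (hτ h s) fun a b => ?_).trans (avg_const (hσ h s) (hτ h s) 1).le⟩
    · split_ifs
      exacts [(hc _).1, (ih _ _).1]
    · split_ifs
      exacts [(hc _).2, (ih _ _).2]

lemma exists_best [∀ s, Nonempty (A s)] (K : ℕ) :
    ∃ i : {l : List E // l.length ≤ K} → ∀ s, A s, ∀ k h s, h.length + k = K →
      best mk δ stop c τ k h s = exc mk δ stop c (pur (ext K i)) τ k h s := by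
  have hch : ∀ (k : ℕ) (h : List E) (s : S), ∃ a, best mk δ stop c τ (k + 1) h s = ∑ b, τ h s b *
      (if stop (δ s a b) then c (δ s a b) else best mk δ stop c τ k (mk s a b :: h) (δ s a b)) := by
    intro k h s
    obtain ⟨a, -, ha⟩ := Finset.exists_mem_eq_sup' (Finset.univ_nonempty (α := A s))
      fun a => ∑ b, τ h s b *
      (if stop (δ s a b) then c (δ s a b) else best mk δ stop c τ k (mk s a b :: h) (δ s a b))
    exact ⟨a, ha⟩
  choose f hf using hch
  refine ⟨fun h s => f (K - h.1.length - 1) h.1 s, fun k => ?_⟩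
  induction k with
  | zero => intros; rfl
  | succ k ih =>
    intro h s hk
    have h1 : ext K (fun h s => f (K - h.1.length - 1) h.1 s) h s = f k h s := by
      simp only [ext]
      rw [dif_pos (by omega)]
      congr 1
      omega
    rw [hf, exc, Finset.sum_eq_single (f k h s)]
    · refine Finset.sum_congr rfl fun b _ => ?_
      rw [ih _ _ (by simp; omega)]
      simp [pur, h1]
    · intro a _ ha
      simp [pur, h1, ha.symm]
    · simp

lemma best_mem [∀ s, Nonempty (A s)] (hτ : Dist τ) (hc : ∀ s, 0 ≤ c s ∧ c s ≤ 1) (k : ℕ)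
    (h : List E) (s : S) : 0 ≤ best mk δ stop c τ k h s ∧ best mk δ stop c τ k h s ≤ 1 := by
  obtain ⟨i, hi⟩ := exists_best (mk := mk) (δ := δ) (stop := stop) (c := c) (τ := τ)
    (h.length + k)
  rw [hi k h s rfl]
  exact exc_mem (pur_dist _) hτ hc _ _ _

/-- the pure strategy `f` is compatible with the history -/
def Cons (act : E → Σ s, B s) (f : List E → ∀ s, B s) : List E → Prop
  | [] => True
  | e :: h => Cons act f h ∧ f h (act e).1 = (act e).2

/-- Kuhn's theorem for the second player -/
lemma kuhn [∀ s, Nonempty (B s)] (act : E → Σ s, B s) (hact : ∀ s a b, act (mk s a b) = ⟨s, b⟩)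
    {J : Type} [Fintype J] (f : J → List E → ∀ s, B s) {y : J → ℝ} (hy : y ∈ stdSimplex ℝ J) :
    ∃ τ : List E → ∀ s, B s → ℝ, Dist τ ∧ ∀ (c : S → ℝ) (σ : List E → ∀ s, A s → ℝ) k s,
      exc mk δ stop c σ τ k [] s = ∑ j, y j * exc mk δ stop c σ (pur (f j)) k [] s := by
  set ω : List E → ℝ := fun h => ∑ j, if Cons act (f j) h then y j else 0 with hω
  set ω' : List E → ∀ s, B s → ℝ := fun h s b =>
    ∑ j, if Cons act (f j) h ∧ f j h s = b then y j else 0 with hω'
  have h0 : ∀ h s b, 0 ≤ ω' h s b := fun h s b => Finset.sum_nonneg fun j _ => by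
    split_ifs
    exacts [hy.1 j, le_rfl]
  have hsum : ∀ h s, ∑ b, ω' h s b = ω h := fun h s => by
    simp only [hω, hω']
    rw [Finset.sum_comm]
    refine Finset.sum_congr rfl fun j _ => ?_
    by_cases hc : Cons act (f j) h <;> simp [hc]
  set τ : List E → ∀ s, B s → ℝ := fun h s b =>
    if ω h = 0 then (if Classical.arbitrary (B s) = b then 1 else 0) else ω' h s b / ω h with hτ
  have hmul : ∀ h s b, ω h * τ h s b = ω' h s b := fun h s b => by
    simp only [hτ]
    by_cases hz : ω h = 0
    · rw [hz, zero_mul]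
      exact ((Finset.sum_eq_zero_iff_of_nonneg fun b _ => h0 h s b).mp ((hsum h s).trans hz) b
        (Finset.mem_univ _)).symm
    · rw [if_neg hz, mul_div_cancel₀ _ hz]
  refine ⟨τ, fun h s => ?_, fun c σ k s => ?_⟩
  · by_cases hz : ω h = 0
    · simp only [hτ, if_pos hz]; exact pure_mem _
    · simp only [hτ, if_neg hz]
      refine ⟨fun b => div_nonneg (h0 h s b) ?_, by rw [← Finset.sum_div, hsum, div_self hz]⟩
      rw [← hsum h s]; exact Finset.sum_nonneg fun b _ => h0 h s b
  have key : ∀ k h s, ω h * exc mk δ stop c σ τ k h s =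
      ∑ j, (if Cons act (f j) h then y j else 0) * exc mk δ stop c σ (pur (f j)) k h s := by
    intro k
    induction k with
    | zero => intros; simp [exc]
    | succ k ih =>
      intro h s
      simp only [exc, Finset.mul_sum]
      rw [Finset.sum_comm (s := (Finset.univ : Finset J))]
      refine Finset.sum_congr rfl fun a _ => ?_
      rw [Finset.sum_comm (s := (Finset.univ : Finset J))]
      refine Finset.sum_congr rfl fun b _ => ?_
      have hc : ∀ j, Cons act (f j) (mk s a b :: h) ↔ Cons act (f j) h ∧ f j h s = b := by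
        intro j
        rw [Cons, hact]
      have h1 : ω (mk s a b :: h) = ω' h s b := by simp only [hω, hω', hc]
      have h2 : ∀ j (z : ℝ), (if Cons act (f j) h then y j else 0) *
          (σ h s a * pur (f j) h s b * z) =
          σ h s a * ((if Cons act (f j) (mk s a b :: h) then y j else 0) * z) := by
        intro j z
        simp only [hc, pur]
        by_cases h3 : Cons act (f j) h <;> by_cases h4 : f j h s = b <;> simp [h3, h4]
        ring
      simp only [h2, ← Finset.mul_sum]
      rw [← mul_assoc, mul_left_comm, hmul, ← h1, mul_assoc]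
      congr 1
      split_ifs
      · rw [← Finset.sum_mul]
      · exact ih _ _
  have h1 : ω [] = 1 := by simp [hω, Cons, hy.2]
  simpa [h1, Cons] using key k [] s

end Pool.Agent.P.MP_0c5457_lc
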