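import Mathlib

set_option autoImplicit false

/-! Profiles with memory, finite-horizon reaching probabilities, supersolutions. -/

namespace Pool.Agent.P.MP_0c5457_lc

open Finset Filter Topology Classical

variable {S : Type} {A B : S → Type} [∀ s, Fintype (A s)] [∀ s, Fintype (B s)]

/-- probability of visiting `T` within `n` steps, memory `m`, current state `s` -/
noncomputable def val {M : Type} (up : M → ∀ s, A s → B s → M) (δ : ∀ s, A s → B s → S)
    (T : Set S) (σ : M → ∀ s, A s → ℝ) (τ : M → ∀ s, B s → ℝ) : ℕ → M → S → ℝ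
  | 0, _, s => if s ∈ T then 1 else 0
  | n + 1, m, s => if s ∈ T then 1 else
      ∑ a, ∑ b, σ m s a * τ m s b * val up δ T σ τ n (up m s a b) (δ s a b)

/-- probability of ever visiting `T` -/
noncomputable def pay {M : Type} (up : M → ∀ s, A s → B s → M) (δ : ∀ s, A s → B s → S)
    (T : Set S) (σ : M → ∀ s, A s → ℝ) (τ : M → ∀ s, B s → ℝ) (m : M) (s : S) : ℝ :=
  ⨆ n, val up δ T σ τ n m s

def Dist {M : Type} (σ : M → ∀ s, A s → ℝ) : Prop := ∀ m s, σ m s ∈ stdSimplex ℝ (A s)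

/-- `W` bounds what the first player can get against `τ` -/
def Sup {M : Type} (up : M → ∀ s, A s → B s → M) (δ : ∀ s, A s → B s → S) (T : Set S)
    (τ : M → ∀ s, B s → ℝ) (W : M → S → ℝ) : Prop :=
  ∀ m s, 0 ≤ W m s ∧ (s ∈ T → 1 ≤ W m s) ∧
    (s ∉ T → ∀ a, ∑ b, τ m s b * W (up m s a b) (δ s a b) ≤ W m s)

lemma avg_le {α β : Type} [Fintype α] [Fintype β] {x : α → ℝ} {y : β → ℝ}
    (hx : x ∈ stdSimplex ℝ α) (hy : y ∈ stdSimplex ℝ β) {f g : α → β → ℝ}
    (h : ∀ a b, f a b ≤ g a b) : ∑ a, ∑ b, x a * y b * f a b ≤ ∑ a, ∑ b, x a * y b * g a b :=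
  Finset.sum_le_sum fun a _ => Finset.sum_le_sum fun b _ =>
    mul_le_mul_of_nonneg_left (h a b) (mul_nonneg (hx.1 a) (hy.1 b))

lemma avg_const {α β : Type} [Fintype α] [Fintype β] {x : α → ℝ} {y : β → ℝ}
    (hx : x ∈ stdSimplex ℝ α) (hy : y ∈ stdSimplex ℝ β) (c : ℝ) :
    ∑ a, ∑ b, x a * y b * c = c := by
  simp only [← Finset.sum_mul, ← Finset.mul_sum, hx.2, hy.2, one_mul]

lemma avg1_le {β : Type} [Fintype β] {y : β → ℝ} (hy : y ∈ stdSimplex ℝ β) {f : β → ℝ} {c : ℝ}
    (h : ∀ b, f b ≤ c) : ∑ b, y b * f b ≤ c := by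
  calc ∑ b, y b * f b ≤ ∑ b, y b * c :=
        Finset.sum_le_sum fun b _ => mul_le_mul_of_nonneg_left (h b) (hy.1 b)
    _ = c := by rw [← Finset.sum_mul, hy.2, one_mul]

section
variable {M : Type} {up : M → ∀ s, A s → B s → M} {δ : ∀ s, A s → B s → S}
    {T : Set S} {σ : M → ∀ s, A s → ℝ} {τ : M → ∀ s, B s → ℝ}

lemma val_swap (n : ℕ) (m : M) (s : S) : val up δ T σ τ n m s =
    val (fun m s b a => up m s a b) (fun s b a => δ s a b) T τ σ n m s := by
  induction n generalizing m s with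
  | zero => rfl
  | succ n ih =>
    simp only [val]
    split_ifs
    · rfl
    · rw [Finset.sum_comm]
      exact Finset.sum_congr rfl fun b _ => Finset.sum_congr rfl fun a _ => by rw [ih]; ring

lemma val_sim {M' : Type} {up' : M' → ∀ s, A s → B s → M'} (φ : M' → M)
    (hφ : ∀ m s a b, φ (up' m s a b) = up (φ m) s a b) (n : ℕ) (m : M') (s : S) :
    val up' δ T (fun m => σ (φ m)) (fun m => τ (φ m)) n m s = val up δ T σ τ n (φ m) s := by
  induction n generalizing m s with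
  | zero => rfl
  | succ n ih => simp only [val, ih, hφ]

lemma val_mem (hσ : Dist σ) (hτ : Dist τ) (n : ℕ) (m : M) (s : S) :
    0 ≤ val up δ T σ τ n m s ∧ val up δ T σ τ n m s ≤ 1 := by
  induction n generalizing m s with
  | zero => simp only [val]; split_ifs <;> simp
  | succ n ih =>
    simp only [val]
    split_ifs
    · simp
    · exact ⟨(avg_const (hσ m s) (hτ m s) 0).symm.le.trans
        (avg_le (hσ m s) (hτ m s) fun a b => (ih _ _).1),
        (avg_le (hσ m s) (hτ m s) fun a b => (ih _ _).2).trans (avg_const (hσ m s) (hτ m s) 1).le⟩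

lemma val_succ (hσ : Dist σ) (hτ : Dist τ) (n : ℕ) (m : M) (s : S) :
    val up δ T σ τ n m s ≤ val up δ T σ τ (n + 1) m s := by
  induction n generalizing m s with
  | zero =>
    have := (val_mem (up := up) (δ := δ) (T := T) hσ hτ 1 m s).1
    by_cases h : s ∈ T
    · simp [val, h]
    · rw [val, if_neg h]; exact this
  | succ n ih =>
    rw [val, val]
    split_ifs
    · rfl
    · exact avg_le (hσ m s) (hτ m s) fun a b => ih _ _

lemma bdd (hσ : Dist σ) (hτ : Dist τ) (m : M) (s : S) :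
    BddAbove (Set.range fun n => val up δ T σ τ n m s) :=
  ⟨1, by rintro _ ⟨n, rfl⟩; exact (val_mem hσ hτ n m s).2⟩

lemma val_le_pay (hσ : Dist σ) (hτ : Dist τ) (n : ℕ) (m : M) (s : S) :
    val up δ T σ τ n m s ≤ pay up δ T σ τ m s := le_ciSup (bdd hσ hτ m s) n

lemma pay_nonneg (hσ : Dist σ) (hτ : Dist τ) (m : M) (s : S) : 0 ≤ pay up δ T σ τ m s :=
  (val_mem hσ hτ 0 m s).1.trans (val_le_pay hσ hτ 0 m s)

lemma pay_le_one (hσ : Dist σ) (hτ : Dist τ) (m : M) (s : S) : pay up δ T σ τ m s ≤ 1 :=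
  ciSup_le fun n => (val_mem hσ hτ n m s).2

lemma pay_step (hσ : Dist σ) (hτ : Dist τ) (m : M) {s : S} (hs : s ∉ T) :
    ∑ a, ∑ b, σ m s a * τ m s b * pay up δ T σ τ (up m s a b) (δ s a b) ≤ pay up δ T σ τ m s := by
  have h : ∀ m s, Tendsto (fun n => val up δ T σ τ n m s) atTop (𝓝 (pay up δ T σ τ m s)) :=
    fun m s => tendsto_atTop_ciSup (monotone_nat_of_le_succ fun n => val_succ hσ hτ n m s)
      (bdd hσ hτ m s)
  refine le_of_tendsto' (tendsto_finsetSum _ fun a _ => tendsto_finsetSum _ fun b _ =>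
    (h _ _).const_mul (σ m s a * τ m s b)) fun n => ?_
  have := val_le_pay (up := up) (δ := δ) (T := T) hσ hτ (n + 1) m s
  rwa [val, if_neg hs] at this

/-- a supersolution bounds every deviation -/
lemma val_le_sup {M' : Type} {up' : M' → ∀ s, A s → B s → M'} (φ : M' → M)
    (hφ : ∀ m s a b, φ (up' m s a b) = up (φ m) s a b) {W : M → S → ℝ} (hW : Sup up δ T τ W)
    (hτ : Dist τ) {ρ : M' → ∀ s, A s → ℝ} (hρ : Dist ρ) (n : ℕ) (m : M') (s : S) :
    val up' δ T ρ (fun m => τ (φ m)) n m s ≤ W (φ m) s := by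
  induction n generalizing m s with
  | zero =>
    simp only [val]
    split_ifs with h
    · exact (hW _ _).2.1 h
    · exact (hW _ _).1
  | succ n ih =>
    simp only [val]
    split_ifs with h
    · exact (hW _ _).2.1 h
    · refine (avg_le (hρ m s) (hτ (φ m) s) fun a b => ih _ _).trans ?_
      simp only [mul_assoc, ← Finset.mul_sum, hφ]
      exact avg1_le (hρ m s) fun a => (hW _ _).2.2 h a

end

/-- an equilibrium with memory together with the bounds that certify it -/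
def Cert (δ : ∀ s, A s → B s → S) (T₁ T₂ : Set S) (s : S) : Prop :=
  ∃ (M : Type) (up : M → ∀ s, A s → B s → M) (m : M) (σ : M → ∀ s, A s → ℝ)
    (τ : M → ∀ s, B s → ℝ) (W₁ W₂ : M → S → ℝ), Dist σ ∧ Dist τ ∧ Sup up δ T₁ τ W₁ ∧
    Sup (fun m s b a => up m s a b) (fun s b a => δ s a b) T₂ σ W₂ ∧
    W₁ m s ≤ pay up δ T₁ σ τ m s ∧ W₂ m s ≤ pay up δ T₂ σ τ m s

lemma Cert.swap {δ : ∀ s, A s → B s → S} {T₁ T₂ : Set S} {s : S} (h : Cert δ T₁ T₂ s) :
    Cert (fun s b a => δ s a b) T₂ T₁ s := by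
  obtain ⟨M, up, m, σ, τ, W₁, W₂, h1, h2, h3, h4, h5, h6⟩ := h
  refine ⟨M, fun m s b a => up m s a b, m, τ, σ, W₂, W₁, h2, h1, h4, h3, ?_, ?_⟩
  · refine h6.trans (le_of_eq ?_)
    simp only [pay]; exact iSup_congr fun n => val_swap n m s
  · refine h5.trans (le_of_eq ?_)
    simp only [pay]; exact iSup_congr fun n => val_swap n m s

lemma pure_mem {α : Type} [Fintype α] (a : α) :
    (fun a' => if a = a' then (1 : ℝ) else 0) ∈ stdSimplex ℝ α :=
  ⟨fun a' => by dsimp only; split_ifs <;> simp, by simp⟩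

/-- equilibria from the target states of the first player -/
lemma cert_target [∀ s, Nonempty (A s)] [∀ s, Nonempty (B s)] (δ : ∀ s, A s → B s → S)
    (T₁ T₂ : Set S) {s₀ : S} (h₀ : s₀ ∈ T₁) : Cert δ T₁ T₂ s₀ := by
  obtain ⟨R, hR0, hR⟩ : ∃ R : ℕ → S → Prop, (∀ s, R 0 s ↔ s ∈ T₂) ∧
      ∀ n s, R (n + 1) s ↔ R n s ∨ ∃ a b, R n (δ s a b) :=
    ⟨fun n => Nat.rec (fun s => s ∈ T₂) (fun _ r s => r s ∨ ∃ a b, r (δ s a b)) n,
      fun _ => Iff.rfl, fun _ _ => Iff.rfl⟩
  have hch : ∀ s, ∃ ab : A s × B s, ∀ n, R (n + 1) s → s ∈ T₂ ∨ R n (δ s ab.1 ab.2) := by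
    intro s
    have hmono : ∀ s, Monotone fun n => R n s := fun s =>
      monotone_nat_of_le_succ fun n h => (hR n s).mpr (Or.inl h)
    by_cases h : ∃ n, ∃ a b, R n (δ s a b)
    · obtain ⟨a, b, hab⟩ := Nat.find_spec h
      refine ⟨(a, b), fun n hn => ?_⟩
      have : ∀ n, R (n + 1) s → s ∈ T₂ ∨ Nat.find h ≤ n := by
        intro n
        induction n with
        | zero => exact fun hn => ((hR 0 s).mp hn).imp (hR0 s).mp fun h' => Nat.find_le h'
        | succ n ih =>
          intro hn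
          rcases (hR _ s).mp hn with h' | h'
          · exact (ih h').imp id Nat.le_succ_of_le
          · exact Or.inr (Nat.find_le h')
      exact (this n hn).imp id fun h' => hmono _ h' hab
    · refine ⟨Classical.arbitrary _, fun n hn => Or.inl ?_⟩
      induction n with
      | zero => exact (hR0 s).mp (((hR 0 s).mp hn).resolve_right fun h' => h ⟨0, h'⟩)
      | succ n ih => exact ih (((hR (n + 1) s).mp hn).resolve_right fun h' => h ⟨_, h'⟩)
  choose ab hab using hch
  have hσ : Dist (M := Unit) fun _ s a => if (ab s).1 = a then (1 : ℝ) else 0 :=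
    fun _ s => pure_mem _
  have hτ : Dist (M := Unit) fun _ s b => if (ab s).2 = b then (1 : ℝ) else 0 :=
    fun _ s => pure_mem _
  refine ⟨Unit, fun _ _ _ _ => (), (), _, _, fun _ _ => 1,
    fun _ s => if ∃ n, R n s then 1 else 0, hσ, hτ, fun m s => ⟨zero_le_one, fun _ => le_rfl,
      fun _ a => avg1_le (hτ m s) fun _ => le_rfl⟩, fun m s => ⟨?a, fun h => ?b, fun _ b => ?c⟩,
      ?d, ?e⟩
  case a => dsimp only; split_ifs <;> simp
  case b => dsimp only; rw [if_pos ⟨0, (hR0 s).mpr h⟩]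
  case c =>
    refine avg1_le (hσ m s) fun a => ?_
    dsimp only
    by_cases h : ∃ n, R n (δ s a b)
    · obtain ⟨n, hn⟩ := h
      rw [if_pos ⟨n, hn⟩, if_pos ⟨n + 1, (hR n s).mpr (Or.inr ⟨a, b, hn⟩)⟩]
    · rw [if_neg h]; split_ifs <;> simp
  case d =>
    refine le_trans ?_ (val_le_pay hσ hτ 0 () s₀)
    simp [val, h₀]
  case e =>
    dsimp only
    split_ifs with h
    · obtain ⟨n, hn⟩ := h
      refine le_trans ?_ (val_le_pay hσ hτ n () s₀)
      clear h₀
      induction n generalizing s₀ with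
      | zero => simp only [val]; rw [if_pos ((hR0 _).mp hn)]
      | succ n ih =>
        simp only [val]
        split_ifs with h
        · rfl
        · simpa [ite_mul, mul_ite] using ih ((hab s₀ n hn).resolve_left h)
    · exact pay_nonneg hσ hτ _ _

end Pool.Agent.P.MP_0c5457_lc
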