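import Pool.Agent.P.MP_0c5457_lc.Saddle
import Pool.Agent.P.MP_0c5457_lc.Memory

set_option autoImplicit false

/-! The random walk of labels at the exit state of an end component. -/

namespace Pool.Agent.P.MP_0c5457_lc

open Finset Classical

variable {α β : Type} [Fintype α] [Fintype β]

lemma inv_add_le {d h θ : ℝ} (hd : 0 < d) (h1 : |h| ≤ θ) (h2 : θ ≤ d / 2) :
    1 / (d + h) ≤ 1 / d - h / d ^ 2 + 2 * θ ^ 2 / d ^ 3 := by
  have k := abs_le.1 h1
  have p : 0 < d + h := by linarith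
  have e : 1 / (d + h) = 1 / d - h / d ^ 2 + h ^ 2 / (d ^ 2 * (d + h)) := by
    field_simp
    ring
  have s : h ^ 2 ≤ θ ^ 2 := sq_le_sq' k.1 k.2
  have : h ^ 2 / (d ^ 2 * (d + h)) ≤ 2 * θ ^ 2 / d ^ 3 := by
    rw [div_le_div_iff₀ (by positivity) (by positivity)]
    calc h ^ 2 * d ^ 3 ≤ θ ^ 2 * d ^ 3 := by gcongr
      _ = θ ^ 2 * d ^ 2 * d := by ring
      _ ≤ θ ^ 2 * d ^ 2 * (2 * (d + h)) := by gcongr; linarith
      _ = _ := by ring
  linarith

lemma exists_mix (e : α → β → ℝ) (he : ∀ a b, e a b ≤ 1)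
    (hb : ∀ b, (∀ a, e a b = 0) ∨ 0 < ∑ a, e a b) {a0 : α} {b0 : β} {d : ℝ} (hd : 0 < d)
    (hd1 : d ≤ 1) (h0 : e a0 b0 = -d) : ∃ x ∈ stdSimplex ℝ α,
      (∀ a, d / (2 * Fintype.card α) ≤ x a) ∧ (∀ b, 0 ≤ ∑ a, x a * e a b) ∧
        ∃ b, 0 < ∑ a, e a b ∧ ∑ a, x a * e a b = 0 := by
  have p0 : 0 < ∑ a, e a b0 := (hb b0).resolve_left fun h => by linarith [h a0]
  obtain ⟨b, k1, k2⟩ := Finset.exists_max_image (univ.filter fun b => 0 < ∑ a, e a b)
    (fun b => -e a0 b / ∑ a, e a b) ⟨b0, by simpa using p0⟩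
  simp only [mem_filter, mem_univ, true_and] at k1 k2
  have hN : (1 : ℝ) ≤ Fintype.card α := by exact_mod_cast Fintype.card_pos_iff.2 ⟨a0⟩
  have s0 : ∑ a, e a b0 ≤ Fintype.card α :=
    (Finset.sum_le_sum fun a _ => he a b0).trans (by simp)
  have hb' : -e a0 b / (∑ a, e a b) * ∑ a, e a b = -e a0 b := div_mul_cancel₀ _ k1.ne'
  generalize -e a0 b / ∑ a, e a b = r at k2 hb'
  have r1 : d ≤ Fintype.card α * r := by
    have := k2 b0 p0
    rw [h0, neg_neg, div_le_iff₀ p0] at this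
    have r0 : 0 ≤ r := by
      by_contra c
      nlinarith
    nlinarith
  have r0 : 0 < r := by
    by_contra c
    nlinarith
  generalize hc : (Fintype.card α : ℝ) = N at *
  have q : 0 < 1 + N * r := by positivity
  have sx : ∀ f : α → ℝ, ∑ a, (r + if a = a0 then 1 else 0) / (1 + N * r) * f a =
      (r * ∑ a, f a + f a0) / (1 + N * r) := fun f => by
    simp only [div_mul_eq_mul_div, ← Finset.sum_div, add_mul, Finset.sum_add_distrib,
      ← Finset.mul_sum]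
    simp
  refine ⟨fun a => (r + if a = a0 then 1 else 0) / (1 + N * r), ⟨fun a => div_nonneg
    (add_nonneg r0.le (by split_ifs <;> simp)) q.le, ?_⟩, fun a => ?_, fun b' => ?_, b, k1, ?_⟩
  · have := sx fun _ => 1
    simp only [mul_one, Finset.sum_const, card_univ, nsmul_eq_mul, hc] at this
    rw [this, div_eq_one_iff_eq q.ne']
    ring
  · rw [div_le_div_iff₀ (by positivity) q]
    have : (0 : ℝ) ≤ if a = a0 then 1 else 0 := by split_ifs <;> simp
    have := mul_le_mul_of_nonneg_right hd1 (by positivity : 0 ≤ N * r)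
    nlinarith
  · rw [sx]
    refine div_nonneg ?_ q.le
    rcases hb b' with h | h
    · simp [h]
    · have := k2 b' h
      rw [div_le_iff₀ h] at this
      linarith
  · rw [sx, hb']
    simp

/-- the Lyapunov function of the walk -/
noncomputable def ly (lo τ u : ℝ) : ℝ := 1 / (u - lo) + 1 / (τ - u)

lemma loc_pt (out : α → β → Prop) (m : α → β → ℝ) (hm : ∀ a b, 0 ≤ m a b ∧ m a b ≤ 1) {j : β}
    (hj : ∀ a, ¬out a j) {lo τ : ℝ} (hlo : 0 ≤ lo) (hτ : τ ≤ 1) {a0 : α} {b0 : β}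
    (h0 : out a0 b0) (h1 : m a0 b0 = lo) {t : ℝ} (ht : t ∈ Set.Ioo lo τ)
    (hb : ∀ b, (∃ a, out a b) → 0 < ∑ a, if out a b then m a b - t else 0) :
    ∃ x ∈ stdSimplex ℝ α, ∃ y ∈ stdSimplex ℝ β, ∃ n : α → β → ℝ, ((∀ a, 0 < x a) ∧
      (∀ a b, (¬out a b → n a b ∈ Set.Ioo lo τ) ∧ (out a b → n a b = m a b)) ∧
      (∀ a, ∑ b, y b * n a b ≤ t) ∧ ∀ b, t ≤ ∑ a, x a * n a b) ∧
      (∃ b, (∃ a, out a b) ∧ 0 < y b) ∧
      ∑ a, ∑ b, x a * y b * (if out a b then 0 else ly lo τ (n a b)) ≤ ly lo τ t ∧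
      ∑ a, ∑ b, x a * y b * (if out a b then 0 else 1) ≤
        1 - 1 / (16 * (Fintype.card α : ℝ) ^ 2 * ly lo τ t ^ 4) := by
  obtain ⟨e, he⟩ : ∃ e : α → β → ℝ, ∀ a b, e a b = if out a b then m a b - t else 0 :=
    ⟨_, fun _ _ => rfl⟩
  have e1 : ∀ a b, |e a b| ≤ 1 := fun a b => by
    rw [he, abs_le]
    split_ifs <;> constructor <;> linarith [hm a b, ht.1, ht.2]
  have e2 : ∀ a b, ¬out a b → e a b = 0 := fun a b h => by rw [he, if_neg h]
  simp only [← he] at hb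
  have d1 : 0 < t - lo := sub_pos.2 ht.1
  have d2 : 0 < τ - t := sub_pos.2 ht.2
  obtain ⟨x, hx, x1, x2, b, b1, b2⟩ := exists_mix e (fun a b => (abs_le.1 (e1 a b)).2)
    (fun b => by
      by_cases h : ∃ a, out a b
      · exact Or.inr (hb b h)
      · exact Or.inl fun a => e2 a b fun k => h ⟨a, k⟩) (a0 := a0) (b0 := b0) d1
    (by linarith [ht.2]) (by rw [he, if_pos h0, h1]; ring)
  have hN : (1 : ℝ) ≤ Fintype.card α := by exact_mod_cast Fintype.card_pos_iff.2 ⟨a0⟩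
  have xp : ∀ a, 0 < x a := fun a => lt_of_lt_of_le (by positivity) (x1 a)
  obtain ⟨a1, ha1⟩ : ∃ a, out a b := by
    by_contra c
    push Not at c
    simp [fun a => e2 a b (c a)] at b1
  have bj : b ≠ j := fun h => hj a1 (h ▸ ha1)
  obtain ⟨o, ho⟩ : ∃ o, o = ∑ a, x a * if out a b then 1 else 0 := ⟨_, rfl⟩
  have o1 : (t - lo) / (2 * Fintype.card α) ≤ o := by
    refine (x1 a1).trans ?_
    have := Finset.single_le_sum (f := fun a => x a * if out a b then 1 else 0)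
      (fun a _ => mul_nonneg (hx.1 a) (by split_ifs <;> simp)) (mem_univ a1)
    simpa [ha1, ho] using this
  have o2 : o ≤ 1 := by
    rw [ho]
    exact (Finset.sum_le_sum fun a _ =>
      mul_le_of_le_one_right (hx.1 a) (by split_ifs <;> simp)).trans hx.2.le
  have o3 : ∀ c : ℝ, ∑ a, x a * (if out a b then 0 else c) = c - o * c := fun c => by
    have : c = ∑ a, x a * c := by rw [← Finset.sum_mul, hx.2, one_mul]
    rw [ho, Finset.sum_mul, eq_sub_iff_add_eq, ← Finset.sum_add_distrib]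
    refine Eq.trans (Finset.sum_congr rfl fun a _ => ?_) this.symm
    split_ifs <;> ring
  have op : 0 < o := lt_of_lt_of_le (by positivity) o1
  obtain ⟨φ, hφ⟩ : ∃ φ, φ = ly lo τ t := ⟨_, rfl⟩
  have f0 : φ = 1 / (t - lo) + 1 / (τ - t) := hφ
  have f1 : 1 ≤ (t - lo) * φ := by
    rw [f0, mul_add, mul_one_div_cancel d1.ne']
    linarith [mul_pos d1 (one_div_pos.2 d2)]
  have f2 : 1 ≤ (τ - t) * φ := by
    rw [f0, mul_add, mul_one_div_cancel d2.ne']
    linarith [mul_pos d2 (one_div_pos.2 d1)]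
  have fp : 0 < φ := by rw [f0]; positivity
  obtain ⟨θ, hθ⟩ : ∃ θ, θ = o / (2 * φ ^ 2) := ⟨_, rfl⟩
  have θp : 0 < θ := by rw [hθ]; positivity
  have θe : θ * (2 * φ ^ 2) = o := by rw [hθ]; field_simp
  have θd : ∀ d : ℝ, 0 < d → d ≤ 1 → 1 ≤ d * φ → θ ≤ d / 2 := fun d k1 k2 k3 => by
    rw [hθ, div_le_div_iff₀ (by positivity) two_pos]
    nlinarith [mul_le_mul k3 k3 zero_le_one (by positivity), mul_pos k1 (pow_pos fp 2)]
  have θ1 := θd _ d1 (by linarith [ht.2]) f1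
  have θ2 := θd _ d2 (by linarith [ht.1]) f2
  have eθ : ∀ a, |θ * e a b| ≤ θ := fun a => by
    rw [abs_mul, abs_of_pos θp]
    exact mul_le_of_le_one_right θp.le (e1 a b)
  obtain ⟨y, hy⟩ : ∃ y : β → ℝ, ∀ c, y c = ((if c = j then 1 else 0) + if c = b then θ else 0) /
    (1 + θ) := ⟨_, fun _ => rfl⟩
  have sy : ∀ f : β → ℝ, ∑ c, y c * f c = (f j + θ * f b) / (1 + θ) := fun f => by
    simp only [hy, div_mul_eq_mul_div, ← Finset.sum_div, add_mul, Finset.sum_add_distrib]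
    simp
  have q : 0 < 1 + θ := by positivity
  have sxy : ∀ f : α → β → ℝ, ∑ a, ∑ c, x a * y c * f a c =
      (∑ a, x a * f a j + θ * ∑ a, x a * f a b) / (1 + θ) := fun f => by
    simp only [mul_assoc, ← Finset.mul_sum, sy]
    rw [Finset.mul_sum, ← Finset.sum_add_distrib, Finset.sum_div]
    exact Finset.sum_congr rfl fun a _ => by ring
  have sc : ∀ (c : ℝ) (f : α → ℝ), ∑ a, x a * (c + f a) = c + ∑ a, x a * f a := fun c f => by
    simp only [mul_add, Finset.sum_add_distrib, ← Finset.sum_mul, hx.2, one_mul]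
  obtain ⟨n, hn⟩ : ∃ n : α → β → ℝ, ∀ a c, n a c = t + if c = j then -(θ * e a b) else e a c :=
    ⟨_, fun _ _ => rfl⟩
  refine ⟨x, hx, y, ⟨fun c => ?_, ?_⟩, n,
    ⟨xp, fun a c => ⟨fun h => ?_, fun h => ?_⟩, fun a => ?_, fun c => ?_⟩, ⟨b, ⟨a1, ha1⟩, ?_⟩,
    ?_, ?_⟩
  · rw [hy]
    exact div_nonneg (add_nonneg (by split_ifs <;> simp) (by split_ifs <;> simp [θp.le])) q.le
  · have := sy fun _ => 1
    simp only [mul_one] at this
    rw [this, div_self q.ne']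
  · have := abs_le.1 (eθ a)
    rw [hn]
    split_ifs
    · constructor <;> linarith
    · rw [e2 a c h, add_zero]
      exact ht
  · rw [hn, if_neg fun k : c = j => hj a (k ▸ h), he, if_pos h]
    ring
  · rw [sy, hn, hn, if_pos rfl, if_neg bj, div_le_iff₀ q]
    linarith
  · simp only [hn]
    rw [sc]
    split_ifs
    · simp only [mul_neg, mul_left_comm _ θ, Finset.sum_neg_distrib, ← Finset.mul_sum, b2]
      simp
    · linarith [x2 c]
  · rw [hy, if_neg bj, if_pos rfl]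
    positivity
  · rw [sxy, div_le_iff₀ q, ← hφ]
    simp only [hn, if_neg (hj _), if_pos, if_neg bj]
    have A : ∑ a, x a * (if out a b then 0 else ly lo τ (t + e a b)) = φ - o * φ := by
      rw [← o3]
      refine Finset.sum_congr rfl fun a _ => ?_
      split_ifs with h
      · rfl
      · rw [e2 a b h, add_zero, hφ]
    have B : ∑ a, x a * ly lo τ (t + -(θ * e a b)) ≤ ∑ a, x a * ((φ + 2 * θ ^ 2 * φ ^ 3) +
        θ * (1 / (t - lo) ^ 2 - 1 / (τ - t) ^ 2) * e a b) := by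
      refine Finset.sum_le_sum fun a _ => mul_le_mul_of_nonneg_left ?_ (hx.1 a)
      have k1 := inv_add_le d1 (h := -(θ * e a b)) (by rw [abs_neg]; exact eθ a) θ1
      have k2 := inv_add_le d2 (eθ a) θ2
      have k3 : 1 / (t - lo) ^ 3 + 1 / (τ - t) ^ 3 ≤ φ ^ 3 := by
        rw [f0, ← one_div_pow, ← one_div_pow]
        exact pow_add_pow_le (by positivity) (by positivity) (by norm_num)
      have k4 := mul_le_mul_of_nonneg_left k3 (by positivity : 0 ≤ 2 * θ ^ 2)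
      unfold ly
      rw [show t + -(θ * e a b) - lo = t - lo + -(θ * e a b) by ring,
        show τ - (t + -(θ * e a b)) = τ - t + θ * e a b by ring]
      rw [f0] at k4 ⊢
      simp only [div_eq_mul_inv] at k1 k2 k4 ⊢
      linarith
    rw [sc] at B
    simp only [mul_left_comm (x _), ← Finset.mul_sum, b2] at B
    have : 2 * θ ^ 2 * φ ^ 3 = θ * (o * φ) := by rw [← θe]; ring
    rw [A]
    linarith
  · rw [sxy, div_le_iff₀ q, ← hφ, o3]
    simp only [if_neg (hj _), mul_one, hx.2]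
    generalize (Fintype.card α : ℝ) = N at *
    have k1 : 1 ≤ 2 * N * φ * o := by
      rw [div_le_iff₀ (by positivity)] at o1
      nlinarith
    have k2 : 1 / (16 * N ^ 2 * φ ^ 4) ≤ θ * o / 2 := by
      rw [div_le_div_iff₀ (by positivity) two_pos]
      have : θ * o * (16 * N ^ 2 * φ ^ 4) = 2 * (2 * N * φ * o) ^ 2 := by
        rw [hθ]
        field_simp
        ring
      rw [this]
      nlinarith
    have k3 : θ ≤ 1 := by linarith [ht.1]
    have k4 : 0 ≤ 1 / (16 * N ^ 2 * φ ^ 4) := by positivity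
    nlinarith [mul_le_mul_of_nonneg_left k3 k4]

/-- a labelled saddle point with full support for the rows -/
def Gd (out : α → β → Prop) (m : α → β → ℝ) (Λ : Set ℝ) (t : ℝ) (x : α → ℝ) (y : β → ℝ)
    (n : α → β → ℝ) : Prop :=
  (∀ a, 0 < x a) ∧ (∀ a b, (¬out a b → n a b ∈ Λ) ∧ (out a b → n a b = m a b)) ∧
    (∀ a, ∑ b, y b * n a b ≤ t) ∧ ∀ b, t ≤ ∑ a, x a * n a b

/-- the walk of labels leaves -/
def Ex (out : α → β → Prop) (Λ : Set ℝ) (X : ℝ → α → ℝ) (Y : ℝ → β → ℝ) (n : ℝ → α → β → ℝ) :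
    Prop :=
  (∀ t ∈ Λ, ∃ b, (∃ a, out a b) ∧ 0 < Y t b) ∧ ∀ ρ : ℝ → ℝ, (∀ t ∈ Λ, ρ t ≤ 1) →
    (∀ t ∈ Λ, ρ t ≤ ∑ a, ∑ b, X t a * Y t b * if out a b then 0 else ρ (n t a b)) →
      ∀ t ∈ Λ, ρ t ≤ 0

lemma exists_walk (out : α → β → Prop) (m : α → β → ℝ) (hm : ∀ a b, 0 ≤ m a b ∧ m a b ≤ 1) {j : β}
    (hj : ∀ a, ¬out a j) {lo τ : ℝ} (hlo : 0 ≤ lo) (hτ : τ ≤ 1) {a0 : α} {b0 : β}
    (h0 : out a0 b0) (h1 : m a0 b0 = lo) (hb : ∀ t ∈ Set.Ioo lo τ, ∀ b, (∃ a, out a b) →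
      0 < ∑ a, if out a b then m a b - t else 0) :
    ∃ (X : ℝ → α → ℝ) (Y : ℝ → β → ℝ) (n : ℝ → α → β → ℝ),
      (∀ t, X t ∈ stdSimplex ℝ α ∧ Y t ∈ stdSimplex ℝ β) ∧
      (∀ t ∈ Set.Ioo lo τ, Gd out m (Set.Ioo lo τ) t (X t) (Y t) (n t)) ∧
      Ex out (Set.Ioo lo τ) X Y n := by
  have : ∀ t, ∃ x ∈ stdSimplex ℝ α, ∃ y ∈ stdSimplex ℝ β, ∃ n : α → β → ℝ, t ∈ Set.Ioo lo τ →
      Gd out m (Set.Ioo lo τ) t x y n ∧ (∃ b, (∃ a, out a b) ∧ 0 < y b) ∧
      ∑ a, ∑ b, x a * y b * (if out a b then 0 else ly lo τ (n a b)) ≤ ly lo τ t ∧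
      ∑ a, ∑ b, x a * y b * (if out a b then 0 else 1) ≤
        1 - 1 / (16 * (Fintype.card α : ℝ) ^ 2 * ly lo τ t ^ 4) := fun t => by
    by_cases ht : t ∈ Set.Ioo lo τ
    · obtain ⟨x, hx, y, hy, n, k⟩ := loc_pt out m hm hj hlo hτ h0 h1 ht (hb t ht)
      exact ⟨x, hx, y, hy, n, fun _ => k⟩
    · exact ⟨_, pure_mem a0, _, pure_mem b0, m, fun k => absurd k ht⟩
  choose X hX Y hY n k using this
  refine ⟨X, Y, n, fun t => ⟨hX t, hY t⟩, fun t ht => (k t ht).1, fun t ht => (k t ht).2.1,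
    fun ρ r1 r2 => ?_⟩
  have hs : ∀ (f : ℝ → ℝ) t, ∑ i : α × β, (X t i.1 * Y t i.2 * if out i.1 i.2 then 0 else 1) *
      f (if out i.1 i.2 then t else n t i.1 i.2) =
      ∑ a, ∑ b, X t a * Y t b * if out a b then 0 else f (n t a b) := fun f t => by
    rw [Fintype.sum_prod_type]
    refine Finset.sum_congr rfl fun a _ => Finset.sum_congr rfl fun b _ => ?_
    dsimp only
    split_ifs <;> simp
  have lp : ∀ t ∈ Set.Ioo lo τ, 0 < ly lo τ t := fun t ht =>
    add_pos (one_div_pos.2 (sub_pos.2 ht.1)) (one_div_pos.2 (sub_pos.2 ht.2))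
  have hN : (0 : ℝ) < Fintype.card α := by exact_mod_cast Fintype.card_pos_iff.2 ⟨a0⟩
  refine kill (ι := α × β) (w := fun t i => X t i.1 * Y t i.2 * if out i.1 i.2 then 0 else 1)
    (nx := fun t i => if out i.1 i.2 then t else n t i.1 i.2) (φ := ly lo τ)
    (fun t _ i => mul_nonneg (mul_nonneg ((hX t).1 _) ((hY t).1 _)) (by split_ifs <;> simp))
    (fun t ht i => ?_) (fun t ht => (lp t ht).le) (fun t ht => (hs _ t).trans_le (k t ht).2.2.1)
    (fun K => ⟨1 / (16 * (Fintype.card α : ℝ) ^ 2 * max K 1 ^ 4), by positivity,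
      fun t ht hK => ?_⟩) r1 fun t ht => (r2 t ht).trans_eq (hs ρ t).symm
  · split_ifs with h
    · exact ht
    · exact ((k t ht).1.2.1 _ _).1 h
  · rw [Fintype.sum_prod_type]
    refine (k t ht).2.2.2.trans (sub_le_sub_left ?_ _)
    have := lp t ht
    have := hK.trans (le_max_left K 1)
    gcongr

lemma unif_mem [Nonempty α] : (fun _ => (Fintype.card α : ℝ)⁻¹) ∈ stdSimplex ℝ α :=
  ⟨fun _ => by positivity, by simp⟩

lemma gd_unif [Nonempty α] {out : α → β → Prop} {m : α → β → ℝ} {Λ : Set ℝ} {t : ℝ} (ht : t ∈ Λ)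
    {j : β} (hj : ∀ a, out a j → m a j = t)
    (hb : ∀ b, 0 ≤ ∑ a, if out a b then m a b - t else 0) :
    Gd out m Λ t (fun _ => (Fintype.card α : ℝ)⁻¹) (fun b => if j = b then 1 else 0)
      fun a b => if out a b then m a b else t := by
  have hN : (0 : ℝ) < Fintype.card α := by exact_mod_cast Fintype.card_pos
  refine ⟨fun _ => by positivity, fun a b => ⟨fun h => by simp [h, ht], fun h => by simp [h]⟩,
    fun a => ?_, fun b => ?_⟩
  · simp only [ite_mul, one_mul, zero_mul, Finset.sum_ite_eq, mem_univ, if_true]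
    split_ifs with h
    exacts [(hj a h).le, le_rfl]
  · have : ∑ a, (if out a b then m a b else t) =
        Fintype.card α * t + ∑ a, if out a b then m a b - t else 0 := by
      rw [← nsmul_eq_mul, ← card_univ, ← Finset.sum_const, ← Finset.sum_add_distrib]
      exact Finset.sum_congr rfl fun a _ => by split_ifs <;> simp
    rw [← Finset.mul_sum, this, mul_add, inv_mul_cancel_left₀ hN.ne']
    exact le_add_of_nonneg_right (mul_nonneg (by positivity) (hb b))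

lemma ex_unif [Nonempty α] {out : α → β → Prop} {m : α → β → ℝ} {t0 : ℝ} {j : β}
    (hj : ∃ a, out a j) : Ex out {t0} (fun _ _ => (Fintype.card α : ℝ)⁻¹)
      (fun _ b => if j = b then 1 else 0) fun t a b => if out a b then m a b else t := by
  have hN : (0 : ℝ) < Fintype.card α := by exact_mod_cast Fintype.card_pos
  refine ⟨fun t _ => ⟨j, hj, by simp⟩, fun ρ _ h t ht => not_lt.1 fun c => ?_⟩
  obtain ⟨a, ha⟩ := hj
  have := eq_of_avg unif_mem (pure_mem j) (m := ρ t) (fun a b _ _ => ?_) (h t ht) (a := a) (b := j)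
    (by positivity) (by simp)
  · rw [if_pos ha] at this
    exact c.ne this
  · by_cases k : out a b <;> simp [k, c.le]

end Pool.Agent.P.MP_0c5457_lc
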