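import Pool.Agent.P.MP_0c5457_lc.Loc
import Pool.Agent.P.MP_0c5457_lc.Ec

set_option autoImplicit false

/-! Labels and strategies on an end component of the second player. -/

namespace Pool.Agent.P.MP_0c5457_lc

open Finset Classical Filter Topology

variable {S : Type} {A B : S → Type} [∀ s, Fintype (A s)] [∀ s, Fintype (B s)]
  (δ : ∀ s, A s → B s → S)

def Out (D : Set S) (s : S) (a : A s) (b : B s) : Prop := δ s a b ∉ D

/-- the cells that leave `D` -/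
abbrev Xt (D : Set S) : Type := {p : Σ s, A s × B s // p.1 ∈ D ∧ δ p.1 p.2.1 p.2.2 ∉ D}

/-- total excess of a column over `t` -/
noncomputable abbrev exc0 (g : S → ℝ) (D : Set S) (s : S) (b : B s) (t : ℝ) : ℝ :=
  ∑ a, if Out δ D s a b then g (δ s a b) - t else 0

noncomputable def fx (g : S → ℝ) (D : Set S) (s : S) (a0 : A s) (b : B s) : ℝ :=
  (exc0 δ g D s b 0 + g (δ s a0 b)) / ((∑ a, if Out δ D s a b then 1 else 0) + 1)

/-- the value assigned to an end component -/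
noncomputable def Tv (g : S → ℝ) (D : Set S) : ℝ := ⨅ p : Xt δ D, fx δ g D p.1.1 p.1.2.1 p.1.2.2

def Deg (g : S → ℝ) (D : Set S) : Prop :=
  ∃ s ∈ D, ∃ b, (∃ a, δ s a b ∉ D) ∧ ∀ a, δ s a b ∉ D → g (δ s a b) = Tv δ g D

/-- the data shared by the states of a component -/
def Md (g : S → ℝ) (D : Set S) (Λ : Set ℝ) (z : S) (j : ∀ s, B s) : Prop :=
  Λ ⊆ Set.Icc 0 1 ∧ Tv δ g D ∈ Λ ∧ (Deg δ g D → Λ ⊆ {Tv δ g D}) ∧ z ∈ D ∧
    (∀ s ∈ D, Stay δ D s (j s)) ∧ ∀ R : Set S,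
      (∀ s ∈ R, s ∈ D → s ≠ z → ∀ a, δ s a (j s) ∈ R) → ∀ u ∈ R, u ∈ D → z ∈ R

/-- the data at one state of a component -/
def Lc (g : S → ℝ) (D : Set S) (Λ : Set ℝ) (z : S) (j : ∀ s, B s) (s : S) (X : ℝ → A s → ℝ)
    (Y : ℝ → B s → ℝ) (n : ℝ → A s → B s → ℝ) : Prop :=
  (∀ t ∈ Λ, Gd (Out δ D s) (fun a b => g (δ s a b)) Λ t (X t) (Y t) (n t)) ∧
    (s ≠ z → ∀ t ∈ Λ, (∀ b, 0 < Y t b ↔ b = j s) ∧ ∀ a, n t a (j s) = t) ∧
    (s = z → Ex (Out δ D s) Λ X Y n)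

variable {δ} {g : S → ℝ} {U D : Set S}

lemma den_pos (s : S) (b : B s) : (0 : ℝ) < (∑ a, if Out δ D s a b then 1 else 0) + 1 :=
  add_pos_of_nonneg_of_pos (Finset.sum_nonneg fun a _ => by split_ifs <;> simp) one_pos

lemma exc0_eq (s : S) (b : B s) (t : ℝ) :
    exc0 δ g D s b t = exc0 δ g D s b 0 - t * ∑ a, if Out δ D s a b then 1 else 0 := by
  rw [Finset.mul_sum, ← Finset.sum_sub_distrib]
  exact Finset.sum_congr rfl fun a _ => by split_ifs <;> simp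

lemma le_fx {s : S} {a : A s} {b : B s} {t : ℝ} :
    t ≤ fx δ g D s a b ↔ 0 ≤ exc0 δ g D s b t + (g (δ s a b) - t) := by
  rw [fx, le_div_iff₀ (den_pos s b), exc0_eq s b t]
  constructor <;> intro h <;> linarith

lemma fx_le {s : S} {a : A s} {b : B s} {t : ℝ} :
    fx δ g D s a b ≤ t ↔ exc0 δ g D s b t + (g (δ s a b) - t) ≤ 0 := by
  rw [fx, div_le_iff₀ (den_pos s b), exc0_eq s b t]
  constructor <;> intro h <;> linarith

lemma Tv_nonneg (h : 0 ≤ g) : 0 ≤ Tv δ g D :=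
  Real.iInf_nonneg fun p => le_fx.2 (add_nonneg (Finset.sum_nonneg fun a _ => by
    split_ifs
    exacts [by simpa using h _, le_rfl]) (by simpa using h _))

lemma exc0_nonpos {s : S} {b : B s} {t : ℝ} (h : ∀ a, δ s a b ∉ D → g (δ s a b) ≤ t) :
    exc0 δ g D s b t ≤ 0 := Finset.sum_nonpos fun a _ => by
  by_cases k : Out δ D s a b
  · rw [if_pos k]
    exact sub_nonpos.2 (h a k)
  · rw [if_neg k]

variable [Finite S]

lemma Tv_mono {g' : S → ℝ} (h : g ≤ g') : Tv δ g D ≤ Tv δ g' D :=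
  ciInf_mono (Finite.bddBelow_range _) fun p => div_le_div_of_nonneg_right
    (add_le_add (Finset.sum_le_sum fun a _ => by split_ifs <;> simp [h _]) (h _)) (den_pos _ _).le

lemma Tv_col {s : S} (hs : s ∈ D) {a : A s} {b : B s} (h : δ s a b ∉ D) :
    0 ≤ exc0 δ g D s b (Tv δ g D) + (g (δ s a b) - Tv δ g D) :=
  le_fx.1 (ciInf_le (f := fun p : Xt δ D => fx δ g D p.1.1 p.1.2.1 p.1.2.2)
    (Finite.bddBelow_range _) ⟨⟨s, a, b⟩, hs, h⟩)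

lemma Tv_le {s : S} (hs : s ∈ D) {b : B s} (h0 : ∃ a, δ s a b ∉ D) {c : ℝ}
    (h : ∀ a, δ s a b ∉ D → g (δ s a b) ≤ c) : Tv δ g D ≤ c := by
  obtain ⟨a, ha⟩ := h0
  exact (ciInf_le (f := fun p : Xt δ D => fx δ g D p.1.1 p.1.2.1 p.1.2.2)
    (Finite.bddBelow_range _) ⟨⟨s, a, b⟩, hs, ha⟩).trans
      (fx_le.2 (add_nonpos (exc0_nonpos h) (sub_nonpos.2 (h a ha))))

lemma Tv_eq {s : S} (hs : s ∈ D) {b : B s} (h : exc0 δ g D s b (Tv δ g D) ≤ 0) (a : A s)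
    (ha : δ s a b ∉ D) : g (δ s a b) = Tv δ g D := by
  have n : ∀ a ∈ univ, 0 ≤ if Out δ D s a b then g (δ s a b) - Tv δ g D else 0 := fun a _ => by
    by_cases k : Out δ D s a b
    · rw [if_pos k]
      linarith [Tv_col (g := g) hs k]
    · rw [if_neg k]
  have := (Finset.sum_eq_zero_iff_of_nonneg n).1 (le_antisymm h (Finset.sum_nonneg n)) a (mem_univ _)
  rw [if_pos (show Out δ D s a b from ha)] at this
  linarith

lemma exc0_Tv {s : S} (hs : s ∈ D) (b : B s) : 0 ≤ exc0 δ g D s b (Tv δ g D) := by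
  refine not_lt.1 fun h => h.ne (Finset.sum_eq_zero fun a _ => ?_)
  by_cases k : Out δ D s a b
  · rw [if_pos k, Tv_eq hs h.le a k, sub_self]
  · rw [if_neg k]

variable [∀ s, Nonempty (A s)] [∀ s, Nonempty (B s)]

omit [Finite S] [∀ s, Nonempty (B s)] in
lemma lc_ne {Λ : Set ℝ} {z : S} {j : ∀ s, B s} {s : S} (hs : s ≠ z) (hj : Stay δ D s (j s))
    (h : ∀ t ∈ Λ, ∀ b, 0 ≤ exc0 δ g D s b t) : ∃ X Y n,
      (∀ t, X t ∈ stdSimplex ℝ (A s) ∧ Y t ∈ stdSimplex ℝ (B s)) ∧ Lc δ g D Λ z j s X Y n :=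
  ⟨_, _, _, fun _ => ⟨unif_mem, pure_mem (j s)⟩,
    fun t ht => gd_unif ht (fun a k => absurd (hj a) k) (h t ht),
    fun _ t _ => ⟨fun b => by by_cases e : j s = b <;> simp [e, Ne.symm], fun a => if_neg (not_not.2 (hj a))⟩,
    fun e => absurd e hs⟩

theorem exists_md (hD : EC δ U D) (hx : ∃ s ∈ D, ∃ a b, δ s a b ∉ D) (h0 : 0 ≤ g) (h1 : g ≤ 1) :
    ∃ Λ z j, Md δ g D Λ z j ∧ ∀ s ∈ D, ∃ X Y n,
      (∀ t, X t ∈ stdSimplex ℝ (A s) ∧ Y t ∈ stdSimplex ℝ (B s)) ∧ Lc δ g D Λ z j s X Y n := by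
  obtain ⟨s0, hs0, a0, b0, hx⟩ := hx
  by_cases hd : Deg δ g D
  · obtain ⟨z, hz, b, k1, k2⟩ := hd
    obtain ⟨j, j1, j2⟩ := hD.path hz
    refine ⟨{Tv δ g D}, z, j, ⟨?_, rfl, fun _ => le_rfl, hz, j1, j2⟩, fun s hs => ?_⟩
    · rintro _ rfl
      exact ⟨Tv_nonneg h0, Tv_le hs0 ⟨a0, hx⟩ fun a _ => h1 _⟩
    · by_cases e : s = z
      · subst e
        refine ⟨_, _, _, fun _ => ⟨unif_mem, pure_mem b⟩, fun t ht => gd_unif ht ?_ ?_,
          fun k => absurd rfl k, fun _ => ex_unif k1⟩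
        · exact ht ▸ k2
        · exact ht ▸ exc0_Tv hs
      · exact lc_ne e (j1 s hs) fun t ht => ht ▸ exc0_Tv hs
  have p1 : ∀ p : Xt δ D, 0 < exc0 δ g D p.1.1 p.1.2.2 (Tv δ g D) := fun p =>
    not_le.1 fun h => hd ⟨_, p.2.1, p.1.2.2, ⟨_, p.2.2⟩, Tv_eq p.2.1 h⟩
  have : Nonempty (Xt δ D) := ⟨⟨⟨s0, a0, b0⟩, hs0, hx⟩⟩
  obtain ⟨⟨⟨z, a, b⟩, hz, k⟩, hp⟩ := exists_eq_ciInf_of_finite
    (f := fun p : Xt δ D => fx δ g D p.1.1 p.1.2.1 p.1.2.2)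
  have lo : g (δ z a b) < Tv δ g D := by
    have m1 := fx_le.1 (show fx δ g D z a b ≤ Tv δ g D from hp.le)
    have m2 : 0 < exc0 δ g D z b (Tv δ g D) := p1 ⟨⟨z, a, b⟩, hz, k⟩
    linarith
  have ev : ∀ᶠ τ in 𝓝 (Tv δ g D), ∀ p : Xt δ D, 0 < exc0 δ g D p.1.1 p.1.2.2 τ := by
    refine eventually_all.2 fun p => ContinuousAt.eventually_lt continuousAt_const ?_ (p1 p)
    refine (continuous_finsetSum _ fun a _ => ?_).continuousAt
    split_ifs <;> fun_prop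
  obtain ⟨τ, t1, t2⟩ := ((ev.filter_mono nhdsWithin_le_nhds).and
    (self_mem_nhdsWithin (s := Set.Ioi (Tv δ g D)))).exists
  have t3 : τ ≤ 1 := not_lt.1 fun h =>
    (t1 ⟨⟨z, a, b⟩, hz, k⟩).not_ge (exc0_nonpos fun a _ => (h1 _).trans h.le)
  have t4 : ∀ t ∈ Set.Ioo (g (δ z a b)) τ, ∀ s ∈ D, ∀ b, (∃ a, δ s a b ∉ D) →
      0 < exc0 δ g D s b t := fun t ht s hs b ⟨a, ha⟩ =>
    (t1 ⟨⟨s, a, b⟩, hs, ha⟩).trans_le (Finset.sum_le_sum fun a _ => by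
      split_ifs
      exacts [sub_le_sub_left ht.2.le _, le_rfl])
  obtain ⟨j, j1, j2⟩ := hD.path hz
  refine ⟨Set.Ioo (g (δ z a b)) τ, z, j, ⟨fun t ht => ⟨(h0 _).trans ht.1.le, ht.2.le.trans t3⟩,
    ⟨lo, t2⟩, fun h => absurd h hd, hz, j1, j2⟩, fun s hs => ?_⟩
  by_cases e : s = z
  · subst e
    obtain ⟨X, Y, n, m1, m2, m3⟩ := exists_walk (Out δ D s) (fun a b => g (δ s a b))
      (fun a b => ⟨h0 _, h1 _⟩) (fun a => not_not.2 (j1 s hs a)) (h0 _) t3 k rfl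
      fun t ht b => t4 t ht s hs b
    exact ⟨X, Y, n, m1, m2, fun k => absurd rfl k, fun _ => m3⟩
  · refine lc_ne e (j1 s hs) fun t ht b => ?_
    by_cases h : ∃ a, δ s a b ∉ D
    · exact (t4 t ht s hs b h).le
    · exact Finset.sum_nonneg fun a _ => by rw [if_neg fun k : Out δ D s a b => h ⟨a, k⟩]

variable {Λ : Set ℝ} {z : S} {j : ∀ s, B s} {X : ℝ → ∀ s, A s → ℝ} {Y : ℝ → ∀ s, B s → ℝ}
  {n : ℝ → ∀ s, A s → B s → ℝ}

omit [Finite S] [∀ s, Nonempty (A s)] [∀ s, Nonempty (B s)] in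
lemma md_exit (hM : Md δ g D Λ z j)
    (hL : ∀ s ∈ D, Lc δ g D Λ z j s (X · s) (Y · s) (n · s)) (hg : ∀ s ∈ D, g s = Tv δ g D)
    {R : Set S} (hR : ∀ s ∈ R, s ∈ D → ∀ a b, 0 < X (g s) s a → 0 < Y (g s) s b →
      n (g s) s a b = g (δ s a b) → δ s a b ∈ R) {u : S} (hu : u ∈ R) (hD : u ∈ D) :
    ∃ s ∈ D, ∃ b, (∃ a, δ s a b ∉ D) ∧ ∀ a, δ s a b ∉ D → δ s a b ∈ R := by
  obtain ⟨-, m1, -, hz, j1, j2⟩ := hM
  have m : ∀ s ∈ D, g s ∈ Λ := fun s hs => hg s hs ▸ m1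
  have : z ∈ R := j2 R (fun s hs hs' e a => by
    have k := (hL s hs').2.1 e _ (m s hs')
    exact hR s hs hs' a _ (((hL s hs').1 _ (m s hs')).1 a) ((k.1 _).2 rfl)
      ((k.2 a).trans ((hg s hs').trans (hg _ (j1 s hs' a)).symm))) u hu hD
  obtain ⟨b, k1, k2⟩ := ((hL z hz).2.2 rfl).1 _ (m z hz)
  have k := (hL z hz).1 _ (m z hz)
  exact ⟨z, hz, b, k1, fun a ha => hR z this hz a b (k.1 a) k2 ((k.2.1 a b).2 ha)⟩

omit [∀ s, Nonempty (A s)] [∀ s, Nonempty (B s)] in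
lemma md_kill (hM : Md δ g D Λ z j)
    (hL : ∀ s ∈ D, Lc δ g D Λ z j s (X · s) (Y · s) (n · s)) (hX : Dist X) (hY : Dist Y)
    {q : ℝ → S → ℝ} {M : ℝ} (h0 : 0 ≤ M) (h1 : ∀ t s, q t s ≤ 1)
    (h2 : ∀ s ∈ D, ∀ a b, δ s a b ∉ D → q (g (δ s a b)) (δ s a b) ≤ M)
    (h3 : ∀ s ∈ D, ∀ t ∈ Λ, q t s ≤ ∑ a, ∑ b, X t s a * Y t s b * q (n t s a b) (δ s a b)) :
    ∀ s ∈ D, ∀ t ∈ Λ, q t s ≤ M := by
  obtain ⟨-, -, -, hz, j1, j2⟩ := hM
  choose am a1 a2 using fun t => Set.exists_max_image D (q t) (Set.toFinite _) ⟨z, hz⟩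
  have e : ∀ t ∈ Λ, q t z = q t (am t) := fun t ht => by
    refine j2 {s | q t s = q t (am t)} (fun s hs hs' e a => ?_) _ rfl (a1 t)
    have k := (hL s hs').2.1 e t ht
    have := eq_of_avg (hX t s) (hY t s) (m := q t (am t)) (fun a b _ hb => ?_)
      (hs.ge.trans (h3 s hs' t ht)) (((hL s hs').1 t ht).1 a) ((k.1 _).2 rfl)
    · exact (congrArg (q · _) (k.2 a)).symm.trans this
    · obtain rfl := (k.1 b).1 hb
      exact (congrArg (q · _) (k.2 a)).trans_le (a2 t _ (j1 s hs' a))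
  have := ((hL z hz).2.2 rfl).2 (fun t => q t (am t) - M) (fun t _ => by linarith [h1 t (am t)])
    fun t ht => ?_
  · exact fun s hs t ht => (a2 t s hs).trans (sub_nonpos.1 (this t ht))
  · rw [← e t ht, sub_le_iff_le_add]
    refine le_trans ?_ (add_le_add_right (avg_const (hX t z) (hY t z) M).le _)
    simp only [← Finset.sum_add_distrib, ← mul_add]
    refine (h3 z hz t ht).trans (avg_le (hX t z) (hY t z) fun a b => ?_)
    have k := ((hL z hz).1 t ht).2.1 a b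
    by_cases h : Out δ D z a b
    · rw [if_pos h, zero_add]
      exact (congrArg (q · _) (k.2 h)).trans_le (h2 z hz a b h)
    · rw [if_neg h, sub_add_cancel]
      exact a2 _ _ (not_not.1 h)

end Pool.Agent.P.MP_0c5457_lc
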