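import Pool.Agent.P.MP_0c5457_lc.ObsFix
import Pool.Agent.P.MP_0c5457_lc.Label

set_option autoImplicit false

/-! Error bounds for cones, the order of the states of one value, the maximum principle. -/

namespace Pool.Agent.P.MP_0c5457_lc

open Finset Classical Relation

lemma exists_eta {α κ : Type} [Fintype α] [Fintype κ] (M : κ → α → ℝ) : ∃ η : ℝ, 0 < η ∧
    ∀ (J : κ → Prop), ∀ x ∈ stdSimplex ℝ α, ∀ e : ℝ, 0 ≤ e → e ≤ 1 →
      (∀ k, J k → -(η * e) ≤ ∑ a, x a * M k a) → ∃ x' ∈ stdSimplex ℝ α,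
        (∀ a, 0 < x' a → 0 < x a) ∧ (∀ k, J k → 0 ≤ ∑ a, x' a * M k a) ∧
        ∀ (φ : α → ℝ) (m : ℝ), 0 ≤ m → (∀ a, φ a ≤ 1) → (∀ a, 0 < x' a → φ a ≤ m) →
          ∑ a, x a * φ a ≤ m + e / 4 := by
  have key : ∀ q : (α → Prop) × (κ → Prop) × α, ∃ (x' : α → ℝ) (p : ℝ), (∀ a, 0 ≤ x' a) ∧
      (∀ a, ¬q.1 a → x' a ≤ 0) ∧ (∀ k, q.2.1 k → 0 ≤ ∑ a, x' a * M k a) ∧ (0 < x' q.2.2 ∨
        ∀ x : α → ℝ, (∀ a, 0 ≤ x a) → (∀ a, ¬q.1 a → x a ≤ 0) → ∀ t, 0 ≤ t →
          (∀ k, q.2.1 k → -t ≤ ∑ a, x a * M k a) → x q.2.2 ≤ |p| * t) := by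
    rintro ⟨I, J, a0⟩
    let f : α ⊕ α ⊕ κ → (α → ℝ) →ₗ[ℝ] ℝ := Sum.elim (fun a => LinearMap.proj a) (Sum.elim
      (fun a => if I a then 0 else -LinearMap.proj a)
      fun k => if J k then ∑ a, M k a • LinearMap.proj a else 0)
    have f1 : ∀ a x, f (.inl a) x = x a := fun a x => rfl
    have f2 : ∀ a x, f (.inr (.inl a)) x = if I a then 0 else -x a := fun a x => by
      simp only [f, Sum.elim_inr, Sum.elim_inl]
      split_ifs <;> simp
    have f3 : ∀ k x, f (.inr (.inr k)) x = if J k then ∑ a, x a * M k a else 0 := fun k x => by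
      simp only [f, Sum.elim_inr]
      split_ifs <;> simp [mul_comm]
    rcases farkas univ f (LinearMap.proj a0) with ⟨x, k1, k2⟩ | ⟨y, k1, k2⟩
    · refine ⟨x, 0, fun a => k1 (.inl a) (mem_univ _), fun a h => ?_, fun k h => ?_, Or.inl k2⟩
      · have := k1 (.inr (.inl a)) (mem_univ _)
        rw [f2, if_neg h] at this
        linarith
      · have := k1 (.inr (.inr k)) (mem_univ _)
        rwa [f3, if_pos h] at this
    · refine ⟨0, ∑ i, y i, fun _ => le_rfl, fun _ _ => le_rfl, by simp,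
        Or.inr fun x h1 h2 t ht h3 => ?_⟩
      have a1 : ∑ i, y i * -t ≤ ∑ i, y i * f i x :=
        sum_le_sum fun i _ => mul_le_mul_of_nonneg_left (by
          rcases i with a | a | k
          · linarith [h1 a, f1 a x]
          · rw [f2]
            split_ifs with h
            · linarith
            · linarith [h2 a h]
          · rw [f3]
            split_ifs with h
            · exact h3 k h
            · linarith) (k1 i)
      have a2 := k2 x
      rw [← Finset.sum_mul] at a1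
      rw [abs_of_nonneg (sum_nonneg fun i _ => k1 i)]
      change x a0 + _ = 0 at a2
      change x a0 ≤ _
      linarith
  choose X p k1 k2 k3 k4 using key
  obtain ⟨P, hP0, hP⟩ : ∃ P : ℝ, 0 ≤ P ∧ ∀ q, |p q| ≤ P := ⟨∑ q, |p q|,
    sum_nonneg fun _ _ => abs_nonneg _,
    fun q => single_le_sum (f := fun q => |p q|) (fun _ _ => abs_nonneg _) (mem_univ q)⟩
  have hc : (0 : ℝ) < 4 * (Fintype.card α * P + 1) := by positivity
  refine ⟨1 / (4 * (Fintype.card α * P + 1)), by positivity, fun J x hx e e0 e1 hv => ?_⟩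
  generalize hη : 1 / (4 * (Fintype.card α * P + 1)) = η at hv
  have η0 : 0 ≤ η := by rw [← hη]; positivity
  have η1 : Fintype.card α * P * η ≤ 1 / 4 := by
    rw [← hη, mul_one_div, div_le_iff₀ hc]
    linarith
  let w : α → ℝ := fun a => ∑ a', X (fun a => 0 < x a, J, a') a
  have w0 : ∀ a, 0 ≤ w a := fun a => sum_nonneg fun _ _ => k1 _ _
  have w1 : ∀ (φ : α → ℝ) (m : ℝ), 0 ≤ m → (∀ a, φ a ≤ 1) → (∀ a, 0 < w a → φ a ≤ m) →
      ∑ a, x a * φ a ≤ m + e / 4 := fun φ m m0 h1 h2 => by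
    have : ∑ a, x a * φ a ≤ ∑ a, (x a * m + P * (η * e)) := sum_le_sum fun a _ => by
      have b0 : 0 ≤ P * (η * e) := by positivity
      rcases k4 (fun a => 0 < x a, J, a) with h | h
      · have := h2 a (h.trans_le (single_le_sum (f := fun a' => X (fun a => 0 < x a, J, a') a)
          (fun _ _ => k1 _ _) (mem_univ a)))
        nlinarith [hx.1 a]
      · have b1 := (h x hx.1 (fun a => not_lt.1) _ (by positivity) hv).trans
          (mul_le_mul_of_nonneg_right (hP _) (by positivity))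
        dsimp only at b1
        nlinarith [hx.1 a, h1 a, mul_nonneg (hx.1 a) m0]
    rw [sum_add_distrib, ← Finset.sum_mul, hx.2, sum_const, card_univ, nsmul_eq_mul] at this
    nlinarith [mul_le_mul_of_nonneg_right η1 e0]
  have w2 : 0 < ∑ a, w a := by
    refine (sum_nonneg fun a _ => w0 a).lt_of_ne fun h => ?_
    have := w1 (fun _ => 1) 0 le_rfl (fun _ => le_rfl) fun a k =>
      absurd ((sum_eq_zero_iff_of_nonneg fun a _ => w0 a).1 h.symm a (mem_univ a)) k.ne'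
    simp only [mul_one, hx.2] at this
    linarith
  refine ⟨_, norm_mem w0 w2, fun a h => not_le.1 fun h' => ?_, fun k h => ?_,
    fun φ m m0 h1 h2 => w1 φ m m0 h1 fun a k => h2 a (div_pos k w2)⟩
  · exact absurd h (not_lt.2 (div_nonpos_of_nonpos_of_nonneg
      (sum_nonpos fun _ _ => k2 _ a (not_lt.2 h')) w2.le))
  · simp only [div_mul_eq_mul_div, ← Finset.sum_div]
    refine div_nonneg ?_ w2.le
    simp only [w, Finset.sum_mul]
    rw [sum_comm]
    exact sum_nonneg fun _ _ => k3 _ k h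

lemma exists_order {S : Type} [Finite S] (G : S → Set S → Prop) (E : Set S)
    (h : ∀ D ⊆ E, D.Nonempty → ∃ s ∈ D, G s D) : ∃ C : S → Set S,
      (∀ s ∈ E, C s ⊆ E ∧ G s (C s)) ∧ ∀ D ⊆ E, D.Nonempty → ∃ s ∈ D, D ⊆ C s := by
  induction hn : E.ncard using Nat.strong_induction_on generalizing E with
  | _ n ih =>
  rcases E.eq_empty_or_nonempty with rfl | hE
  · exact ⟨fun _ => ∅, by simp, fun D k ⟨s, hs⟩ => (k hs).elim⟩
  obtain ⟨s, hs, hG⟩ := h E le_rfl hE
  obtain ⟨C, h1, h2⟩ := ih _ (hn ▸ Set.ncard_sdiff_singleton_lt_of_mem hs) (E \ {s})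
    (fun D k => h D (k.trans Set.sdiff_subset)) rfl
  refine ⟨fun t => if t = s then E else C t, fun t ht => ?_, fun D k k' => ?_⟩
  · dsimp only
    split_ifs with e
    · exact ⟨le_rfl, e ▸ hG⟩
    · exact ⟨(h1 t ⟨ht, e⟩).1.trans Set.sdiff_subset, (h1 t ⟨ht, e⟩).2⟩
  · by_cases e : s ∈ D
    · exact ⟨s, e, by simpa using k⟩
    · obtain ⟨t, ht, k2⟩ := h2 D (fun t ht => ⟨k ht, fun e' => e (e' ▸ ht)⟩) k'
      exact ⟨t, ht, by simpa only [if_neg (fun e' : t = s => e (e' ▸ ht))] using k2⟩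

variable {S : Type} [Fintype S] {A B : S → Type} [∀ s, Fintype (A s)] [∀ s, Fintype (B s)]

/-- the support graph of a stationary profile -/
def Sp (δ : ∀ s, A s → B s → S) (x : ∀ s, A s → ℝ) (y : ∀ s, B s → ℝ) (u v : S) : Prop :=
  ∃ a b, 0 < x u a ∧ 0 < y u b ∧ δ u a b = v

lemma maxp {δ : ∀ s, A s → B s → S} {x : ∀ s, A s → ℝ} {y : ∀ s, B s → ℝ}
    (hx : ∀ s, x s ∈ stdSimplex ℝ (A s)) (hy : ∀ s, y s ∈ stdSimplex ℝ (B s)) {Z : Set S}
    {q : S → ℝ} (h0 : ∀ s ∈ Z, q s ≤ 0)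
    (h1 : ∀ s ∉ Z, q s ≤ ∑ a, ∑ b, x s a * y s b * q (δ s a b))
    (h2 : ∀ s, ∃ t ∈ Z, ReflTransGen (Sp δ x y) s t) (s : S) : q s ≤ 0 := by
  have : Nonempty S := ⟨s⟩
  obtain ⟨s0, hm⟩ := Finite.exists_max q
  obtain ⟨t, ht, k⟩ := h2 s0
  refine (hm s).trans ?_
  have : ∀ v, ReflTransGen (Sp δ x y) v t → q v = q s0 → q s0 ≤ 0 := fun v k => by
    induction k using ReflTransGen.head_induction_on with
    | refl => exact fun e => e ▸ h0 t ht
    | @head v _ k _ ih =>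
      intro e
      by_cases hv : v ∈ Z
      · exact e ▸ h0 v hv
      obtain ⟨a, b, ha, hb, rfl⟩ := k
      exact ih (eq_of_avg (hx v) (hy v) (f := fun a b => q (δ v a b)) (fun _ _ _ _ => hm _)
        (e ▸ h1 v hv) ha hb)
  exact this s0 k rfl

variable [∀ s, Nonempty (A s)] [∀ s, Nonempty (B s)]

theorem exists_value (δ : ∀ s, A s → B s → S) (T : Set S) : ∃ (g : S → ℝ) (p : ∀ s, A s → ℝ)
    (C : S → Set S), (∀ s, 0 ≤ g s ∧ g s ≤ 1) ∧ (∀ s ∈ T, g s = 1) ∧
      (∀ s, ¬Rch δ T s → g s ≤ 0) ∧ (∀ s, p s ∈ stdSimplex ℝ (A s)) ∧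
      (∀ s ∉ T, ∀ b, ∑ a, p s a * g (δ s a b) ≤ g s) ∧
      (∀ s ∉ T, ∀ x ∈ stdSimplex ℝ (A s), ∃ b, g s ≤ ∑ a, x a * g (δ s a b)) ∧
      (∀ s ∉ T, 0 < g s → (∀ t ∈ C s, g t = g s) ∧ ∀ x ∈ stdSimplex ℝ (A s), ∀ η : ℝ, 0 < η →
        ∃ b, g s < ∑ a, x a * (g (δ s a b) + η * if δ s a b ∈ C s then 0 else 1)) ∧
      ∀ c : ℝ, 0 < c → ∀ D : Set S, (∀ t ∈ D, t ∉ T ∧ g t = c) → D.Nonempty →
        ∃ s ∈ D, D ⊆ C s := by
  obtain ⟨g, h1, h2, h3, h4⟩ := exists_lfp (fun g s => if s ∈ T then 1 else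
    vl fun (b : B s) (a : A s) => g (δ s a b)) (fun g g' h s => by
      dsimp only
      split_ifs
      exacts [le_rfl, vl_mono fun _ _ => h _]) (fun s => by
      dsimp only
      split_ifs
      exacts [zero_le_one, (vl_const 0).symm.le]) fun s => by
      dsimp only
      split_ifs
      exacts [le_rfl, (vl_const 1).le]
  have e : ∀ s ∉ T, (vl fun (b : B s) (a : A s) => g (δ s a b)) = g s := fun s hs =>
    (if_neg hs).symm.trans (congrFun h1 s)
  have eT : ∀ s ∈ T, g s = 1 := fun s hs => (congrFun h1 s).symm.trans (if_pos hs)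
  choose p hp hp' using fun s =>
    (exists_val fun (b : B s) (a : A s) => g (δ s a b)).choose_spec.1
  have hp2 : ∀ s ∉ T, ∀ b, ∑ a, p s a * g (δ s a b) ≤ g s := fun s hs b => (hp' s b).trans (e s hs).le
  have hG : ∀ c : ℝ, ∀ D ⊆ {t | 0 < c ∧ t ∉ T ∧ g t = c}, D.Nonempty → ∃ s ∈ D,
      ∀ x ∈ stdSimplex ℝ (A s), ∀ η : ℝ, 0 < η →
        ∃ b, g s < ∑ a, x a * (g (δ s a b) + η * if δ s a b ∈ D then 0 else 1) := by
    intro c D hD ⟨s0, hs0⟩
    by_contra hc
    push Not at hc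
    choose! X hX η hη hb using hc
    obtain ⟨s1, hs1, hm⟩ := Set.exists_min_image D η (Set.toFinite _) ⟨s0, hs0⟩
    obtain ⟨ε, ε0, ε1, ε2⟩ : ∃ ε : ℝ, 0 < ε ∧ ε ≤ c ∧ ∀ s ∈ D, ε ≤ η s :=
      ⟨min c (η s1), lt_min (hD hs0).1 (hη s1 hs1), min_le_left _ _,
        fun s hs => (min_le_right _ _).trans (hm s hs)⟩
    have := h4 (fun t => g t - ε * if t ∈ D then 1 else 0) (fun t => by
      dsimp only
      split_ifs with h
      · simpa [(hD h).2.2] using ε1
      · simpa using h2 t) (fun s => by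
      dsimp only
      by_cases hs : s ∈ D
      · rw [if_neg (hD hs).2.1, if_pos hs]
        refine vl_le (hX s hs) fun b => le_trans ?_ (sub_le_sub_right (hb s hs b) _)
        have e1 : ε * 1 = ∑ a, ε * X s a := by rw [← Finset.mul_sum, (hX s hs).2]
        rw [e1, ← Finset.sum_sub_distrib]
        refine sum_le_sum fun a _ => ?_
        have := (hX s hs).1 a
        have := ε2 s hs
        split_ifs <;> nlinarith
      · rw [if_neg hs, mul_zero, sub_zero]
        split_ifs with h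
        · exact (eT s h).ge
        · refine (vl_mono fun b a => ?_).trans (e s h).le
          split_ifs <;> linarith) s0
    simp only [if_pos hs0] at this
    linarith
  choose C c1 c2 using fun c => exists_order _ _ (hG c)
  refine ⟨g, p, fun s => C (g s) s, fun s => ⟨h2 s, h3 s⟩, eT, fun s hs => ?_, hp, hp2,
    fun s hs x hx => ?_, fun s hs h => ⟨fun t ht => ((c1 _ s ⟨h, hs, rfl⟩).1 ht).2.2,
      (c1 _ s ⟨h, hs, rfl⟩).2⟩, fun c hc D hD k => ?_⟩
  · have := h4 (fun t => if Rch δ T t then 1 else 0) (fun t => by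
      dsimp only
      split_ifs <;> simp) (fun t => by
      dsimp only
      by_cases h : Rch δ T t
      · rw [if_pos h]
        split_ifs
        · rfl
        · exact vl_le (hp t) fun b => avg1_le (hp t) fun a => by split_ifs <;> simp
      · rw [if_neg h, if_neg fun k => h (Rch.of_mem k)]
        exact vl_le (hp t) fun b => avg1_le (hp t) fun a => (if_neg fun k => h k.head).le) s
    simpa [hs] using this
  · rw [← e s hs]
    exact (exists_val fun (b : B s) (a : A s) => g (δ s a b)).choose_spec.2 x hx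
  · obtain ⟨s, hs, k'⟩ := c2 c D (fun t ht => ⟨hc, hD t ht⟩) k
    exact ⟨s, hs, by simpa only [(hD s hs).2] using k'⟩

end Pool.Agent.P.MP_0c5457_lc
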