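import Mathlib

set_option autoImplicit false

/-! Farkas lemma, saddle points with strict complementarity, least fixed points. -/

namespace Pool.Agent.P.MP_0c5457_lc

open Finset

theorem farkas {V ι : Type} [AddCommGroup V] [Module ℝ V] [DecidableEq ι] (J : Finset ι)
    (f : ι → V →ₗ[ℝ] ℝ) (g : V →ₗ[ℝ] ℝ) : (∃ x, (∀ i ∈ J, 0 ≤ f i x) ∧ 0 < g x) ∨
      ∃ y : ι → ℝ, (∀ i, 0 ≤ y i) ∧ ∀ v, g v + ∑ i ∈ J, y i * f i v = 0 := by
  induction J using Finset.induction_on generalizing f g with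
  | empty =>
    by_cases h : ∃ v, g v ≠ 0
    · obtain ⟨v, hv⟩ := h
      rcases lt_or_gt_of_ne hv with h | h
      · exact Or.inl ⟨-v, by simp, by simpa using h⟩
      · exact Or.inl ⟨v, by simp, h⟩
    · push Not at h
      exact Or.inr ⟨0, fun _ => le_rfl, by simpa using h⟩
  | insert k J hk ih =>
    have up : ∀ (y : ι → ℝ) (c : ℝ) (v : V),
        ∑ i ∈ J, Function.update y k c i * f i v = ∑ i ∈ J, y i * f i v := fun y c v =>
      Finset.sum_congr rfl fun i hi => by rw [Function.update_of_ne (ne_of_mem_of_not_mem hi hk)]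
    rcases ih f g with ⟨x, h1, h2⟩ | ⟨y, h1, h2⟩
    · by_cases h3 : 0 ≤ f k x
      · exact Or.inl ⟨x, Finset.forall_mem_insert _ _ _ |>.2 ⟨h3, h1⟩, h2⟩
      push Not at h3
      let p : V →ₗ[ℝ] V := LinearMap.id - ((f k x)⁻¹ • f k).smulRight x
      have hp : ∀ (l : V →ₗ[ℝ] ℝ) v, l (p v) = l v + l x / (-f k x) * f k v := fun l v => by
        simp only [p, LinearMap.sub_apply, LinearMap.id_apply, LinearMap.smulRight_apply,
          LinearMap.smul_apply, map_sub, map_smul, smul_eq_mul]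
        field_simp
        ring
      rcases ih (fun i => (f i).comp p) (g.comp p) with ⟨v, k1, k2⟩ | ⟨y, k1, k2⟩
      · refine Or.inl ⟨p v, Finset.forall_mem_insert _ _ _ |>.2 ⟨?_, k1⟩, k2⟩
        rw [hp, div_neg, div_self h3.ne]
        simp
      · refine Or.inr ⟨Function.update y k (g x / (-f k x) + ∑ i ∈ J, y i * (f i x / (-f k x))),
          fun i => ?_, fun v => ?_⟩
        · rcases eq_or_ne i k with rfl | h
          · rw [Function.update_self]
            exact add_nonneg (div_nonneg h2.le (by linarith)) (Finset.sum_nonneg fun i hi =>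
              mul_nonneg (k1 i) (div_nonneg (h1 i hi) (by linarith)))
          · rw [Function.update_of_ne h]
            exact k1 i
        · rw [Finset.sum_insert hk, Function.update_self, up]
          have := k2 v
          simp only [LinearMap.comp_apply, hp, mul_add, Finset.sum_add_distrib] at this
          rw [add_mul, Finset.sum_mul]
          simp only [mul_assoc]
          linarith
    · refine Or.inr ⟨Function.update y k 0, fun i => ?_, fun v => ?_⟩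
      · rcases eq_or_ne i k with rfl | h
        · rw [Function.update_self]
        · rw [Function.update_of_ne h]
          exact h1 i
      · rw [Finset.sum_insert hk, Function.update_self, up, zero_mul, zero_add]
        exact h2 v

variable {α β : Type} [Fintype α] [Fintype β]

lemma norm_mem {x : α → ℝ} (h : ∀ a, 0 ≤ x a) (h0 : 0 < ∑ a, x a) :
    (fun a => x a / ∑ a, x a) ∈ stdSimplex ℝ α :=
  ⟨fun a => div_nonneg (h a) h0.le, by rw [← Finset.sum_div, div_self h0.ne']⟩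

/-- the value for the minimising column player -/
lemma exists_val [Nonempty α] [Nonempty β] (M : α → β → ℝ) : ∃ c : ℝ,
    (∃ y ∈ stdSimplex ℝ β, ∀ a, ∑ b, y b * M a b ≤ c) ∧
      ∀ y ∈ stdSimplex ℝ β, ∃ a, c ≤ ∑ b, y b * M a b := by
  classical
  let F : (β → ℝ) → ℝ := fun y => univ.sup' univ_nonempty fun a => ∑ b, y b * M a b
  have hF : Continuous F := Continuous.finset_sup'_apply _ fun a _ => by fun_prop
  obtain ⟨y, hy, hm⟩ := (isCompact_stdSimplex ℝ β).exists_isMinOn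
    ⟨_, single_mem_stdSimplex ℝ (Classical.arbitrary β)⟩ hF.continuousOn
  refine ⟨F y, ⟨y, hy, fun a => Finset.le_sup' (fun a => ∑ b, y b * M a b) (mem_univ a)⟩,
    fun y' hy' => ?_⟩
  obtain ⟨a, -, ha⟩ := Finset.exists_mem_eq_sup' univ_nonempty fun a => ∑ b, y' b * M a b
  exact ⟨a, ha ▸ hm hy'⟩

/-- the value of a matrix game -/
noncomputable def vl [Nonempty α] [Nonempty β] (M : α → β → ℝ) : ℝ := (exists_val M).choose

lemma vl_le [Nonempty α] [Nonempty β] {M : α → β → ℝ} {y : β → ℝ} (hy : y ∈ stdSimplex ℝ β) {c : ℝ}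
    (h : ∀ a, ∑ b, y b * M a b ≤ c) : vl M ≤ c := by
  obtain ⟨a, ha⟩ := (exists_val M).choose_spec.2 y hy
  exact ha.trans (h a)

lemma vl_mono [Nonempty α] [Nonempty β] {M M' : α → β → ℝ} (h : ∀ a b, M a b ≤ M' a b) :
    vl M ≤ vl M' := by
  obtain ⟨y, hy, k⟩ := (exists_val M').choose_spec.1
  exact vl_le hy fun a => (Finset.sum_le_sum fun b _ =>
    mul_le_mul_of_nonneg_left (h a b) (hy.1 b)).trans (k a)

lemma vl_const [Nonempty α] [Nonempty β] (c : ℝ) : vl (fun (_ : α) (_ : β) => c) = c := by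
  obtain ⟨y, hy, k⟩ := (exists_val fun (_ : α) (_ : β) => c).choose_spec.1
  have e : ∑ b, y b * c = c := by rw [← Finset.sum_mul, hy.2, one_mul]
  exact le_antisymm (vl_le hy fun _ => e.le) (e.symm.le.trans (k (Classical.arbitrary α)))

/-- a saddle point in which every unused row is strictly worse -/
theorem exists_saddle [Nonempty α] [Nonempty β] (M : α → β → ℝ) :
    ∃ x ∈ stdSimplex ℝ α, ∃ y ∈ stdSimplex ℝ β, (∀ a, ∑ b, y b * M a b ≤ vl M) ∧
      (∀ b, vl M ≤ ∑ a, x a * M a b) ∧ ∀ a, 0 < x a ∨ ∑ b, y b * M a b < vl M := by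
  classical
  obtain ⟨⟨y0, hy0, h0⟩, h1⟩ := (exists_val M).choose_spec
  change ∀ a, _ ≤ vl M at h0
  change ∀ y ∈ _, ∃ a, vl M ≤ _ at h1
  generalize vl M = c at h0 h1 ⊢
  let L : α → (β → ℝ) →ₗ[ℝ] ℝ := fun a => ∑ b, (c - M a b) • LinearMap.proj b
  have hL : ∀ a y, L a y = ∑ b, (c - M a b) * y b := fun a y => by simp [L]
  have key : ∀ a0, ∃ (y : β → ℝ) (x : α → ℝ), (∀ b, 0 ≤ y b) ∧ (∀ a, 0 ≤ L a y) ∧
      (∀ a, 0 ≤ x a) ∧ (∀ b, ∑ a, x a * (c - M a b) ≤ 0) ∧ (0 < x a0 ∨ 0 < L a0 y) := by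
    intro a0
    rcases farkas univ (Sum.elim L fun b => LinearMap.proj b) (L a0) with ⟨y, k1, k2⟩ | ⟨x, k1, k2⟩
    · exact ⟨y, 0, fun b => k1 (.inr b) (mem_univ _), fun a => k1 (.inl a) (mem_univ _),
        fun _ => le_rfl, by simp, Or.inr k2⟩
    · refine ⟨0, fun a => x (.inl a) + if a = a0 then 1 else 0, fun _ => le_rfl, by simp,
        fun a => add_nonneg (k1 _) (by split_ifs <;> simp), fun b => ?_,
        Or.inl (by simpa using add_pos_of_nonneg_of_pos (k1 (.inl a0)) one_pos)⟩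
      have := k2 (Pi.single b 1)
      simp [Fintype.sum_sum_type, hL, Pi.single_apply] at this
      simp [add_mul, Finset.sum_add_distrib]
      linarith [k1 (.inr b)]
  choose Y X k1 k2 k3 k4 k5 using key
  have y1 : ∀ b, 0 ≤ (y0 + ∑ a, Y a) b := fun b => by
    simpa using add_nonneg (hy0.1 b) (Finset.sum_nonneg fun a _ => k1 a b)
  have y2 : 0 < ∑ b, (y0 + ∑ a, Y a) b := by
    simp only [Pi.add_apply, Finset.sum_add_distrib, hy0.2, Finset.sum_apply]
    exact add_pos_of_pos_of_nonneg one_pos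
      (Finset.sum_nonneg fun b _ => Finset.sum_nonneg fun a _ => k1 a b)
  have y3 : ∀ a, 0 ≤ L a y0 := fun a => by
    have := h0 a
    rw [hL]
    simp only [sub_mul, Finset.sum_sub_distrib, ← Finset.mul_sum, hy0.2, mul_comm (M a _)]
    linarith
  have y4 : ∀ a, L a (Y a) ≤ L a (y0 + ∑ a, Y a) := fun a => by
    rw [map_add, map_sum]
    exact le_add_of_nonneg_of_le (y3 a)
      (Finset.single_le_sum (f := fun a' => L a (Y a')) (fun a' _ => k2 a' a) (mem_univ a))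
  generalize y0 + ∑ a, Y a = y at y1 y2 y4
  have y5 : ∀ a, ∑ b, y b / (∑ b, y b) * M a b = c - L a y / ∑ b, y b := fun a => by
    rw [hL]
    simp only [sub_mul, Finset.sum_sub_distrib, ← Finset.mul_sum, div_mul_eq_mul_div,
      ← Finset.sum_div, mul_comm (M a _)]
    field_simp
    ring
  have x1 : ∀ a, 0 ≤ ∑ a', X a' a := fun a => Finset.sum_nonneg fun a' _ => k3 a' a
  have x2 : ∀ a, X a a ≤ ∑ a', X a' a := fun a =>
    Finset.single_le_sum (f := fun a' => X a' a) (fun a' _ => k3 a' a) (mem_univ a)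
  have x3 : 0 < ∑ a, ∑ a', X a' a := by
    obtain ⟨a, ha⟩ := h1 _ (norm_mem y1 y2)
    rw [y5] at ha
    refine Finset.sum_pos' (fun a _ => x1 a) ⟨a, mem_univ _, ((k5 a).resolve_right fun h => ?_).trans_le
      (x2 a)⟩
    linarith [div_pos (h.trans_le (y4 a)) y2]
  refine ⟨_, norm_mem x1 x3, _, norm_mem y1 y2, fun a => ?_, fun b => ?_, fun a => ?_⟩
  · rw [y5]
    linarith [div_nonneg ((k2 a a).trans (y4 a)) y2.le]
  · have : ∑ a, (∑ a', X a' a) * (c - M a b) ≤ 0 := by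
      simp only [Finset.sum_mul]
      rw [Finset.sum_comm]
      exact Finset.sum_nonpos fun a' _ => k4 a' b
    simp only [mul_sub, Finset.sum_sub_distrib, ← Finset.sum_mul] at this
    simp only [div_mul_eq_mul_div, ← Finset.sum_div]
    rw [le_div_iff₀ x3]
    linarith
  · refine (k5 a).imp (fun h => div_pos (h.trans_le (x2 a)) x3) fun h => ?_
    rw [y5]
    linarith [div_pos (h.trans_le (y4 a)) y2]

/-- least fixed points of monotone operators -/
theorem exists_lfp {S : Type} (Ψ : (S → ℝ) → S → ℝ) (hm : Monotone Ψ) (h0 : 0 ≤ Ψ 0)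
    (h1 : Ψ 1 ≤ 1) : ∃ g, Ψ g = g ∧ 0 ≤ g ∧ g ≤ 1 ∧ ∀ g', 0 ≤ g' → Ψ g' ≤ g' → g ≤ g' := by
  let Z := {g : S → ℝ // 0 ≤ g ∧ Ψ g ≤ g}
  have : Nonempty Z := ⟨⟨1, zero_le_one, h1⟩⟩
  let g : S → ℝ := fun s => ⨅ z : Z, z.1 s
  have a1 : ∀ g', 0 ≤ g' → Ψ g' ≤ g' → g ≤ g' := fun g' k1 k2 s =>
    ciInf_le (f := fun z : Z => z.1 s) ⟨0, by rintro _ ⟨z, rfl⟩; exact z.2.1 s⟩ ⟨g', k1, k2⟩
  have a2 : 0 ≤ g := fun s => le_ciInf fun z => z.2.1 s
  have a3 : Ψ g ≤ g := fun s => le_ciInf fun z => (hm (a1 z.1 z.2.1 z.2.2) s).trans (z.2.2 s)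
  exact ⟨g, le_antisymm a3 (a1 _ (h0.trans (hm a2)) (hm a3)), a2, a1 1 zero_le_one h1, a1⟩

/-- maximum principle for one step -/
lemma eq_of_avg {x : α → ℝ} {y : β → ℝ} (hx : x ∈ stdSimplex ℝ α) (hy : y ∈ stdSimplex ℝ β)
    {f : α → β → ℝ} {m : ℝ} (h : ∀ a b, 0 < x a → 0 < y b → f a b ≤ m)
    (hm : m ≤ ∑ a, ∑ b, x a * y b * f a b) {a : α} {b : β} (ha : 0 < x a) (hb : 0 < y b) :
    f a b = m := by
  have n : ∀ a b, 0 ≤ x a * y b * (m - f a b) := fun a b => by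
    rcases (hx.1 a).eq_or_lt with e | e
    · rw [← e]; simp
    rcases (hy.1 b).eq_or_lt with e' | e'
    · rw [← e']; simp
    exact mul_nonneg (mul_pos e e').le (sub_nonneg.2 (h a b e e'))
  have s : ∑ a, ∑ b, x a * y b * (m - f a b) ≤ 0 := by
    simp only [mul_sub, Finset.sum_sub_distrib, ← Finset.sum_mul, ← Finset.mul_sum, hx.2, hy.2,
      mul_one, one_mul]
    simp only [← Finset.mul_sum, mul_assoc] at hm ⊢
    linarith
  have t : x a * y b * (m - f a b) ≤ 0 := le_trans ((Finset.single_le_sum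
    (f := fun b => x a * y b * (m - f a b)) (fun b _ => n a b) (mem_univ b)).trans
      (Finset.single_le_sum (f := fun a => ∑ b, x a * y b * (m - f a b))
        (fun a _ => Finset.sum_nonneg fun b _ => n a b) (mem_univ a))) s
  have := nonpos_of_mul_nonpos_right t (mul_pos ha hb)
  linarith [h a b ha hb]

/-- a bounded subharmonic function of a killed chain with a Lyapunov function is nonpositive -/
lemma kill {ι : Type} [Fintype ι] {Λ : Set ℝ} {w nx : ℝ → ι → ℝ} {φ ρ : ℝ → ℝ}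
    (hw : ∀ t ∈ Λ, ∀ i, 0 ≤ w t i) (hn : ∀ t ∈ Λ, ∀ i, nx t i ∈ Λ) (hφ : ∀ t ∈ Λ, 0 ≤ φ t)
    (h1 : ∀ t ∈ Λ, ∑ i, w t i * φ (nx t i) ≤ φ t)
    (h2 : ∀ K : ℝ, ∃ π > 0, ∀ t ∈ Λ, φ t ≤ K → ∑ i, w t i ≤ 1 - π)
    (h3 : ∀ t ∈ Λ, ρ t ≤ 1) (h4 : ∀ t ∈ Λ, ρ t ≤ ∑ i, w t i * ρ (nx t i)) :
    ∀ t ∈ Λ, ρ t ≤ 0 := by
  intro t0 ht0
  have key : ∀ ε > 0, ρ t0 - ε * φ t0 ≤ 0 := by
    intro ε hε
    obtain ⟨π, hπ, h2⟩ := h2 (1 / ε)
    have bd : BddAbove ((fun t => ρ t - ε * φ t) '' Λ) :=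
      ⟨1, by rintro _ ⟨t, ht, rfl⟩; nlinarith [h3 t ht, hφ t ht]⟩
    have le : ∀ t ∈ Λ, ρ t - ε * φ t ≤ sSup ((fun t => ρ t - ε * φ t) '' Λ) :=
      fun t ht => le_csSup bd ⟨t, ht, rfl⟩
    refine (le t0 ht0).trans (not_lt.1 fun hσ => ?_)
    obtain ⟨_, ⟨t, ht, rfl⟩, k⟩ := exists_lt_of_lt_csSup
      (Set.Nonempty.image (fun t => ρ t - ε * φ t) ⟨t0, ht0⟩)
      (show max 0 (1 - π) * sSup ((fun t => ρ t - ε * φ t) '' Λ) < _ from
        mul_lt_of_lt_one_left hσ (max_lt one_pos (by linarith)))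
    generalize sSup ((fun t => ρ t - ε * φ t) '' Λ) = σ at le hσ k
    dsimp only at k
    have k0 : 0 ≤ max 0 (1 - π) * σ := mul_nonneg (le_max_left _ _) hσ.le
    have k1 : φ t ≤ 1 / ε := by
      rw [le_div_iff₀ hε]
      nlinarith [h3 t ht]
    have k2 : ∑ i, w t i * (ρ (nx t i) - ε * φ (nx t i)) ≤ ∑ i, w t i * σ :=
      Finset.sum_le_sum fun i _ => mul_le_mul_of_nonneg_left (le _ (hn t ht i)) (hw t ht i)
    simp only [mul_sub, Finset.sum_sub_distrib, mul_left_comm _ ε, ← Finset.mul_sum,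
      ← Finset.sum_mul] at k2
    have k3 := mul_le_mul_of_nonneg_right ((h2 t ht k1).trans (le_max_right 0 _)) hσ.le
    nlinarith [h4 t ht, h1 t ht]
  by_contra hc
  push Not at hc
  have := key (ρ t0 / (φ t0 + 1)) (div_pos hc (by linarith [hφ t0 ht0]))
  have e : ρ t0 / (φ t0 + 1) * φ t0 < ρ t0 := by
    rw [div_mul_eq_mul_div, div_lt_iff₀ (by linarith [hφ t0 ht0])]
    nlinarith
  linarith

end Pool.Agent.P.MP_0c5457_lc
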