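import Pool.Agent.P.MP_0c5457_lc.Fix
import Pool.Agent.P.MP_0c5457_lc.Saddle
import Pool.Agent.P.MP_0c5457_lc.Memory

set_option autoImplicit false

/-! Perturbed stationary equilibria and their limits. -/

namespace Pool.Agent.P.MP_0c5457_lc

open Finset Filter Topology Classical

lemma exists_multi {ι : Type} [Fintype ι] {K : ι → Type} [∀ i, Fintype (K i)]
    [∀ i, Nonempty (K i)] (U : (∀ i, K i → ℝ) → ∀ i, K i → ℝ)
    (hU : ∀ i k, Continuous fun x => U x i k) : ∃ x : ∀ i, K i → ℝ,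
      (∀ i, x i ∈ stdSimplex ℝ (K i)) ∧ ∀ i k l, 0 < x i k → U x i l ≤ U x i k := by
  let mg : ((∀ i, K i) → ℝ) → ∀ i, K i → ℝ := fun w i k => ∑ f, if f i = k then w f else 0
  have hc : Continuous mg := continuous_pi fun i => continuous_pi fun k =>
    continuous_finsetSum _ fun f _ => by
      split_ifs
      exacts [continuous_apply f, continuous_const]
  obtain ⟨w, hw, h⟩ := exists_argmax (fun w f => ∑ i, U (mg w) i (f i))
    (Continuous.continuousOn (continuous_pi fun f => continuous_finsetSum _ fun i _ =>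
      (hU i (f i)).comp hc))
  refine ⟨mg w, fun i => ⟨fun k => sum_nonneg fun f _ => ?_, ?_⟩, fun i k l hk => ?_⟩
  · split_ifs
    exacts [hw.1 f, le_rfl]
  · simp only [mg]
    rw [sum_comm]
    simpa using hw.2
  · obtain ⟨f, -, hf⟩ := exists_lt_of_sum_lt
      (show ∑ f : (∀ i, K i), (0 : ℝ) < ∑ f, if f i = k then w f else 0 by simpa using hk)
    have e : f i = k := by
      by_contra e
      simp [e] at hf
    rw [if_pos e] at hf
    have := h f (Function.update f i l) hf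
    rw [← add_sum_erase _ _ (mem_univ i), ← add_sum_erase _ _ (mem_univ i)] at this
    have e2 : ∑ j ∈ univ.erase i, U (mg w) j (Function.update f i l j) =
        ∑ j ∈ univ.erase i, U (mg w) j (f j) := sum_congr rfl fun j hj => by
      rw [Function.update_of_ne (ne_of_mem_erase hj)]
    rw [e2, Function.update_self, e] at this
    linarith

variable {S : Type} [Fintype S] {A B : S → Type} [∀ s, Fintype (A s)] [∀ s, Fintype (B s)]
  [∀ s, Nonempty (A s)] [∀ s, Nonempty (B s)]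

lemma exists_fix {V : Type} [Fintype V]
    (U : (∀ s, A s → ℝ) × (∀ s, B s → ℝ) × (V → ℝ) → ∀ s, A s → ℝ)
    (U' : (∀ s, A s → ℝ) × (∀ s, B s → ℝ) × (V → ℝ) → ∀ s, B s → ℝ)
    (F : (∀ s, A s → ℝ) × (∀ s, B s → ℝ) × (V → ℝ) → V → ℝ)
    (hU : ∀ s a, Continuous fun p => U p s a) (hU' : ∀ s b, Continuous fun p => U' p s b)
    (hF : ∀ v, Continuous fun p => F p v)
    (h01 : ∀ x y w, (∀ s, x s ∈ stdSimplex ℝ (A s)) → (∀ s, y s ∈ stdSimplex ℝ (B s)) →
      (∀ v, 0 ≤ w v ∧ w v ≤ 1) → ∀ v, 0 ≤ F (x, y, w) v ∧ F (x, y, w) v ≤ 1) :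
    ∃ x y w, (∀ s, x s ∈ stdSimplex ℝ (A s)) ∧ (∀ s, y s ∈ stdSimplex ℝ (B s)) ∧
      (∀ v, 0 ≤ w v ∧ w v ≤ 1) ∧ (∀ s a a', 0 < x s a → U (x, y, w) s a' ≤ U (x, y, w) s a) ∧
      (∀ s b b', 0 < y s b → U' (x, y, w) s b' ≤ U' (x, y, w) s b) ∧
      ∀ v, w v = F (x, y, w) v := by
  let K : (S ⊕ S) ⊕ V → Type := fun i => match i with
    | .inl (.inl s) => A s
    | .inl (.inr s) => B s
    | .inr _ => Bool
  let : ∀ i, Fintype (K i) := fun i => match i with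
    | .inl (.inl s) => inferInstanceAs (Fintype (A s))
    | .inl (.inr s) => inferInstanceAs (Fintype (B s))
    | .inr _ => inferInstanceAs (Fintype Bool)
  have : ∀ i, Nonempty (K i) := fun i => match i with
    | .inl (.inl s) => inferInstanceAs (Nonempty (A s))
    | .inl (.inr s) => inferInstanceAs (Nonempty (B s))
    | .inr _ => inferInstanceAs (Nonempty Bool)
  let π : (∀ i, K i → ℝ) → (∀ s, A s → ℝ) × (∀ s, B s → ℝ) × (V → ℝ) := fun X =>
    (fun s => X (.inl (.inl s)), fun s => X (.inl (.inr s)), fun v => X (.inr v) true)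
  have hπ : Continuous π := by
    refine Continuous.prodMk (continuous_pi fun s => continuous_apply _) (Continuous.prodMk
      (continuous_pi fun s => continuous_apply _) (continuous_pi fun v => ?_))
    exact (continuous_apply (true : K (.inr v))).comp (continuous_apply _)
  obtain ⟨X, hX, h⟩ := exists_multi (K := K) (fun X i => match i with
    | .inl (.inl s) => U (π X) s
    | .inl (.inr s) => U' (π X) s
    | .inr v => fun k : Bool => cond k (F (π X) v - (π X).2.2 v) 0) (by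
      rintro ((s | s) | v) k
      · exact (hU s k).comp hπ
      · exact (hU' s k).comp hπ
      · cases k
        · exact continuous_const
        · exact ((hF v).comp hπ).sub ((continuous_apply v).comp hπ.snd.snd))
  have hs : ∀ v, X (.inr v) true + X (.inr v) false = 1 := fun v =>
    (Fintype.sum_bool (X (.inr v))).symm.trans (hX (.inr v)).2
  have hw : ∀ v, 0 ≤ (π X).2.2 v ∧ (π X).2.2 v ≤ 1 := fun v =>
    ⟨(hX (.inr v)).1 true, by
      have := (hX (.inr v)).1 false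
      change X (.inr v) true ≤ 1
      linarith [hs v]⟩
  refine ⟨(π X).1, (π X).2.1, (π X).2.2, fun s => hX (.inl (.inl s)), fun s => hX (.inl (.inr s)),
    hw, fun s a a' k => h (.inl (.inl s)) a a' k, fun s b b' k => h (.inl (.inr s)) b b' k,
    fun v => ?_⟩
  have k0 := h01 _ _ _ (fun s => hX (.inl (.inl s))) (fun s => hX (.inl (.inr s))) hw v
  have k1 : 0 < (π X).2.2 v → 0 ≤ F (π X) v - (π X).2.2 v := h (.inr v) true false
  have k2 : 0 < X (.inr v) false → F (π X) v - (π X).2.2 v ≤ 0 := h (.inr v) false true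
  have k3 : (π X).2.2 v + X (.inr v) false = 1 := hs v
  change 0 ≤ F (π X) v ∧ F (π X) v ≤ 1 at k0
  change (π X).2.2 v = F (π X) v
  rcases lt_trichotomy ((π X).2.2 v) (F (π X) v) with e | e | e
  · linarith [k2 (by linarith [k0.2])]
  · exact e
  · linarith [k1 (by linarith [k0.1])]

variable (δ : ∀ s, A s → B s → S) (Θ : Set S) (r : S → ℝ) (G : S → S → ℝ) (β : S → ℝ)

/-- equilibrium of the discounted and perturbed game -/
def Pert (d : ℝ) (x : ∀ s, A s → ℝ) (y : ∀ s, B s → ℝ) (u z : S → ℝ) : Prop :=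
  (∀ s, x s ∈ stdSimplex ℝ (A s)) ∧ (∀ s, y s ∈ stdSimplex ℝ (B s)) ∧
  (∀ s, 0 ≤ u s ∧ u s ≤ 1) ∧ (∀ s, 0 ≤ z s ∧ z s ≤ 1) ∧
  (∀ s a a', 0 < x s a → ∑ b, y s b * u (δ s a' b) ≤ ∑ b, y s b * u (δ s a b)) ∧
  (∀ s b b', 0 < y s b → ∑ a, x s a * (G s (δ s a b') + β s * z (δ s a b')) ≤
    ∑ a, x s a * (G s (δ s a b) + β s * z (δ s a b))) ∧
  (∀ s ∈ Θ, u s = r s ∧ z s = 1) ∧
  ∀ s ∉ Θ, u s = d * ∑ a, ∑ b, x s a * y s b * u (δ s a b) ∧
    z s = 1 / 2 * ∑ a, ∑ b, x s a * y s b * z (δ s a b)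

lemma exists_pert (hr : ∀ s, 0 ≤ r s ∧ r s ≤ 1) {d : ℝ} (h0 : 0 ≤ d) (h1 : d ≤ 1) :
    ∃ x y u z, Pert δ Θ r G β d x y u z := by
  obtain ⟨x, y, w, k1, k2, k3, k4, k5, k6⟩ := exists_fix (A := A) (B := B) (V := S ⊕ S)
    (fun p s a => ∑ b, p.2.1 s b * p.2.2 (.inl (δ s a b)))
    (fun p s b => ∑ a, p.1 s a * (G s (δ s a b) + β s * p.2.2 (.inr (δ s a b))))
    (fun p => Sum.elim
      (fun s => if s ∈ Θ then r s else
        d * ∑ a, ∑ b, p.1 s a * p.2.1 s b * p.2.2 (.inl (δ s a b)))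
      fun s => if s ∈ Θ then 1 else
        1 / 2 * ∑ a, ∑ b, p.1 s a * p.2.1 s b * p.2.2 (.inr (δ s a b)))
    (fun s a => by fun_prop) (fun s b => by fun_prop) (by
      rintro (s | s) <;> simp only [Sum.elim_inl, Sum.elim_inr] <;> split_ifs <;> fun_prop)
    (fun x y w hx hy hw => by
      have k : ∀ s (f : S → S ⊕ S), 0 ≤ ∑ a, ∑ b, x s a * y s b * w (f (δ s a b)) ∧
          ∑ a, ∑ b, x s a * y s b * w (f (δ s a b)) ≤ 1 := fun s f =>
        ⟨(avg_const (hx s) (hy s) 0).symm.le.trans (avg_le (hx s) (hy s) fun a b => (hw _).1),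
          (avg_le (hx s) (hy s) fun a b => (hw _).2).trans (avg_const (hx s) (hy s) 1).le⟩
      rintro (s | s) <;> simp only [Sum.elim_inl, Sum.elim_inr] <;> split_ifs
      · exact hr s
      · exact ⟨mul_nonneg h0 (k s _).1, mul_le_one₀ h1 (k s _).1 (k s _).2⟩
      · exact ⟨zero_le_one, le_rfl⟩
      · exact ⟨by linarith [(k s .inr).1], by linarith [(k s .inr).2]⟩)
  refine ⟨x, y, fun s => w (.inl s), fun s => w (.inr s), k1, k2, fun s => k3 _, fun s => k3 _,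
    k4, k5, fun s hs => ⟨?_, ?_⟩, fun s hs => ⟨?_, ?_⟩⟩
  exacts [(k6 _).trans (if_pos hs), (k6 _).trans (if_pos hs), (k6 _).trans (if_neg hs),
    (k6 _).trans (if_neg hs)]

lemma avg_pos_le {α β : Type} [Fintype α] [Fintype β] {x : α → ℝ} {y : β → ℝ}
    (hx : x ∈ stdSimplex ℝ α) (hy : y ∈ stdSimplex ℝ β) {f : α → β → ℝ} {c : ℝ}
    (h : ∀ a b, 0 < x a → 0 < y b → f a b ≤ c) : ∑ a, ∑ b, x a * y b * f a b ≤ c := by
  rw [← avg_const hx hy c]
  refine sum_le_sum fun a _ => sum_le_sum fun b _ => ?_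
  rcases (hx.1 a).eq_or_lt with e | e
  · rw [← e]; simp
  rcases (hy.1 b).eq_or_lt with e' | e'
  · rw [← e']; simp
  exact mul_le_mul_of_nonneg_left (h a b e e') (mul_pos e e').le

lemma avg1_pos_le {β : Type} [Fintype β] {y : β → ℝ} (hy : y ∈ stdSimplex ℝ β) {f : β → ℝ}
    {c : ℝ} (h : ∀ b, 0 < y b → f b ≤ c) : ∑ b, y b * f b ≤ c := by
  calc ∑ b, y b * f b ≤ ∑ b, y b * c := sum_le_sum fun b _ => by
        rcases (hy.1 b).eq_or_lt with e | e
        · rw [← e]; simp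
        · exact mul_le_mul_of_nonneg_left (h b e) e.le
    _ = c := by rw [← Finset.sum_mul, hy.2, one_mul]

lemma le_avg1 {β : Type} [Fintype β] {y : β → ℝ} (hy : y ∈ stdSimplex ℝ β) {f : β → ℝ}
    {c : ℝ} (h : ∀ b, 0 < y b → c ≤ f b) : c ≤ ∑ b, y b * f b := by
  have := avg1_pos_le hy (f := fun b => -f b) (c := -c) fun b k => neg_le_neg (h b k)
  simp only [mul_neg, Finset.sum_neg_distrib] at this
  linarith

/-- the limit of perturbed equilibria with fixed supports -/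
theorem exists_limit (hr : ∀ s, 0 ≤ r s ∧ r s ≤ 1) : ∃ d x y0 u0 z, Pert δ Θ r G β d x y0 u0 z ∧
    ∃ (y : ∀ s, B s → ℝ) (u : S → ℝ), (∀ s, y s ∈ stdSimplex ℝ (B s)) ∧
      (∀ s b, 0 < y s b → 0 < y0 s b) ∧ (∀ s, 0 ≤ u s) ∧ (∀ s ∈ Θ, u s = r s) ∧
      (∀ s ∉ Θ, ∀ a, ∑ b, y s b * u (δ s a b) ≤ u s ∧
        (0 < x s a → u s ≤ ∑ b, y s b * u (δ s a b))) ∧
      ∀ Z : Set S, (∀ s ∈ Z, s ∉ Θ ∧ ∀ a b, 0 < x s a → 0 < y0 s b → δ s a b ∈ Z) →
        ∀ s ∈ Z, u s ≤ 0 := by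
  have hd : ∀ n : ℕ, 0 ≤ 1 - 1 / ((n : ℝ) + 1) ∧ 1 - 1 / ((n : ℝ) + 1) < 1 := fun n =>
    ⟨sub_nonneg.2 (by rw [div_le_one (by positivity)]; simp), sub_lt_self _ (by positivity)⟩
  choose X Y Uu Z hP using fun n => exists_pert δ Θ r G β hr (hd n).1 (hd n).2.le
  let φ := hyperfilter ℕ
  obtain ⟨⟨I, J⟩, hIJ⟩ : ∃ p : (∀ s, A s → Prop) × (∀ s, B s → Prop), ∀ᶠ n in (φ : Filter ℕ),
      ((fun s a => 0 < X n s a, fun s b => 0 < Y n s b) : _ × _) = p :=
    (Ultrafilter.eventually_exists_iff (f := φ)).1 (Eventually.of_forall fun n => ⟨_, rfl⟩)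
  have hI : ∀ᶠ n in (φ : Filter ℕ), (∀ s a, 0 < X n s a ↔ I s a) ∧ ∀ s b, 0 < Y n s b ↔ J s b :=
    hIJ.mono fun n h => by
      obtain ⟨rfl, rfl⟩ := Prod.mk.inj h
      exact ⟨fun _ _ => Iff.rfl, fun _ _ => Iff.rfl⟩
  obtain ⟨n0, hn0⟩ := hI.exists
  have hK : IsCompact ((Set.pi Set.univ fun s => stdSimplex ℝ (B s)) ×ˢ
      (Set.pi Set.univ fun _ : S => Set.Icc (0 : ℝ) 1)) :=
    (isCompact_univ_pi fun s => isCompact_stdSimplex ℝ (B s)).prod
      (isCompact_univ_pi fun _ => isCompact_Icc)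
  obtain ⟨⟨y, u⟩, ⟨hy, hu⟩, hl⟩ := hK.ultrafilter_le_nhds (φ.map fun n => (Y n, Uu n)) (by
    rw [Ultrafilter.coe_map, le_principal_iff, Filter.mem_map]
    exact Eventually.of_forall fun n => ⟨fun s _ => (hP n).2.1 s, fun s _ => (hP n).2.2.1 s⟩)
  have hl' : Tendsto (fun n => (Y n, Uu n)) φ (𝓝 (y, u)) := hl
  have ly : ∀ s b, Tendsto (fun n => Y n s b) φ (𝓝 (y s b)) := fun s b =>
    tendsto_pi_nhds.1 (tendsto_pi_nhds.1 hl'.fst_nhds s) b
  have lu : ∀ s, Tendsto (fun n => Uu n s) φ (𝓝 (u s)) := tendsto_pi_nhds.1 hl'.snd_nhds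
  have ld : Tendsto (fun n : ℕ => 1 - 1 / ((n : ℝ) + 1)) φ (𝓝 1) := by
    have := (tendsto_one_div_add_atTop_nhds_zero_nat (𝕜 := ℝ)).const_sub 1
    rw [sub_zero] at this
    exact this.mono_left (Nat.hyperfilter_le_atTop)
  have ls : ∀ s a, Tendsto (fun n : ℕ => (1 - 1 / ((n : ℝ) + 1)) *
      ∑ b, Y n s b * Uu n (δ s a b)) φ (𝓝 (∑ b, y s b * u (δ s a b))) := fun s a => by
    simpa using ld.mul (tendsto_finsetSum _ fun b _ => (ly s b).mul (lu (δ s a b)))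
  have e : ∀ n s, ∑ a, ∑ b, X n s a * Y n s b * Uu n (δ s a b) =
      ∑ a, X n s a * ∑ b, Y n s b * Uu n (δ s a b) := fun n s => by
    simp only [mul_assoc, Finset.mul_sum]
  refine ⟨_, X n0, Y n0, Uu n0, Z n0, hP n0, y, u, fun s => hy s trivial, fun s b k => ?_,
    fun s => (hu s trivial).1, fun s hs => ?_, fun s hs a => ⟨?_, fun k => ?_⟩,
    fun W hW s hs => ?_⟩
  · obtain ⟨n, k1, k2⟩ := (hI.and ((ly s b).eventually (lt_mem_nhds k))).exists
    exact (hn0.2 s b).2 ((k1.2 s b).1 k2)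
  · exact tendsto_nhds_unique (lu s) (tendsto_const_nhds.congr fun n =>
      (((hP n).2.2.2.2.2.2.1 s hs).1).symm)
  · refine le_of_tendsto_of_tendsto' (ls s a) (lu s) fun n => ?_
    rw [((hP n).2.2.2.2.2.2.2 s hs).1, e]
    exact mul_le_mul_of_nonneg_left (le_avg1 ((hP n).1 s) fun a' k =>
      (hP n).2.2.2.2.1 s a' a k) (hd n).1
  · refine le_of_tendsto_of_tendsto (lu s) (ls s a) (hI.mono fun n hn => ?_)
    dsimp only
    rw [((hP n).2.2.2.2.2.2.2 s hs).1, e]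
    exact mul_le_mul_of_nonneg_left (avg1_le ((hP n).1 s) fun a' =>
      (hP n).2.2.2.2.1 s a a' ((hn.1 s a).2 ((hn0.1 s a).1 k))) (hd n).1
  · refine le_of_tendsto (lu s) (hI.mono fun n hn => ?_)
    obtain ⟨t, ht, hm⟩ := Set.exists_max_image W (Uu n) (Set.toFinite _) ⟨s, hs⟩
    have k1 := ((hP n).2.2.2.2.2.2.2 t (hW t ht).1).1
    have k2 := avg_pos_le ((hP n).1 t) ((hP n).2.1 t) (f := fun a b => Uu n (δ t a b))
      fun a b ha hb => hm _ ((hW t ht).2 a b ((hn0.1 t a).2 ((hn.1 t a).1 ha))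
        ((hn0.2 t b).2 ((hn.2 t b).1 hb)))
    have k3 := mul_le_mul_of_nonneg_left k2 (hd n).1
    refine (hm s hs).trans (not_lt.1 fun k => ?_)
    nlinarith [mul_lt_mul_of_pos_right (hd n).2 k]

end Pool.Agent.P.MP_0c5457_lc
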