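import Pool.Agent.P.MP_0c5457_lc.ObsStar

set_option autoImplicit false

/-! The equilibrium with a recommendation to the second player. -/

namespace Pool.Agent.P.MP_0c5457_lc

open Finset Classical Relation

lemma sig_mem {β γ : Type} [Fintype β] [Fintype γ] {μ : γ → ℝ} {ρ : γ → β → ℝ}
    (hμ : μ ∈ stdSimplex ℝ γ) (hρ : ∀ j, ρ j ∈ stdSimplex ℝ β) :
    (fun q : γ × β => μ q.1 * ρ q.1 q.2) ∈ stdSimplex ℝ (γ × β) :=
  ⟨fun q => mul_nonneg (hμ.1 _) ((hρ _).1 _), by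
    simp only [Fintype.sum_prod_type, ← Finset.mul_sum, (hρ _).2, mul_one, hμ.2]⟩

variable {S : Type} {A B C : S → Type} [∀ s, Fintype (A s)] [∀ s, Fintype (B s)]
  [∀ s, Fintype (C s)]

/-- `W` bounds what the second player, who sees the signal, can get against `σ` -/
def Sup2 {M : Type} (up : M → ∀ s, A s → C s × B s → M) (δ : ∀ s, A s → B s → S) (T : Set S)
    (μ : ∀ s, C s → ℝ) (σ : M → ∀ s, A s → ℝ) (W : M → S → ℝ) : Prop :=
  ∀ m s, 0 ≤ W m s ∧ (s ∈ T → 1 ≤ W m s) ∧ (s ∉ T → ∃ c : C s → ℝ,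
    (∀ j b, 0 < μ s j → ∑ a, σ m s a * W (up m s a (j, b)) (δ s a b) ≤ c j) ∧
      ∑ j, μ s j * c j ≤ W m s)

lemma val_le_sup2 {M M' : Type} {up : M → ∀ s, A s → C s × B s → M}
    {up' : M' → ∀ s, A s → C s × B s → M'} {δ : ∀ s, A s → B s → S} {T : Set S}
    {μ : ∀ s, C s → ℝ} {σ : M → ∀ s, A s → ℝ} {W : M → S → ℝ} (φ : M' → M)
    (hφ : ∀ m s a q, φ (up' m s a q) = up (φ m) s a q) (hW : Sup2 up δ T μ σ W)
    (hμ : ∀ s, μ s ∈ stdSimplex ℝ (C s)) (hσ : Dist σ) {ρ : M' → ∀ s, C s → B s → ℝ}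
    (hρ : ∀ m s j, ρ m s j ∈ stdSimplex ℝ (B s)) (n : ℕ) (m : M') (s : S) :
    val up' (fun s a q => δ s a q.2) T (fun m => σ (φ m))
      (fun m s q => μ s q.1 * ρ m s q.1 q.2) n m s ≤ W (φ m) s := by
  induction n generalizing m s with
  | zero =>
    simp only [val]
    split_ifs with h
    · exact (hW _ _).2.1 h
    · exact (hW _ _).1
  | succ n ih =>
    simp only [val]
    split_ifs with h
    · exact (hW _ _).2.1 h
    obtain ⟨c, c1, c2⟩ := (hW (φ m) s).2.2 h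
    refine (avg_le (hσ _ s) (sig_mem (hμ s) (hρ m s)) fun a b => ih _ _).trans (le_trans ?_ c2)
    rw [sum_comm, Fintype.sum_prod_type]
    refine sum_le_sum fun j _ => ?_
    rcases ((hμ s).1 j).eq_or_lt with e | e
    · simp [← e]
    · refine le_trans (le_of_eq ?_) (mul_le_mul_of_nonneg_left
        (avg1_le (hρ m s j) fun b => c1 j b e) e.le)
      simp only [hφ, Finset.mul_sum, mul_assoc, mul_left_comm]

theorem cert_sig [Fintype S] [∀ s, Nonempty (A s)] [∀ s, Nonempty (B s)]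
    (δ : ∀ s, A s → B s → S) (T₁ T₂ : Set S) : ∃ μ : ∀ s, B s → ℝ,
      (∀ s, μ s ∈ stdSimplex ℝ (B s)) ∧ ∃ (up : ℕ → ∀ s, A s → B s × B s → ℕ)
      (σ : ℕ → ∀ s, A s → ℝ) (τ : ℕ → ∀ s, B s → B s → ℝ) (W₁ W₂ : ℕ → S → ℝ), Dist σ ∧
      (∀ m s j, τ m s j ∈ stdSimplex ℝ (B s)) ∧
      Sup up (fun s a q => δ s a q.2) T₁ (fun m s q => μ s q.1 * τ m s q.1 q.2) W₁ ∧
      Sup2 up δ T₂ μ σ W₂ ∧ ∀ s,
      W₁ 0 s ≤ pay up (fun s a q => δ s a q.2) T₁ σ (fun m s q => μ s q.1 * τ m s q.1 q.2) 0 s ∧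
      W₂ 0 s ≤ pay up (fun s a q => δ s a q.2) T₂ σ (fun m s q => μ s q.1 * τ m s q.1 q.2) 0 s := by
  obtain ⟨r, hr⟩ : ∃ r : Set S → S → ℝ, ∀ T s, r T s = if Rch δ T s then 1 else 0 :=
    ⟨_, fun _ _ => rfl⟩
  have r0 : ∀ T s, 0 ≤ r T s ∧ r T s ≤ 1 := fun T s => by
    rw [hr]
    split_ifs <;> simp
  have r1 : ∀ T s, s ∈ T → 1 ≤ r T s := fun T s h => by rw [hr, if_pos (Rch.of_mem h)]
  have r2 : ∀ T s a b, r T (δ s a b) ≤ r T s := fun T s a b => by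
    by_cases h : Rch δ T (δ s a b)
    · rw [hr, hr, if_pos h, if_pos h.head]
    · rw [hr, if_neg h]
      exact (r0 T s).1
  obtain ⟨g, u, L, p, x, y, hp, hx, hy, g0, g1, g2, u0, h1, h2, h3, h4⟩ :=
    exists_star δ (T₁ ∪ T₂) T₂ Set.subset_union_right (r T₁) (r0 T₁)
  simp only [← hr] at h1
  obtain ⟨α₁, β₁, o1⟩ := exists_goto δ T₁
  obtain ⟨α₂, β₂, o2⟩ := exists_goto δ T₂
  obtain ⟨e, he⟩ : ∃ e : ℕ → S → ℕ, ∀ m s, e m s =
    if m = 0 then (if s ∈ T₁ then 2 else if s ∈ T₂ then 1 else 0) else m := ⟨_, fun _ _ => rfl⟩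
  have e0 : ∀ m s, e m s = 0 ↔ m = 0 ∧ s ∉ T₁ ∪ T₂ := fun m s => by
    rw [he]
    split_ifs <;> simp [*]
  have e1 : ∀ m s, m ≠ 0 → e m s = m := fun m s h => by rw [he, if_neg h]
  obtain ⟨up, hup⟩ : ∃ up : ℕ → ∀ s, A s → B s × B s → ℕ, ∀ m s a q, up m s a q =
    if e m s = 0 ∧ q.1 ≠ q.2 then 3 else e m s := ⟨_, fun _ _ _ _ => rfl⟩
  obtain ⟨σ, hσ⟩ : ∃ σ : ℕ → ∀ s, A s → ℝ, ∀ m s, σ m s = if e m s = 0 then x s else
    if e m s = 3 then p s else fun a => if (if e m s = 1 then α₁ s else α₂ s) = a then 1 else 0 :=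
    ⟨_, fun _ _ => rfl⟩
  obtain ⟨τ, hτ⟩ : ∃ τ : ℕ → ∀ s, B s → B s → ℝ, ∀ m s j, τ m s j = fun b =>
    if (if e m s = 0 then j else if e m s = 1 then β₁ s else β₂ s) = b then 1 else 0 :=
    ⟨_, fun _ _ _ => rfl⟩
  have dσ : Dist σ := fun m s => by
    rw [hσ]
    by_cases k : e m s = 0
    · rw [if_pos k]
      exact hx s
    rw [if_neg k]
    by_cases k' : e m s = 3
    · rw [if_pos k']
      exact hp s
    rw [if_neg k']
    exact pure_mem _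
  have dτ : ∀ m s j, τ m s j ∈ stdSimplex ℝ (B s) := fun m s j => by
    rw [hτ]
    exact pure_mem _
  have dτ' : Dist fun m s (q : B s × B s) => y s q.1 * τ m s q.1 q.2 :=
    fun m s => sig_mem (hy s) (dτ m s)
  obtain ⟨G, hG⟩ : ∃ G : Set S → ℕ → S → ℝ, ∀ T, G T =
    pay up (fun s a q => δ s a q.2) T σ fun m s q => y s q.1 * τ m s q.1 q.2 := ⟨_, fun _ => rfl⟩
  have G0 : ∀ T m s, 0 ≤ G T m s := fun T m s => hG T ▸ pay_nonneg dσ dτ' m s
  have G1 : ∀ T m s, s ∈ T → 1 ≤ G T m s := fun T m s h => hG T ▸ pay_tar dσ dτ' m h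
  have G2 : ∀ T m s, s ∉ T → ∑ a, ∑ j, ∑ b, σ m s a * (y s j * τ m s j b) *
      G T (up m s a (j, b)) (δ s a b) ≤ G T m s := fun T m s h => by
    simpa only [hG, Fintype.sum_prod_type] using pay_step (up := up)
      (δ := fun s a (q : B s × B s) => δ s a q.2) dσ dτ' m h
  have G3 : ∀ T s, s ∉ T → s ∉ T₁ ∪ T₂ →
      ∑ a, ∑ j, x s a * y s j * G T 0 (δ s a j) ≤ G T 0 s := fun T s h k => by
    simpa [hσ, hτ, hup, (e0 0 s).2 ⟨rfl, k⟩] using G2 T 0 s h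
  have G4 : ∀ s, s ∈ T₁ ∪ T₂ → r T₁ s ≤ G T₁ 0 s ∧ r T₂ s ≤ G T₂ 0 s := fun s hs => by
    constructor <;> rw [hr] <;> split_ifs with h
    · by_cases k : s ∈ T₁
      · exact G1 _ _ _ k
      refine o1 (fun v => ∀ m, e m v = 1 → 1 ≤ G T₁ m v) (fun z hz m _ => G1 _ _ _ hz)
        (fun v hv ih m hm => (ih 1 (e1 _ _ one_ne_zero)).trans ?_) s h 0
        (by rw [he, if_pos rfl, if_neg k, if_pos (hs.resolve_left k)])
      simpa [hσ, hτ, hup, hm, ← Finset.sum_mul, (hy v).2] using G2 T₁ m v hv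
    · exact G0 _ _ _
    · by_cases k : s ∈ T₂
      · exact G1 _ _ _ k
      refine o2 (fun v => ∀ m, e m v = 2 → 1 ≤ G T₂ m v) (fun z hz m _ => G1 _ _ _ hz)
        (fun v hv ih m hm => (ih 2 (e1 _ _ two_ne_zero)).trans ?_) s h 0
        (by rw [he, if_pos rfl, if_pos (hs.resolve_right k)])
      simpa [hσ, hτ, hup, hm, ← Finset.sum_mul, (hy v).2] using G2 T₂ m v hv
    · exact G0 _ _ _
  have G5 : ∀ (T : Set S) (f : S → ℝ), T ⊆ T₁ ∪ T₂ → (∀ s ∈ T₁ ∪ T₂, f s ≤ G T 0 s) →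
      (∀ s ∉ T₁ ∪ T₂, f s ≤ ∑ a, ∑ b, x s a * y s b * f (δ s a b)) →
      (∀ s, ∃ t ∈ (T₁ ∪ T₂) ∪ {t | f t ≤ 0}, ReflTransGen (Sp δ x y) s t) →
      ∀ s, f s ≤ G T 0 s := fun T f hT k1 k2 k3 s => sub_nonpos.1 <|
    maxp hx hy (q := fun s => f s - G T 0 s) (fun s hs => sub_nonpos.2
      (hs.elim (k1 s) fun k => le_trans k (G0 _ _ _))) (fun s hs => by
        have k : s ∉ T₁ ∪ T₂ := fun k => hs (Or.inl k)
        simp only [mul_sub, sum_sub_distrib]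
        linarith [k2 s k, G3 T s (fun h => k (hT h)) k]) k3 s
  have a1 := G5 T₁ u Set.subset_union_left (fun s hs => (h1 s hs).1.le.trans (G4 s hs).1)
    (fun s hs => (h2 s hs).2.1) h3
  have a2 := G5 T₂ L Set.subset_union_right (fun s hs => (h1 s hs).2.le.trans (G4 s hs).2)
    (fun s hs => (h2 s hs).2.2.2) h4
  obtain ⟨W₁, w1⟩ : ∃ W : ℕ → S → ℝ, ∀ m s, W m s = if e m s = 0 then u s else r T₁ s :=
    ⟨_, fun _ _ => rfl⟩
  obtain ⟨W₂, w2⟩ : ∃ W : ℕ → S → ℝ, ∀ m s, W m s = if e m s = 0 then G T₂ 0 s else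
    if e m s = 3 then g s else r T₂ s := ⟨_, fun _ _ => rfl⟩
  have b1 : ∀ s, W₁ 0 s = u s := fun s => by
    rw [w1]
    split_ifs with h
    · rfl
    · exact (h1 s (not_not.1 fun k => h ((e0 0 s).2 ⟨rfl, k⟩))).1.symm
  have b2 : ∀ s, W₂ 0 s ≤ G T₂ 0 s := fun s => by
    rw [w2]
    split_ifs with h h'
    · rfl
    · rw [he, if_pos rfl] at h'
      split_ifs at h' <;> omega
    · exact (G4 s (not_not.1 fun k => h ((e0 0 s).2 ⟨rfl, k⟩))).2
  refine ⟨y, hy, up, σ, τ, W₁, W₂, dσ, dτ, fun m s => ?_, fun m s => ?_, fun s =>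
    ⟨hG T₁ ▸ (b1 s).le.trans (a1 s), hG T₂ ▸ b2 s⟩⟩
  · by_cases h : e m s = 0
    · obtain ⟨rfl, k⟩ := (e0 m s).1 h
      refine ⟨(u0 s).trans (b1 s).ge, fun k' => absurd (Or.inl k') k, fun _ a => ?_⟩
      simpa [Fintype.sum_prod_type, hτ, hup, h, b1] using (h2 s k).1 a
    · rw [w1, if_neg h]
      refine ⟨(r0 _ _).1, r1 _ _, fun _ a => avg1_le (dτ' m s) fun q => ?_⟩
      rw [hup, if_neg fun k => h k.1, w1, e1 _ _ h, if_neg h]
      exact r2 _ _ _ _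
  · by_cases h : e m s = 0
    · obtain ⟨rfl, k⟩ := (e0 m s).1 h
      rw [w2, if_pos h]
      refine ⟨G0 _ _ _, fun k' => absurd (Or.inr k') k, fun k' =>
        ⟨fun j => ∑ a, x s a * G T₂ 0 (δ s a j), fun j b hj => ?_,
          le_trans (le_of_eq ?_) (G3 T₂ s k' k)⟩⟩
      · rw [hσ, if_pos h]
        by_cases k2 : j = b
        · subst k2
          refine sum_le_sum fun a _ => mul_le_mul_of_nonneg_left ?_ ((hx s).1 a)
          rw [hup, if_neg (by simp), h]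
          exact b2 _
        · refine le_trans (le_of_eq (sum_congr rfl fun a _ => ?_)) (((h2 s k).2.2.1 j b hj).trans
            (sum_le_sum fun a _ => mul_le_mul_of_nonneg_left (a2 _) ((hx s).1 a)))
          rw [hup, if_pos ⟨h, k2⟩, w2, e1 _ _ (by simp), if_neg (by simp), if_pos rfl]
      · rw [sum_comm]
        simp only [Finset.mul_sum, mul_assoc, mul_left_comm]
    · have k : ∀ a q t, W₂ (up m s a q) t = if e m s = 3 then g t else r T₂ t := fun a q t => by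
        rw [hup, if_neg fun k => h k.1, w2, e1 _ _ h, if_neg h]
      simp only [k]
      rw [w2, if_neg h]
      by_cases h' : e m s = 3
      · simp only [if_pos h']
        refine ⟨g0 s, fun k => (g1 s k).ge, fun k => ⟨fun _ => g s, fun j b _ => ?_,
          avg1_le (hy s) fun _ => le_rfl⟩⟩
        rw [hσ, if_neg h, if_pos h']
        exact g2 s k b
      · simp only [if_neg h']
        exact ⟨(r0 _ _).1, r1 _ _, fun _ => ⟨fun _ => r T₂ s, fun j b _ =>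
          avg1_le (dσ m s) fun a => r2 _ _ _ _, avg1_le (hy s) fun _ => le_rfl⟩⟩

lemma marg [Fintype S] {y : ∀ s, B s → ℝ} (hy : ∀ s, y s ∈ stdSimplex ℝ (B s)) (s : S)
    (f : B s → ℝ) : ∑ m : ∀ t, B t, (∏ t, y t (m t)) * f (m s) = ∑ j, y s j * f j := by
  have h := Fintype.prod_sum (Function.update y s fun j => y s j * f j)
  rw [← mul_prod_erase _ _ (mem_univ s), Function.update_self, prod_eq_one fun t ht => by
    rw [Function.update_of_ne (ne_of_mem_erase ht), (hy t).2], mul_one] at h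
  refine (sum_congr rfl fun m _ => ?_).trans h.symm
  rw [← mul_prod_erase _ _ (mem_univ s), ← mul_prod_erase _ _ (mem_univ s), Function.update_self,
    mul_right_comm]
  exact congrArg _ (prod_congr rfl fun t ht => by rw [Function.update_of_ne (ne_of_mem_erase ht)])

theorem cert_iid [Fintype S] [∀ s, Nonempty (A s)] [∀ s, Nonempty (B s)]
    (δ : ∀ s, A s → B s → S) (T₁ T₂ : Set S) : ∃ μ : (∀ s, B s) → ℝ,
      μ ∈ stdSimplex ℝ (∀ s, B s) ∧ ∃ (up : ℕ → ∀ s, A s → (∀ s, B s) × B s → ℕ)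
      (σ : ℕ → ∀ s, A s → ℝ) (τ : ℕ → ∀ s, (∀ s, B s) → B s → ℝ) (W₁ W₂ : ℕ → S → ℝ), Dist σ ∧
      (∀ m s j, τ m s j ∈ stdSimplex ℝ (B s)) ∧
      Sup up (fun s a q => δ s a q.2) T₁ (fun m s q => μ q.1 * τ m s q.1 q.2) W₁ ∧
      Sup2 up δ T₂ (fun _ => μ) σ W₂ ∧ ∀ s,
      W₁ 0 s ≤ pay up (fun s a q => δ s a q.2) T₁ σ (fun m s q => μ q.1 * τ m s q.1 q.2) 0 s ∧
      W₂ 0 s ≤ pay up (fun s a q => δ s a q.2) T₂ σ (fun m s q => μ q.1 * τ m s q.1 q.2) 0 s := by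
  obtain ⟨y, hy, up, σ, τ, W₁, W₂, h1, h2, h3, h4, h5⟩ := cert_sig δ T₁ T₂
  have k : ∀ m s (f : B s × B s → ℝ), ∑ q : (∀ t, B t) × B s,
      (∏ t, y t (q.1 t)) * τ m s (q.1 s) q.2 * f (q.1 s, q.2) =
        ∑ q : B s × B s, y s q.1 * τ m s q.1 q.2 * f q := fun m s f => by
    simp only [Fintype.sum_prod_type, mul_assoc, ← Finset.mul_sum]
    exact marg hy s fun j => ∑ b, τ m s j b * f (j, b)
  have e : ∀ T n m s, val (fun m s a (q : (∀ t, B t) × B s) => up m s a (q.1 s, q.2))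
      (fun s a q => δ s a q.2) T σ (fun m s q => (∏ t, y t (q.1 t)) * τ m s (q.1 s) q.2) n m s =
      val up (fun s a q => δ s a q.2) T σ (fun m s q => y s q.1 * τ m s q.1 q.2) n m s := by
    intro T n
    induction n with
    | zero => exact fun _ _ => rfl
    | succ n ih =>
      intro m s
      simp only [val, ih, mul_assoc (σ m s _), ← Finset.mul_sum]
      exact if_congr Iff.rfl rfl (sum_congr rfl fun a _ => congrArg _ (k m s fun q => val up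
        (fun s a q => δ s a q.2) T σ (fun m s q => y s q.1 * τ m s q.1 q.2) n (up m s a q)
          (δ s a q.2)))
  refine ⟨fun m => ∏ t, y t (m t), ⟨fun m => prod_nonneg fun t _ => (hy t).1 _, ?_⟩,
    fun m s a q => up m s a (q.1 s, q.2), σ, fun m s j => τ m s (j s), W₁, W₂, h1,
    fun m s j => h2 m s _, fun m s => ⟨(h3 m s).1, (h3 m s).2.1, fun h a => ?_⟩,
    fun m s => ⟨(h4 m s).1, (h4 m s).2.1, fun h => ?_⟩, fun s => ?_⟩
  · rw [← Fintype.prod_sum]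
    exact prod_eq_one fun t _ => (hy t).2
  · exact (k m s fun q => W₁ (up m s a q) (δ s a q.2)).le.trans ((h3 m s).2.2 h a)
  · obtain ⟨c, c1, c2⟩ := (h4 m s).2.2 h
    refine ⟨fun j => c (j s), fun j b hj => c1 (j s) b (((hy s).1 _).lt_of_ne fun k => ?_),
      (marg hy s c).le.trans c2⟩
    exact hj.ne' (prod_eq_zero (mem_univ s) k.symm)
  · simpa only [pay, e] using h5 s

end Pool.Agent.P.MP_0c5457_lc
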