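import Pool.Agent.P.MP_0c5457_lc.ObsCone

set_option autoImplicit false

/-! A stationary profile with labels: exact for the first player, enforceable for the second. -/

namespace Pool.Agent.P.MP_0c5457_lc

open Finset Classical Relation

variable {S : Type} [Fintype S] {A B : S → Type} [∀ s, Fintype (A s)] [∀ s, Fintype (B s)]
  [∀ s, Nonempty (A s)] [∀ s, Nonempty (B s)]

lemma le_avg {α β : Type} [Fintype α] [Fintype β] {x : α → ℝ} {y : β → ℝ}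
    (hy : y ∈ stdSimplex ℝ β) {f : α → β → ℝ} {c : ℝ}
    (h : ∀ b, 0 < y b → c ≤ ∑ a, x a * f a b) : c ≤ ∑ a, ∑ b, x a * y b * f a b := by
  refine (le_avg1 hy h).trans (le_of_eq ?_)
  rw [sum_comm]
  simp only [Finset.mul_sum, mul_assoc, mul_left_comm]

lemma exists_pos {α : Type} [Fintype α] {x : α → ℝ} (hx : x ∈ stdSimplex ℝ α) : ∃ a, 0 < x a := by
  obtain ⟨a, -, h⟩ := exists_lt_of_sum_lt (s := univ) (f := fun _ => (0 : ℝ)) (g := x)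
    (by simp [hx.2])
  exact ⟨a, h⟩

/-- the exact profile on the limit supports -/
theorem exists_pre (δ : ∀ s, A s → B s → S) (Θ T : Set S) (hT : T ⊆ Θ) (r : S → ℝ)
    (hr : ∀ s, 0 ≤ r s ∧ r s ≤ 1) : ∃ (g u : S → ℝ) (p x0 x : ∀ s, A s → ℝ) (y : ∀ s, B s → ℝ),
      (∀ s, p s ∈ stdSimplex ℝ (A s)) ∧ (∀ s, x s ∈ stdSimplex ℝ (A s)) ∧
      (∀ s, y s ∈ stdSimplex ℝ (B s)) ∧ (∀ s, 0 ≤ g s ∧ g s ≤ 1) ∧ (∀ s ∈ T, g s = 1) ∧
      (∀ s, ¬Rch δ T s → g s ≤ 0) ∧ (∀ s ∉ T, ∀ b, ∑ a, p s a * g (δ s a b) ≤ g s) ∧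
      (∀ s, 0 ≤ u s) ∧ (∀ s ∈ Θ, u s = r s) ∧ (∀ s a, 0 < x s a → 0 < x0 s a) ∧
      (∀ s ∉ Θ, ∀ a, ∑ b, y s b * u (δ s a b) ≤ u s ∧
        (0 < x0 s a → u s ≤ ∑ b, y s b * u (δ s a b))) ∧
      (∀ s b b', 0 < y s b → ∑ a, x s a * g (δ s a b') ≤ ∑ a, x s a * g (δ s a b)) ∧
      (∀ s ∉ Θ, ∀ b, 0 < y s b → g s ≤ ∑ a, x s a * g (δ s a b)) ∧
      (∀ s, (¬∃ t ∈ Θ, ReflTransGen (Sp δ x y) s t) → g s ≤ 0) ∧
      ∀ N : Set S, (∀ s ∈ N, s ∉ Θ ∧ g s ≤ 0 ∧ (∀ t, Sp δ x y s t → t ∈ N) ∧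
        ∀ t, Sp δ x0 y s t → g t ≤ 0) → ∀ s ∈ N, u s ≤ 0 := by
  obtain ⟨g, p, C, g0, g1, g2, hp, g3, g4, g5, g6⟩ := exists_value δ T
  choose η η0 hη using fun s =>
    exists_eta fun (k : B s × B s) (a : A s) => g (δ s a k.1) - g (δ s a k.2)
  obtain ⟨d, x0, y0, u0, z, ⟨hx0, hy0, -, z0, -, hopt, z1, z2⟩, y, u, hy, hJ, u1, u2, u3, u4⟩ :=
    exists_limit δ Θ r (fun s t => g t + η s * if 0 < g s then (if t ∈ C s then 0 else 1) else 0)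
      (fun s => if 0 < g s then 0 else η s) hr
  obtain ⟨q, hq⟩ : ∃ q : S → S → ℝ, ∀ s t, q s t =
    if 0 < g s then (if t ∈ C s then 0 else 1) else z t := ⟨_, fun _ _ => rfl⟩
  have q0 : ∀ s t, 0 ≤ q s t ∧ q s t ≤ 1 := fun s t => by
    rw [hq]
    split_ifs
    exacts [by simp, by simp, z0 t]
  have ho : ∀ s b b', 0 < y s b → ∑ a, x0 s a * g (δ s a b') + η s * ∑ a, x0 s a * q s (δ s a b') ≤
      ∑ a, x0 s a * g (δ s a b) + η s * ∑ a, x0 s a * q s (δ s a b) := fun s b b' h => by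
    have e : ∀ b, ∑ a, x0 s a * g (δ s a b) + η s * ∑ a, x0 s a * q s (δ s a b) =
        ∑ a, x0 s a * ((g (δ s a b) + η s * if 0 < g s then (if δ s a b ∈ C s then 0 else 1)
          else 0) + (if 0 < g s then 0 else η s) * z (δ s a b)) := fun b => by
      rw [Finset.mul_sum, ← sum_add_distrib]
      refine sum_congr rfl fun a _ => ?_
      rw [hq]
      split_ifs <;> ring
    rw [e, e]
    exact hopt s b b' (hJ s b h)
  have q1 : ∀ s b, 0 ≤ ∑ a, x0 s a * q s (δ s a b) := fun s b =>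
    le_avg1 (hx0 s) fun a _ => (q0 _ _).1
  choose j hj hj' using fun s => Set.exists_max_image {b | 0 < y s b}
    (fun b => ∑ a, x0 s a * q s (δ s a b)) (Set.toFinite _) (exists_pos (hy s))
  choose x hx x1 x2 x3 using fun s => hη s (fun k => 0 < y s k.1) (x0 s) (hx0 s) _ (q1 s (j s))
    (avg1_le (hx0 s) fun a => (q0 _ _).2) fun k h => by
      have := mul_le_mul_of_nonneg_left (hj' s k.1 h) (η0 s).le
      simp only [mul_sub, sum_sub_distrib]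
      linarith [ho s k.1 k.2 h, mul_nonneg (η0 s).le (q1 s k.2)]
  have x4 : ∀ s b b', 0 < y s b → ∑ a, x s a * g (δ s a b') ≤ ∑ a, x s a * g (δ s a b) :=
    fun s b b' h => by simpa only [mul_sub, sum_sub_distrib, sub_nonneg] using x2 s (b, b') h
  have x5 : ∀ s ∉ Θ, ∀ b, 0 < y s b → g s ≤ ∑ a, x s a * g (δ s a b) := fun s hs b h =>
    let ⟨b', k⟩ := g4 s (fun k => hs (hT k)) _ (hx s)
    k.trans (x4 s b b' h)
  have x6 : ∀ s m, 0 ≤ m → (∀ t, Sp δ x y s t → q s t ≤ m) →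
      ∑ a, x0 s a * q s (δ s a (j s)) ≤ 4 / 3 * m := fun s m m0 h => by
    linarith [x3 s (fun a => q s (δ s a (j s))) m m0 (fun a => (q0 _ _).2)
      fun a k => h _ ⟨a, j s, k, hj s, rfl⟩]
  have ex : ∀ s ∉ Θ, 0 < g s → ¬∀ t, Sp δ x y s t → t ∈ C s := fun s hs h hc => by
    obtain ⟨c1, c2⟩ := g5 s (fun k => hs (hT k)) h
    obtain ⟨b, hb⟩ := c2 _ (hx0 s) _ (η0 s)
    have k1 := x6 s 0 le_rfl fun t k => by rw [hq, if_pos h, if_pos (hc t k)]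
    have k2 := ho s (j s) b (hj s)
    have k3 : ∑ a, x0 s a * (g (δ s a (j s)) - q s (δ s a (j s))) ≤ g s :=
      avg1_le (hx0 s) fun a => by
        rw [hq, if_pos h]
        split_ifs with k
        · simp [c1 _ k]
        · linarith [(g0 (δ s a (j s))).2]
    simp only [hq, if_pos h] at k1 k2 k3
    simp only [mul_add, mul_sub, sum_add_distrib, sum_sub_distrib, mul_left_comm _ (η s),
      ← Finset.mul_sum] at hb k3
    nlinarith [η0 s]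
  refine ⟨g, u, p, x0, x, y, hp, hx, hy, g0, g1, g2, g3, u1, u2, x1, u3, x4, x5, fun s hs => ?_,
    fun N hN s hs => ?_⟩
  · obtain ⟨s0, h0, hm⟩ := Set.exists_max_image {s | ¬∃ t ∈ Θ, ReflTransGen (Sp δ x y) s t} g
      (Set.toFinite _) ⟨s, hs⟩
    refine (hm s hs).trans (not_lt.1 fun c0 => ?_)
    obtain ⟨v, ⟨v1, v2⟩, hv⟩ := g6 _ c0
      {s | (¬∃ t ∈ Θ, ReflTransGen (Sp δ x y) s t) ∧ g s = g s0}
      (fun t k => ⟨fun k' => k.1 ⟨t, hT k', .refl⟩, k.2⟩) ⟨s0, h0, rfl⟩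
    have vΘ : v ∉ Θ := fun k => v1 ⟨v, k, .refl⟩
    have cl : ∀ t, Sp δ x y v t → ¬∃ w ∈ Θ, ReflTransGen (Sp δ x y) t w :=
      fun t k ⟨w, k1, k2⟩ => v1 ⟨w, k1, k2.head k⟩
    refine ex v vΘ (v2 ▸ c0) fun t k => hv ⟨cl t k, ?_⟩
    obtain ⟨a, b, ha, hb, rfl⟩ := k
    exact eq_of_avg (hx v) (hy v) (f := fun a b => g (δ v a b))
      (fun a b ha hb => hm _ (cl _ ⟨a, b, ha, hb, rfl⟩)) (v2 ▸ le_avg (hy v) (x5 v vΘ)) ha hb
  · obtain ⟨v, hv, hm⟩ := Set.exists_max_image N z (Set.toFinite _) ⟨s, hs⟩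
    obtain ⟨v1, v2, v3, v4⟩ := hN v hv
    have k1 := x6 v (z v) (z0 v).1 fun t k => by
      rw [hq, if_neg (not_lt.2 v2)]
      exact hm t (v3 t k)
    have k2 : ∑ a, x0 v a * g (δ v a (j v)) ≤ 0 :=
      avg1_pos_le (hx0 v) fun a k => v4 _ ⟨a, j v, k, hj v, rfl⟩
    have k3 : ∑ a, ∑ b, x0 v a * y0 v b * z (δ v a b) ≤ 4 / 3 * z v := by
      refine le_trans (le_of_eq ?_) (avg1_le (hy0 v)
        (f := fun b => ∑ a, x0 v a * q v (δ v a b)) fun b => le_trans ?_ k1)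
      · rw [sum_comm]
        simp only [hq, if_neg (not_lt.2 v2), Finset.mul_sum, mul_assoc, mul_left_comm]
      · refine le_of_mul_le_mul_left ?_ (η0 v)
        linarith [ho v (j v) b (hj v), le_avg1 (hx0 v) (f := fun a => g (δ v a b))
          fun a _ => (g0 _).1]
    have k4 : z s ≤ 0 := by linarith [hm s hs, (z2 v v1).2]
    refine u4 {t | z t ≤ 0} (fun t (ht : z t ≤ 0) => ?_) s k4
    have tΘ : t ∉ Θ := fun k => by linarith [(z1 t k).2]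
    refine ⟨tΘ, fun a b ha hb => ?_⟩
    have := eq_of_avg (hx0 t) (hy0 t) (f := fun a b => -z (δ t a b)) (m := 0)
      (fun a b _ _ => neg_nonpos.2 (z0 _).1) (by
        simp only [mul_neg, sum_neg_distrib]
        linarith [(z2 t tΘ).2]) ha hb
    exact (neg_eq_zero.1 this).le

theorem exists_star (δ : ∀ s, A s → B s → S) (Θ T : Set S) (hT : T ⊆ Θ) (r : S → ℝ)
    (hr : ∀ s, 0 ≤ r s ∧ r s ≤ 1) : ∃ (g u L : S → ℝ) (p x : ∀ s, A s → ℝ) (y : ∀ s, B s → ℝ),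
      (∀ s, p s ∈ stdSimplex ℝ (A s)) ∧ (∀ s, x s ∈ stdSimplex ℝ (A s)) ∧
      (∀ s, y s ∈ stdSimplex ℝ (B s)) ∧ (∀ s, 0 ≤ g s) ∧ (∀ s ∈ T, g s = 1) ∧
      (∀ s ∉ T, ∀ b, ∑ a, p s a * g (δ s a b) ≤ g s) ∧ (∀ s, 0 ≤ u s) ∧
      (∀ s ∈ Θ, u s = r s ∧ L s = if Rch δ T s then 1 else 0) ∧
      (∀ s ∉ Θ, (∀ a, ∑ b, y s b * u (δ s a b) ≤ u s) ∧
        u s ≤ ∑ a, ∑ b, x s a * y s b * u (δ s a b) ∧
        (∀ b b', 0 < y s b → ∑ a, x s a * g (δ s a b') ≤ ∑ a, x s a * L (δ s a b)) ∧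
        L s ≤ ∑ a, ∑ b, x s a * y s b * L (δ s a b)) ∧
      (∀ s, ∃ t ∈ Θ ∪ {t | u t ≤ 0}, ReflTransGen (Sp δ x y) s t) ∧
      ∀ s, ∃ t ∈ Θ ∪ {t | L t ≤ 0}, ReflTransGen (Sp δ x y) s t := by
  obtain ⟨g, u, p, x0, x, y, hp, hx, hy, g0, g1, g2, g3, u1, u2, x1, u3, x4, x5, n1, n2⟩ :=
    exists_pre δ Θ T hT r hr
  obtain ⟨N, hN⟩ : ∃ N : S → Prop, ∀ s, N s ↔ ¬∃ t ∈ Θ, ReflTransGen (Sp δ x y) s t :=
    ⟨_, fun _ => Iff.rfl⟩
  have N0 : ∀ s, N s → s ∉ Θ := fun s h k => (hN s).1 h ⟨s, k, .refl⟩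
  have N1 : ∀ s t, N s → Sp δ x y s t → N t := fun s t h k =>
    (hN t).2 fun ⟨w, k1, k2⟩ => (hN s).1 h ⟨w, k1, k2.head k⟩
  have N2 : ∀ s, N s → g s ≤ 0 := fun s h => n1 s ((hN s).1 h)
  have N3 : ∀ s t, N s → ReflTransGen (Sp δ x y) s t → N t := fun s t h k => by
    induction k with
    | refl => exact h
    | tail _ k ih => exact N1 _ _ ih k
  obtain ⟨Γ, hΓ⟩ : ∃ Γ : S → Prop, ∀ s, Γ s ↔ ∃ a, 0 < x0 s a ∧ 0 < ∑ b, y s b * g (δ s a b) :=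
    ⟨_, fun _ => Iff.rfl⟩
  obtain ⟨R, hR⟩ : ∃ R : S → Prop, ∀ s, R s ↔ N s ∧ ∀ t, ReflTransGen (Sp δ x y) s t →
    ∃ w, Γ w ∧ ReflTransGen (Sp δ x y) t w := ⟨_, fun _ => Iff.rfl⟩
  have R1 : ∀ s t, R s → Sp δ x y s t → R t := fun s t h k =>
    (hR t).2 ⟨N1 s t ((hR s).1 h).1 k, fun w k' => ((hR s).1 h).2 w (k'.head k)⟩
  have : ∀ s, ∃ a, Γ s → 0 < x0 s a ∧ 0 < ∑ b, y s b * g (δ s a b) := fun s => by
    by_cases h : Γ s
    · exact ((hΓ s).1 h).imp fun a k _ => k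
    · exact ⟨Classical.arbitrary _, fun k => absurd k h⟩
  choose c hc using this
  obtain ⟨l, l0, l1, l2⟩ : ∃ l : ℝ, 0 < l ∧ l ≤ 1 ∧ ∀ s, Γ s → l ≤ ∑ b, y s b * g (δ s (c s) b) := by
    by_cases h : ∃ s, Γ s
    · obtain ⟨s, h1, h2⟩ := Set.exists_min_image {s | Γ s}
        (fun s => ∑ b, y s b * g (δ s (c s) b)) (Set.toFinite _) h
      exact ⟨_, (hc s h1).2, avg1_le (hy s) fun b => (g0 _).2, h2⟩
    · exact ⟨1, one_pos, le_rfl, fun s k => absurd ⟨s, k⟩ h⟩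
  obtain ⟨k, hk⟩ : ∃ k : S → ℝ, ∀ s, k s = if R s ∧ Γ s then l / 2 else 0 := ⟨_, fun _ => rfl⟩
  have k0 : ∀ s, 0 ≤ k s ∧ k s ≤ l / 2 := fun s => by
    rw [hk]
    split_ifs <;> constructor <;> linarith
  obtain ⟨X, hX⟩ : ∃ X : ∀ s, A s → ℝ, ∀ s a, X s a =
    (1 - k s) * x s a + k s * if c s = a then 1 else 0 := ⟨_, fun _ _ => rfl⟩
  have X0 : ∀ s (f : A s → ℝ), ∑ a, X s a * f a = (1 - k s) * ∑ a, x s a * f a + k s * f (c s) :=
    fun s f => by simp [hX, add_mul, sum_add_distrib, mul_assoc, Finset.mul_sum]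
  have X1 : ∀ s a, (1 - k s) * x s a ≤ X s a := fun s a => by
    rw [hX]
    split_ifs <;> linarith [(k0 s).1]
  have X2 : ∀ s, X s ∈ stdSimplex ℝ (A s) := fun s => ⟨fun a =>
    (mul_nonneg (by linarith [(k0 s).2]) ((hx s).1 a)).trans (X1 s a), by
      simpa [(hx s).2] using X0 s fun _ => 1⟩
  have X3 : ∀ s t, ReflTransGen (Sp δ x y) s t → ReflTransGen (Sp δ X y) s t :=
    ReflTransGen.mono fun s t ⟨a, b, h1, h2⟩ =>
      ⟨a, b, (mul_pos (by linarith [(k0 s).2]) h1).trans_le (X1 s a), h2⟩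
  have X4 : ∀ s a, 0 < X s a → 0 < x0 s a := fun s a h => by
    rcases ((hx s).1 a).eq_or_lt with e | e
    · rw [hX, ← e, hk] at h
      split_ifs at h with h1 h2
      · exact h2 ▸ (hc s h1.2).1
      all_goals simp at h
    · exact x1 s a e
  obtain ⟨L, hL⟩ : ∃ L : S → ℝ, ∀ s, L s = if s ∈ Θ then (if Rch δ T s then 1 else 0) else
    if R s then l else g s := ⟨_, fun _ => rfl⟩
  have L0 : ∀ s, g s ≤ L s := fun s => by
    rw [hL]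
    split_ifs with h1 h2 h3
    exacts [(g0 s).2, g2 s h2, (N2 s ((hR s).1 h3).1).trans l0.le, le_rfl]
  have L1 : ∀ s, R s → L s = l := fun s h => by rw [hL, if_neg (N0 s ((hR s).1 h).1), if_pos h]
  have L2 : ∀ s, R s → ∀ b, 0 < y s b → l ≤ ∑ a, x s a * L (δ s a b) := fun s h b hb =>
    le_avg1 (hx s) fun a ha => (L1 _ (R1 s _ h ⟨a, b, ha, hb, rfl⟩)).ge
  have L3 : ∀ s b, ∑ a, x s a * g (δ s a b) ≤ ∑ a, x s a * L (δ s a b) := fun s b =>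
    sum_le_sum fun a _ => mul_le_mul_of_nonneg_left (L0 _) ((hx s).1 a)
  have pa : ∀ s, ¬(N s ∧ ¬R s) → ∃ t ∈ Θ, ReflTransGen (Sp δ X y) s t := fun s h => by
    have a1 : ∀ s, ¬N s → ∃ t ∈ Θ, ReflTransGen (Sp δ X y) s t := fun s h =>
      (not_not.1 (mt (hN s).2 h)).imp fun t k => ⟨k.1, X3 _ _ k.2⟩
    by_cases h' : N s
    swap
    · exact a1 s h'
    have hs : R s := not_not.1 fun k => h ⟨h', k⟩
    obtain ⟨w, w1, w2⟩ := ((hR s).1 hs).2 s .refl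
    have w3 : R w := (hR w).2 ⟨N3 s w h' w2, fun t k => ((hR s).1 hs).2 t (w2.trans k)⟩
    obtain ⟨b, hb⟩ : ∃ b, ¬(0 < y w b → g (δ w (c w) b) ≤ 0) := not_forall.1 fun k =>
      absurd (avg1_pos_le (hy w) k) (not_le.2 (hc w w1).2)
    rw [Classical.not_imp] at hb
    obtain ⟨t, t1, t2⟩ := a1 _ fun k => hb.2 (N2 _ k)
    refine ⟨t, t1, (X3 _ _ w2).trans (t2.head ⟨c w, b, ?_, hb.1, rfl⟩)⟩
    rw [hX, if_pos rfl, hk, if_pos ⟨w3, w1⟩]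
    nlinarith [(hx w).1 (c w)]
  refine ⟨g, u, L, p, X, y, hp, X2, hy, fun s => (g0 s).1, g1, g3, u1,
    fun s hs => ⟨u2 s hs, by rw [hL, if_pos hs]⟩, fun s hs => ⟨fun a => (u3 s hs a).1, ?_,
      fun b b' hb => ?_, ?_⟩, fun s => ?_, fun s => ?_⟩
  · simp only [mul_assoc, ← Finset.mul_sum]
    exact le_avg1 (X2 s) fun a h => (u3 s hs a).2 (X4 s a h)
  · rw [X0, X0]
    by_cases h : R s
    · have a1 : ∑ a, x s a * g (δ s a b) ≤ 0 := avg1_pos_le (hx s) fun a ha =>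
        N2 _ (N1 s _ ((hR s).1 h).1 ⟨a, b, ha, hb, rfl⟩)
      have a2 := (x4 s b b' hb).trans a1
      have a3 := L2 s h b hb
      have a4 := (g0 _).1.trans (L0 (δ s (c s) b))
      have a5 := (g0 (δ s (c s) b')).2
      obtain ⟨a6, a7⟩ := k0 s
      nlinarith [mul_nonneg a6 a4, mul_le_mul_of_nonneg_left a5 a6,
        mul_le_mul_of_nonneg_left a3 (show 0 ≤ 1 - k s by linarith),
        mul_le_mul_of_nonneg_left a2 (show 0 ≤ 1 - k s by linarith)]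
    · rw [hk, if_neg fun k => h k.1]
      simpa using (x4 s b b' hb).trans (L3 s b)
  · simp only [mul_assoc, ← Finset.mul_sum]
    rw [X0]
    simp only [Finset.mul_sum _ _ (x s _), ← mul_assoc]
    by_cases h : R s
    · have a1 := le_avg (hy s) (L2 s h)
      rw [L1 s h]
      by_cases h' : Γ s
      · have a2 := (l2 s h').trans (sum_le_sum fun b _ =>
          mul_le_mul_of_nonneg_left (L0 (δ s (c s) b)) ((hy s).1 b))
        obtain ⟨a6, a7⟩ := k0 s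
        nlinarith [mul_le_mul_of_nonneg_left a2 a6,
          mul_le_mul_of_nonneg_left a1 (show 0 ≤ 1 - k s by linarith)]
      · rw [hk, if_neg fun k => h' k.2]
        simpa using a1
    · rw [hk, if_neg fun k => h k.1, hL, if_neg hs, if_neg h]
      simpa using le_avg (hy s) fun b hb => (x5 s hs b hb).trans (L3 s b)
  · by_cases h : N s ∧ ¬R s
    · obtain ⟨t, ht⟩ := not_forall.1 fun k => h.2 ((hR s).2 ⟨h.1, k⟩)
      rw [Classical.not_imp] at ht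
      refine ⟨t, Or.inr (n2 {t | N t ∧ ¬∃ w, Γ w ∧ ReflTransGen (Sp δ x y) t w}
        (fun v hv => ⟨N0 v hv.1, N2 v hv.1, fun w k => ⟨N1 v w hv.1 k,
          fun ⟨w', k1, k2⟩ => hv.2 ⟨w', k1, k2.head k⟩⟩, ?_⟩) t ⟨N3 s t h.1 ht.1, ht.2⟩),
        X3 _ _ ht.1⟩
      rintro _ ⟨a, b, ha, hb, rfl⟩
      refine not_lt.1 fun k => hv.2 ⟨v, (hΓ v).2 ⟨a, ha, ?_⟩, .refl⟩
      exact sum_pos' (fun b _ => mul_nonneg ((hy v).1 b) (g0 _).1) ⟨b, mem_univ b, mul_pos hb k⟩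
    · exact (pa s h).imp fun t k => ⟨Or.inl k.1, k.2⟩
  · by_cases h : N s ∧ ¬R s
    · refine ⟨s, Or.inr ?_, .refl⟩
      change L s ≤ 0
      rw [hL, if_neg (N0 s h.1), if_neg h.2]
      exact N2 s h.1
    · exact (pa s h).imp fun t k => ⟨Or.inl k.1, k.2⟩

end Pool.Agent.P.MP_0c5457_lc
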